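import Pool.Agent.P8H21.AKE.Emb

/-!
# Angular components, and the correspondence of leading terms
-/

set_option autoImplicit false

namespace Pool.Agent.P8H21.AKE

section

variable {K Γ k : Type*} [Field K] [Field k] [LinearOrderedCommGroupWithZero Γ]

/-- `ac` is an angular component map for `v`. -/
structure IsAC (v : Valuation K Γ) (ac : K → k) : Prop where
  zero : ac 0 = 0
  ne : ∀ x, x ≠ 0 → ac x ≠ 0
  mul : ∀ x y, ac (x * y) = ac x * ac y
  lt : ∀ x y, v y < v x → ac (x + y) = ac x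
  eq : ∀ x y, v x = v y → v (x + y) = v x → ac (x + y) = ac x + ac y
  cancel : ∀ x y, x ≠ 0 → v x = v y → (ac x + ac y = 0 ↔ v (x + y) < v x)

variable {v : Valuation K Γ} {ac : K → k}

theorem IsAC.one (h : IsAC v ac) : ac 1 = 1 := by
  have h1 := h.mul 1 1
  rw [mul_one] at h1
  exact (mul_eq_left₀ (h.ne 1 one_ne_zero)).1 h1.symm

open Classical in
/-- The coefficient in degree `γ`. -/
noncomputable def acg (v : Valuation K Γ) (ac : K → k) (γ : Γ) (x : K) : k := if v x = γ then ac x else 0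

theorem acg_add (h : IsAC v ac) (γ : Γ) (hγ : γ ≠ 0) (x y : K) (hx : v x ≤ γ) (hy : v y ≤ γ) :
    acg v ac γ (x + y) = acg v ac γ x + acg v ac γ y := by
  unfold acg
  rcases hx.lt_or_eq with hx1 | hx1
  · rcases hy.lt_or_eq with hy1 | hy1
    · rw [if_neg hx1.ne, if_neg hy1.ne, if_neg (Valuation.map_add_lt v hx1 hy1).ne, add_zero]
    · have h1 : v x < v y := by rw [hy1]; exact hx1
      rw [if_neg hx1.ne, if_pos hy1, add_comm x y, if_pos (by rw [Valuation.map_add_eq_of_lt_left v h1, hy1]),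
        h.lt y x h1, zero_add]
  · rcases hy.lt_or_eq with hy1 | hy1
    · have h1 : v y < v x := by rw [hx1]; exact hy1
      rw [if_neg hy1.ne, if_pos hx1, if_pos (by rw [Valuation.map_add_eq_of_lt_left v h1, hx1]),
        h.lt x y h1, add_zero]
    · have hx0 : x ≠ 0 := by
        rintro rfl
        rw [map_zero] at hx1
        exact hγ hx1.symm
      rw [if_pos hx1, if_pos hy1]
      by_cases h1 : v (x + y) = γ
      · rw [if_pos h1, h.eq x y (by rw [hx1, hy1]) (by rw [h1, hx1])]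
      · rw [if_neg h1]
        exact ((h.cancel x y hx0 (by rw [hx1, hy1])).2 (by
          rw [hx1]
          exact lt_of_le_of_ne (Valuation.map_add_le v hx hy) h1)).symm

theorem acg_sum (h : IsAC v ac) (γ : Γ) (hγ : γ ≠ 0) (s : Finset ℕ) (a : ℕ → K) (ha : ∀ i ∈ s, v (a i) ≤ γ) :
    acg v ac γ (∑ i ∈ s, a i) = ∑ i ∈ s, acg v ac γ (a i) := by
  induction s using Finset.induction_on with
  | empty => simp [acg, hγ.symm]
  | insert j s hj ih =>
    rw [Finset.sum_insert hj, Finset.sum_insert hj, acg_add h γ hγ _ _ (ha j (Finset.mem_insert_self _ _)),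
      ih (fun i hi => ha i (Finset.mem_insert_of_mem hi))]
    exact Valuation.map_sum_le v (fun i hi => ha i (Finset.mem_insert_of_mem hi))

theorem IsAC.close (h : IsAC v ac) {a c : K} (hac : v (a - c) < v a) : v c = v a ∧ ac c = ac a := by
  have h1 : c = a + (c - a) := by ring
  have h2 : v (c - a) < v a := by rw [Valuation.map_sub_swap]; exact hac
  constructor
  · rw [h1, Valuation.map_add_eq_of_lt_left v h2]
  · rw [h1, h.lt a _ h2]

end

section

variable {Γ Δ : Type*} [LinearOrderedCommGroupWithZero Γ] [LinearOrderedCommGroupWithZero Δ]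

/-- The graph of a partial isomorphism of value groups. -/
structure GoodV (P : Set (Γ × Δ)) : Prop where
  zero : (0, 0) ∈ P
  one : (1, 1) ∈ P
  mul : ∀ p ∈ P, ∀ q ∈ P, p * q ∈ P
  inv : ∀ p ∈ P, (p.1⁻¹, p.2⁻¹) ∈ P
  le : ∀ p ∈ P, ∀ q ∈ P, (p.1 ≤ q.1 ↔ p.2 ≤ q.2)

end

section

variable {K L Γ Δ k l : Type*} [Field K] [Field L] [Field k] [Field l] [LinearOrderedCommGroupWithZero Γ]
    [LinearOrderedCommGroupWithZero Δ] {v : Valuation K Γ} {w : Valuation L Δ} {ac : K → k} {ac' : L → l}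

/-- Corresponding values and angular components. -/
def CorR (v : Valuation K Γ) (w : Valuation L Δ) (ac : K → k) (ac' : L → l) (PV : Set (Γ × Δ))
    (PR : Subring (k × l)) (a : K) (b : L) : Prop := (v a, w b) ∈ PV ∧ (ac a, ac' b) ∈ PR

theorem rd_of (hv : IsAC v ac) (hw : IsAC w ac') (PV : Set (Γ × Δ)) (hPV : GoodV PV)
    (PR : Subring (k × l)) (hPR : ∀ p ∈ PR, (p.1 = 0 ↔ p.2 = 0))
    (hsurj : ∀ δ : Δ, δ ≠ 0 → ∀ β : l, β ≠ 0 → ∃ y, w y = δ ∧ ac' y = β)
    (hKV : ∀ a, ∃ δ, (v a, δ) ∈ PV) (hKR : ∀ a, ∃ β, (ac a, β) ∈ PR) :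
    RD v w (CorR v w ac ac' PV PR) := by
  have h00 : ∀ {γ : Γ} {δ : Δ}, (γ, δ) ∈ PV → (γ = 0 ↔ δ = 0) := by
    intro γ δ h
    have h1 := hPV.le _ h _ hPV.zero
    simpa using h1
  refine ⟨?_, ?_, ?_, ?_, ?_, ?_, ?_, ?_, ?_, ?_, ?_⟩
  · refine ⟨?_, ?_⟩
    · rw [map_zero, map_zero]; exact hPV.zero
    · rw [hv.zero, hw.zero]; exact PR.zero_mem
  · intro b hb
    have := (h00 hb.1).1 (map_zero v)
    exact (Valuation.zero_iff w).1 this
  · intro a ha
    have := (h00 ha.1).2 (map_zero w)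
    exact (Valuation.zero_iff v).1 this
  · refine ⟨?_, ?_⟩
    · rw [map_one, map_one]; exact hPV.one
    · rw [hv.one, hw.one]; exact PR.one_mem
  · intro a b a' b' h1 h2
    refine ⟨?_, ?_⟩
    · rw [map_mul, map_mul]; exact hPV.mul _ h1.1 _ h2.1
    · rw [hv.mul, hw.mul]; exact PR.mul_mem h1.2 h2.2
  · intro a a' h1
    by_cases ha : a = 0
    · subst ha
      have ha' := (Valuation.zero_iff w).1 ((h00 h1.1).1 (map_zero v))
      subst ha'
      rw [inv_zero, inv_zero]
      exact h1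
    have ha' : a' ≠ 0 := by
      rintro rfl
      exact ha ((Valuation.zero_iff v).1 ((h00 h1.1).2 (map_zero w)))
    refine ⟨?_, ?_⟩
    · rw [map_inv₀, map_inv₀]; exact hPV.inv _ h1.1
    · obtain ⟨β, hβ⟩ := hKR a⁻¹
      have h2 : ac a * ac a⁻¹ = 1 := by rw [← hv.mul, mul_inv_cancel₀ ha, hv.one]
      have h3 : ac' a' * ac' a'⁻¹ = 1 := by rw [← hw.mul, mul_inv_cancel₀ ha', hw.one]
      have h4 : (ac a * ac a⁻¹ - 1, ac' a' * β - 1) ∈ PR := PR.sub_mem (PR.mul_mem h1.2 hβ) PR.one_mem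
      have h5 : ac' a' * β - 1 = 0 := (hPR _ h4).1 (by rw [h2, sub_self])
      have h6 : β = ac' a'⁻¹ := by
        have h7 : ac' a' * β = ac' a' * ac' a'⁻¹ := by rw [h3]; exact sub_eq_zero.1 h5
        exact mul_left_cancel₀ (hw.ne a' ha') h7
      rw [← h6]
      exact hβ
  · intro a b a' b' h1 h2
    exact hPV.le _ h1.1 _ h2.1
  · intro a b c h1 h2
    obtain ⟨h3, h4⟩ := hv.close h2
    refine ⟨?_, ?_⟩
    · rw [h3]; exact h1.1
    · rw [h4]; exact h1.2
  · intro a b d h1 h2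
    obtain ⟨h3, h4⟩ := hw.close h2
    refine ⟨?_, ?_⟩
    · rw [h3]; exact h1.1
    · rw [h4]; exact h1.2
  · intro s a b c d hab hcd hc hac
    have hvc : v c ≠ 0 := (Valuation.ne_zero_iff v).2 hc
    have hwd : w d ≠ 0 := fun h0 => hvc ((h00 hcd.1).2 h0)
    have hbd : ∀ i ∈ s, w (b i) ≤ w d := fun i hi => (hPV.le _ (hab i hi).1 _ hcd.1).1 (hac i hi)
    have hsum : (acg v ac (v c) (∑ i ∈ s, a i), acg w ac' (w d) (∑ i ∈ s, b i)) ∈ PR := by
      rw [acg_sum hv _ hvc s a hac, acg_sum hw _ hwd s b hbd]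
      have : ((∑ i ∈ s, acg v ac (v c) (a i), ∑ i ∈ s, acg w ac' (w d) (b i)) : k × l) =
          ∑ i ∈ s, (acg v ac (v c) (a i), acg w ac' (w d) (b i)) := by
        ext
        · rw [Prod.fst_sum]
        · rw [Prod.snd_sum]
      rw [this]
      apply PR.sum_mem
      intro i hi
      have h1 : v (a i) = v c ↔ w (b i) = w d := by
        rw [le_antisymm_iff, le_antisymm_iff]
        exact and_congr (hPV.le _ (hab i hi).1 _ hcd.1) (hPV.le _ hcd.1 _ (hab i hi).1)
      unfold acg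
      by_cases h2 : v (a i) = v c
      · rw [if_pos h2, if_pos (h1.1 h2)]
        exact (hab i hi).2
      · rw [if_neg h2, if_neg (fun h3 => h2 (h1.2 h3))]
        exact PR.zero_mem
    have hle1 : v (∑ i ∈ s, a i) ≤ v c := Valuation.map_sum_le v hac
    have hle2 : w (∑ i ∈ s, b i) ≤ w d := Valuation.map_sum_le w hbd
    have hz1 : acg v ac (v c) (∑ i ∈ s, a i) = 0 ↔ v (∑ i ∈ s, a i) < v c := by
      unfold acg
      by_cases h2 : v (∑ i ∈ s, a i) = v c
      · rw [if_pos h2, h2]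
        simp only [lt_irrefl, iff_false]
        apply hv.ne
        intro h0
        rw [h0, map_zero] at h2
        exact hvc h2.symm
      · rw [if_neg h2]
        simp only [true_iff]
        exact lt_of_le_of_ne hle1 h2
    have hz2 : acg w ac' (w d) (∑ i ∈ s, b i) = 0 ↔ w (∑ i ∈ s, b i) < w d := by
      unfold acg
      by_cases h2 : w (∑ i ∈ s, b i) = w d
      · rw [if_pos h2, h2]
        simp only [lt_irrefl, iff_false]
        apply hw.ne
        intro h0
        rw [h0, map_zero] at h2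
        exact hwd h2.symm
      · rw [if_neg h2]
        simp only [true_iff]
        exact lt_of_le_of_ne hle2 h2
    have hiff : v (∑ i ∈ s, a i) < v c ↔ w (∑ i ∈ s, b i) < w d := by
      rw [← hz1, ← hz2]
      exact hPR _ hsum
    refine ⟨hiff, fun h1 => ?_⟩
    have h2 : w (∑ i ∈ s, b i) = w d := by
      by_contra h3
      have h4 := hiff.2 (lt_of_le_of_ne hle2 h3)
      rw [h1] at h4
      exact lt_irrefl _ h4
    refine ⟨?_, ?_⟩
    · rw [h1, h2]; exact hcd.1
    · unfold acg at hsum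
      rw [if_pos h1, if_pos h2] at hsum
      exact hsum
  · intro a
    by_cases ha : a = 0
    · refine ⟨0, ?_, ?_⟩
      · rw [ha, map_zero, map_zero]; exact hPV.zero
      · rw [ha, hv.zero, hw.zero]; exact PR.zero_mem
    obtain ⟨δ, hδ⟩ := hKV a
    obtain ⟨β, hβ⟩ := hKR a
    obtain ⟨y, hy1, hy2⟩ := hsurj δ (fun h0 => (Valuation.ne_zero_iff v).2 ha ((h00 hδ).2 h0)) β
      (fun h0 => hv.ne a ha ((hPR _ hβ).2 h0))
    exact ⟨y, by rw [hy1]; exact hδ, by rw [hy2]; exact hβ⟩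

end

end Pool.Agent.P8H21.AKE
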