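import Mathlib

/-!
# Extension of homomorphisms into countably saturated groups
-/

set_option autoImplicit false

namespace Pool.Agent.P8H21.AKE

universe u u'

/-- Countable systems of equations of the form `α p * α q = α (p * q) * c p q` are solvable if the finite
subsystems are. -/
def SATC (C : Type u') [CommGroup C] : Prop :=
  ∀ (Q : Type u) [Countable Q] [Mul Q] (c : Q → Q → C),
    (∀ S : Finset (Q × Q), ∃ α : Q → C, ∀ p ∈ S, α p.1 * α p.2 = α (p.1 * p.2) * c p.1 p.2) →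
      ∃ α : Q → C, ∀ p q, α p * α q = α (p * q) * c p q

/-- A finitely generated torsion free quotient group has a section. -/
theorem section_fg {G Q : Type u} [CommGroup G] [CommGroup Q] (π : G →* Q) (hπ : Function.Surjective π)
    (E : Subgroup Q) (hE : E.FG) [IsMulTorsionFree Q] : ∃ s : E →* G, ∀ e : E, π (s e) = e := by
  have : IsAddTorsionFree (Additive E) := inferInstance
  have : Module.Finite ℤ (Additive E) := by
    rw [Module.Finite.iff_addGroup_fg]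
    have := (Group.fg_iff_subgroup_fg E).2 hE
    exact GroupFG.iff_add_fg.1 this
  have : Module.Free ℤ (Additive E) := inferInstance
  let b := Module.Free.chooseBasis ℤ (Additive E)
  choose g hg using hπ
  let s : Additive E →ₗ[ℤ] Additive G := b.constr ℤ (fun i => Additive.ofMul (g (b i).toMul.1))
  let p : Additive G →ₗ[ℤ] Additive Q := (MonoidHom.toAdditive π).toIntLinearMap
  let j : Additive E →ₗ[ℤ] Additive Q := (MonoidHom.toAdditive E.subtype).toIntLinearMap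
  have h1 : p.comp s = j := by
    apply b.ext
    intro i
    rw [LinearMap.comp_apply, Module.Basis.constr_basis]
    exact congrArg Additive.ofMul (hg _)
  let s' : E →* G :=
    { toFun := fun e => (s (Additive.ofMul e)).toMul
      map_one' := congrArg Additive.toMul (map_zero s)
      map_mul' := fun x y => congrArg Additive.toMul (map_add s (Additive.ofMul x) (Additive.ofMul y)) }
  refine ⟨s', fun e => ?_⟩
  exact congrArg Additive.toMul (LinearMap.congr_fun h1 (Additive.ofMul e))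

section

variable {G : Type u} {C : Type u'} [CommGroup G] [CommGroup C]

/-- The partial homomorphisms. -/
structure PG (U : Subgroup G) (χ0 : U →* C) (R : Subgroup (G × C)) : Prop where
  base : ∀ u : U, ((u : G), χ0 u) ∈ R
  fn : ∀ c, ((1 : G), c) ∈ R → c = 1
  pure : ∀ (x : G) (n : ℕ), n ≠ 0 → ∀ c, (x ^ n, c) ∈ R → ∃ c', (x, c') ∈ R

theorem PG.uniq {U : Subgroup G} {χ0 : U →* C} {R : Subgroup (G × C)} (h : PG U χ0 R) {x : G} {c c' : C}
    (h1 : (x, c) ∈ R) (h2 : (x, c') ∈ R) : c = c' := by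
  have h3 := R.mul_mem h1 (R.inv_mem h2)
  rw [Prod.inv_mk, Prod.mk_mul_mk, mul_inv_cancel] at h3
  exact mul_inv_eq_one.1 (h.fn _ h3)

/-- The step of the extension. -/
theorem PG.step (hC : SATC.{u} C) {U : Subgroup G} {χ0 : U →* C} {R : Subgroup (G × C)} (h : PG U χ0 R)
    (g : G) : ∃ R' : Subgroup (G × C), PG U χ0 R' ∧ R ≤ R' ∧ ∃ c, (g, c) ∈ R' := by
  classical
  let H : Subgroup G := R.map (MonoidHom.fst G C)
  have hH : ∀ x, x ∈ H ↔ ∃ c, (x, c) ∈ R := by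
    intro x
    constructor
    · rintro ⟨⟨a, b⟩, hab, rfl⟩
      exact ⟨b, hab⟩
    · rintro ⟨c, hc⟩
      exact ⟨(x, c), hc, rfl⟩
  -- the homomorphism as a total function
  let χ : G → C := fun x => if hx : ∃ c, (x, c) ∈ R then hx.choose else 1
  have hχ : ∀ x, x ∈ H → (x, χ x) ∈ R := by
    intro x hx
    have hx' := (hH x).1 hx
    simp only [χ, dif_pos hx']
    exact hx'.choose_spec
  have hχm : ∀ x y, x ∈ H → y ∈ H → χ (x * y) = χ x * χ y := fun x y hx hy =>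
    h.uniq (hχ _ (H.mul_mem hx hy)) (R.mul_mem (hχ x hx) (hχ y hy))
  have hχ1 : χ 1 = 1 := h.uniq (hχ 1 H.one_mem) R.one_mem
  have hχi : ∀ x, x ∈ H → χ x⁻¹ = (χ x)⁻¹ := fun x hx =>
    h.uniq (hχ _ (H.inv_mem hx)) (R.inv_mem (hχ x hx))
  -- the quotient
  let Q := G ⧸ H
  let mk : G →* Q := QuotientGroup.mk' H
  have hmk : ∀ x, mk x = 1 ↔ x ∈ H := fun x => QuotientGroup.eq_one_iff x
  have hsurj : Function.Surjective mk := QuotientGroup.mk'_surjective H
  have htf : ∀ (q : Q) (n : ℕ), n ≠ 0 → q ^ n = 1 → q = 1 := by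
    intro q n hn hq
    obtain ⟨x, rfl⟩ := hsurj q
    rw [← map_pow, hmk] at hq
    rw [hmk, hH]
    obtain ⟨c, hc⟩ := (hH _).1 hq
    exact h.pure x n hn c hc
  have : IsMulTorsionFree Q := by
    refine ⟨fun n hn x y hxy => ?_⟩
    have hxy' : x ^ n = y ^ n := hxy
    have h1 : (x / y) ^ n = 1 := by rw [div_pow, hxy', div_self']
    exact div_eq_one.1 (htf _ n hn h1)
  -- the hull of rank one
  let T : Subgroup Q :=
    { carrier := {q | ∃ n : ℕ, n ≠ 0 ∧ ∃ m : ℤ, q ^ n = mk g ^ m}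
      mul_mem' := by
        rintro x y ⟨n, hn, m, hm⟩ ⟨n', hn', m', hm'⟩
        refine ⟨n * n', mul_ne_zero hn hn', m * n' + m' * n, ?_⟩
        rw [mul_pow, pow_mul, hm, mul_comm n n', pow_mul, hm', zpow_add, zpow_mul, zpow_mul, zpow_natCast,
          zpow_natCast]
      one_mem' := ⟨1, one_ne_zero, 0, by simp⟩
      inv_mem' := by
        rintro x ⟨n, hn, m, hm⟩
        exact ⟨n, hn, -m, by rw [inv_pow, hm, zpow_neg]⟩ }
  have hTcount : Countable T := by
    choose n hn m hm using fun q : T => q.2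
    apply Function.Injective.countable (f := fun q : T => (n q, m q))
    intro q q' hqq
    simp only [Prod.mk.injEq] at hqq
    have h1 := hm q
    rw [hqq.2, ← hm q', hqq.1] at h1
    have h2 : (q.1 / q'.1) ^ (n q') = 1 := by rw [div_pow, h1, div_self']
    exact Subtype.ext (div_eq_one.1 (htf _ _ (hn q') h2))
  have hTpure : ∀ (q : Q) (k : ℕ), k ≠ 0 → q ^ k ∈ T → q ∈ T := by
    rintro q k hk ⟨n, hn, m, hm⟩
    exact ⟨k * n, mul_ne_zero hk hn, m, by rw [pow_mul, hm]⟩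
  have hgT : mk g ∈ T := ⟨1, one_ne_zero, 1, by simp⟩
  -- the cocycle
  choose r hr using hsurj
  have hc : ∀ p q : Q, r p * r q * (r (p * q))⁻¹ ∈ H := by
    intro p q
    rw [← hmk, map_mul, map_mul, map_inv, hr, hr, hr, mul_inv_cancel]
  obtain ⟨α, hα⟩ := hC T (fun p q => χ (r p.1 * r q.1 * (r (p.1 * q.1))⁻¹)) (by
    intro S
    -- a finitely generated subgroup
    let E : Subgroup Q := Subgroup.closure ((S.image (fun p => (p.1 : Q)) ∪ S.image (fun p => (p.2 : Q)) : Finset Q) : Set Q)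
    obtain ⟨s, hs⟩ := section_fg mk (fun q => ⟨r q, hr q⟩) E ⟨_, rfl⟩
    let α : T → C := fun q => if hq : (q : Q) ∈ E then χ (r q * (s ⟨q, hq⟩)⁻¹) else 1
    refine ⟨α, fun p hp => ?_⟩
    have h1 : (p.1 : Q) ∈ E := Subgroup.subset_closure (by
      simp only [Finset.coe_union, Finset.coe_image]
      exact Or.inl ⟨p, hp, rfl⟩)
    have h2 : (p.2 : Q) ∈ E := Subgroup.subset_closure (by
      simp only [Finset.coe_union, Finset.coe_image]
      exact Or.inr ⟨p, hp, rfl⟩)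
    have h3 : ((p.1 * p.2 : T) : Q) ∈ E := E.mul_mem h1 h2
    have hmem : ∀ (q : Q) (hq : q ∈ E), r q * (s ⟨q, hq⟩)⁻¹ ∈ H := by
      intro q hq
      rw [← hmk, map_mul, map_inv, hr, hs, mul_inv_cancel]
    simp only [α, dif_pos h1, dif_pos h2, dif_pos h3]
    rw [← hχm _ _ (hmem _ h1) (hmem _ h2), ← hχm _ _ (hmem _ h3) (hc _ _)]
    congr 1
    have h4 : s ⟨((p.1 * p.2 : T) : Q), h3⟩ = s ⟨p.1, h1⟩ * s ⟨p.2, h2⟩ := by
      rw [← map_mul]
      rfl
    rw [h4]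
    have h5 : ((p.1 * p.2 : T) : Q) = (p.1 : Q) * (p.2 : Q) := rfl
    rw [h5]
    simp only [mul_inv]
    have : r ((p.1 : Q) * (p.2 : Q)) * ((s ⟨p.1, h1⟩)⁻¹ * (s ⟨p.2, h2⟩)⁻¹) * (r p.1 * r p.2 * (r ((p.1 : Q) * (p.2 : Q)))⁻¹) =
      (r ((p.1 : Q) * (p.2 : Q)) * (r ((p.1 : Q) * (p.2 : Q)))⁻¹) * (r p.1 * (s ⟨p.1, h1⟩)⁻¹ * (r p.2 * (s ⟨p.2, h2⟩)⁻¹)) := by
      ac_rfl
    rw [this, mul_inv_cancel, one_mul])
  let α' : Q → C := fun q => if hq : q ∈ T then α ⟨q, hq⟩ else 1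
  have hα' : ∀ p q, p ∈ T → q ∈ T → α' p * α' q = α' (p * q) * χ (r p * r q * (r (p * q))⁻¹) := by
    intro p q hp hq
    simp only [α', dif_pos hp, dif_pos hq, dif_pos (T.mul_mem hp hq)]
    exact hα ⟨p, hp⟩ ⟨q, hq⟩
  -- the new homomorphism
  let χ2 : G → C := fun x => α' (mk x) * χ (x * (r (mk x))⁻¹)
  have hxr : ∀ x, x * (r (mk x))⁻¹ ∈ H := by
    intro x
    rw [← hmk, map_mul, map_inv, hr, mul_inv_cancel]
  have hχ2m : ∀ x y, mk x ∈ T → mk y ∈ T → χ2 (x * y) = χ2 x * χ2 y := by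
    intro x y hx hy
    simp only [χ2]
    have h1 := hα' _ _ hx hy
    have h2 : α' (mk x * mk y) = α' (mk x) * α' (mk y) * (χ (r (mk x) * r (mk y) * (r (mk x * mk y))⁻¹))⁻¹ := by
      rw [h1, mul_inv_cancel_right]
    rw [map_mul, h2, ← hχi _ (hc _ _)]
    have h3 : χ (x * (r (mk x))⁻¹) * χ (y * (r (mk y))⁻¹) =
        χ (r (mk x) * r (mk y) * (r (mk x * mk y))⁻¹)⁻¹ * χ (x * y * (r (mk x * mk y))⁻¹) := by
      have hxy : x * y * (r (mk x * mk y))⁻¹ ∈ H := by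
        rw [← map_mul]
        exact hxr _
      rw [← hχm _ _ (hxr x) (hxr y), ← hχm _ _ (H.inv_mem (hc _ _)) hxy]
      congr 1
      simp only [mul_inv, inv_inv]
      have : (r (mk x))⁻¹ * (r (mk y))⁻¹ * r (mk x * mk y) * (x * y * (r (mk x * mk y))⁻¹) =
        (r (mk x * mk y) * (r (mk x * mk y))⁻¹) * (x * (r (mk x))⁻¹ * (y * (r (mk y))⁻¹)) := by ac_rfl
      rw [this, mul_inv_cancel, one_mul]
    have h4 : α' (mk x) * χ (x * (r (mk x))⁻¹) * (α' (mk y) * χ (y * (r (mk y))⁻¹)) =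
        α' (mk x) * α' (mk y) * (χ (x * (r (mk x))⁻¹) * χ (y * (r (mk y))⁻¹)) := by ac_rfl
    rw [h4, h3, ← mul_assoc]
  have hχ21 : χ2 1 = 1 := by
    have h1 := hχ2m 1 1 (by rw [map_one]; exact T.one_mem) (by rw [map_one]; exact T.one_mem)
    rw [mul_one] at h1
    exact (mul_eq_left).1 h1.symm
  have hχ2H : ∀ x, x ∈ H → χ2 x = χ x := by
    intro x hx
    have h1 : mk x = 1 := (hmk x).2 hx
    simp only [χ2, h1]
    have h2 : χ2 1 = 1 := hχ21
    simp only [χ2, map_one, one_mul] at h2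
    have hr1 : r 1 ∈ H := by rw [← hmk, hr]
    rw [hχm _ _ hx (H.inv_mem hr1), mul_left_comm, h2, mul_one]
  let R' : Subgroup (G × C) :=
    { carrier := {p | mk p.1 ∈ T ∧ p.2 = χ2 p.1}
      mul_mem' := by
        rintro ⟨x, c⟩ ⟨y, d⟩ ⟨h1, h2⟩ ⟨h3, h4⟩
        simp only at h1 h2 h3 h4
        refine ⟨?_, ?_⟩
        · simp only [Prod.mk_mul_mk, map_mul]
          exact T.mul_mem h1 h3
        · simp only [Prod.mk_mul_mk]
          rw [hχ2m x y h1 h3, h2, h4]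
      one_mem' := ⟨by simp [T.one_mem], hχ21.symm⟩
      inv_mem' := by
        rintro ⟨x, c⟩ ⟨h1, h2⟩
        simp only at h1 h2
        have h3 : mk x⁻¹ ∈ T := by rw [map_inv]; exact T.inv_mem h1
        refine ⟨h3, ?_⟩
        simp only [Prod.inv_mk]
        have h4 := hχ2m x x⁻¹ h1 h3
        rw [mul_inv_cancel, hχ21, ← h2] at h4
        exact (eq_inv_of_mul_eq_one_right h4.symm).symm ▸ rfl }
  have hRR' : R ≤ R' := by
    rintro ⟨x, c⟩ hxc
    have hx : x ∈ H := (hH x).2 ⟨c, hxc⟩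
    refine ⟨?_, ?_⟩
    · simp only
      rw [(hmk x).2 hx]
      exact T.one_mem
    · simp only
      rw [hχ2H x hx]
      exact h.uniq hxc (hχ x hx)
  refine ⟨R', ⟨fun u => hRR' (h.base u), ?_, ?_⟩, hRR', χ2 g, hgT, rfl⟩
  · rintro c ⟨_, hc⟩
    simp only at hc
    rw [hc, hχ21]
  · rintro x n hn c ⟨h1, _⟩
    simp only [map_pow] at h1
    exact ⟨χ2 x, hTpure _ n hn h1, rfl⟩

theorem extend_hom (hC : SATC.{u} C) (U : Subgroup G) (χ0 : U →* C)
    (hU : ∀ (x : G) (n : ℕ), n ≠ 0 → x ^ n ∈ U → x ∈ U) : ∃ χ : G →* C, ∀ u : U, χ u = χ0 u := by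
  have h0 : PG U χ0 (MonoidHom.prod U.subtype χ0).range := by
    refine ⟨fun u => ⟨u, rfl⟩, ?_, ?_⟩
    · rintro c ⟨u, hu⟩
      simp only [MonoidHom.prod_apply, Subgroup.coe_subtype, Prod.mk.injEq] at hu
      have h1 : u = 1 := Subtype.ext hu.1
      rw [← hu.2, h1, map_one]
    · rintro x n hn c ⟨u, hu⟩
      simp only [MonoidHom.prod_apply, Subgroup.coe_subtype, Prod.mk.injEq] at hu
      have h1 : x ∈ U := hU x n hn (by rw [← hu.1]; exact u.2)
      exact ⟨χ0 ⟨x, h1⟩, ⟨x, h1⟩, rfl⟩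
  obtain ⟨M, -, hM⟩ := zorn_le_nonempty₀ {R : Subgroup (G × C) | PG U χ0 R} (by
    intro c hc hchain y hy
    have hdir : DirectedOn (· ≤ ·) c := hchain.directedOn
    refine ⟨sSup c, ⟨?_, ?_, ?_⟩, fun z hz => le_sSup hz⟩
    · intro u
      exact (le_sSup hy) ((hc hy).base u)
    · intro d hd
      rw [Subgroup.mem_sSup_of_directedOn ⟨y, hy⟩ hdir] at hd
      obtain ⟨s, hs, hds⟩ := hd
      exact (hc hs).fn d hds
    · intro x n hn d hd
      rw [Subgroup.mem_sSup_of_directedOn ⟨y, hy⟩ hdir] at hd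
      obtain ⟨s, hs, hds⟩ := hd
      obtain ⟨c', hc'⟩ := (hc hs).pure x n hn d hds
      exact ⟨c', (le_sSup hs) hc'⟩) _ h0
  have hMP : PG U χ0 M := hM.prop
  have htot : ∀ g, ∃ c, (g, c) ∈ M := by
    intro g
    by_contra hg
    push Not at hg
    obtain ⟨R', h1, h2, c, h3⟩ := hMP.step hC g
    exact hg c (hM.le_of_ge h1 h2 h3)
  choose f hf using htot
  refine ⟨⟨⟨f, hMP.uniq (hf 1) M.one_mem⟩, fun x y => hMP.uniq (hf _) (M.mul_mem (hf x) (hf y))⟩, fun u => ?_⟩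
  exact hMP.uniq (hf u) (hMP.base u)

end

end Pool.Agent.P8H21.AKE
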