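import Pool.Agent.P8H21.AKE.Ultra
import Pool.Agent.P8H21.AKE.ExtHom

/-!
# Angular components on ultrapowers
-/

set_option autoImplicit false

namespace Pool.Agent.P8H21.AKE

open Filter

universe u u'

theorem satC_units (k : Type u') [Field k] : SATC.{u} (Ul k)ˣ := by
  intro Q _ _ c h
  by_cases hQ : Nonempty Q
  swap
  · exact ⟨fun _ => 1, fun p => absurd ⟨p⟩ hQ⟩
  obtain ⟨e, he⟩ := exists_surjective_nat (Q × Q)
  choose cc hcc using fun p q => rep ((c p q : (Ul k)ˣ) : Ul k)
  obtain ⟨y, hy⟩ := germ_sat (T := Q → k) (fun j N => {α | α (e j).1 * α (e j).2 =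
      α ((e j).1 * (e j).2) * cc (e j).1 (e j).2 N ∧ α (e j).1 ≠ 0}) (by
    intro M
    classical
    obtain ⟨α, hα⟩ := h ((Finset.range M).image e)
    choose a ha using fun q => rep ((α q : (Ul k)ˣ) : Ul k)
    have h1 : ∀ᶠ N in (UU : Filter ℕ), ∀ j ∈ Finset.range M, (a (e j).1 N * a (e j).2 N =
      a ((e j).1 * (e j).2) N * cc (e j).1 (e j).2 N ∧ a (e j).1 N ≠ 0) := by
      rw [Finset.eventually_all]
      intro j hj
      rw [eventually_and]
      constructor
      · have h2 := congrArg (fun z : (Ul k)ˣ => (z : Ul k)) (hα (e j) (Finset.mem_image_of_mem e hj))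
        simp only [Units.val_mul] at h2
        rw [← ha, ← ha, ← ha, ← hcc, ← Germ.coe_mul, ← Germ.coe_mul, Germ.coe_eq] at h2
        exact h2
      · apply Ultrafilter.eventually_not.2
        intro h3
        apply (α (e j).1).ne_zero
        rw [← ha]
        change _ = ((fun _ => 0 : ℕ → k) : Ul k)
        rw [Germ.coe_eq]
        exact h3
    filter_upwards [h1] with N hN
    exact ⟨fun q => a q N, fun j hj => hN j (Finset.mem_range.2 hj)⟩)
  have hne : ∀ q : Q, ((fun N => y N q : ℕ → k) : Ul k) ≠ 0 := by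
    intro q h0
    obtain ⟨j, hj⟩ := he (q, q)
    have h1 := hy j
    change _ = ((fun _ => 0 : ℕ → k) : Ul k) at h0
    rw [Germ.coe_eq] at h0
    obtain ⟨N, hN1, hN2⟩ := (h1.and h0).exists
    simp only [hj] at hN1
    exact hN1.2 hN2
  refine ⟨fun q => Units.mk0 _ (hne q), fun p q => ?_⟩
  apply Units.ext
  rw [Units.val_mul, Units.val_mul, Units.val_mk0, Units.val_mk0, Units.val_mk0, ← hcc, ← Germ.coe_mul,
    ← Germ.coe_mul, Germ.coe_eq]
  obtain ⟨j, hj⟩ := he (p, q)
  filter_upwards [hy j] with N hN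
  simp only [hj] at hN
  exact hN.1

section

variable {K Γ k : Type*} [Field K] [Field k] [LinearOrderedCommGroupWithZero Γ]

theorem isAC_of {v : Valuation K Γ} {res : K → k} (h : IsVF v res) (ac : K → k) (h0 : ac 0 = 0)
    (hne : ∀ x, x ≠ 0 → ac x ≠ 0) (hm : ∀ x y, ac (x * y) = ac x * ac y) (hu : ∀ x, v x = 1 → ac x = res x) :
    IsAC v ac := by
  have hdiv : ∀ x y : K, x ≠ 0 → x + y = x * (1 + y / x) := by
    intro x y hx
    rw [mul_add, mul_one, mul_div_cancel₀ _ hx]
  refine ⟨h0, hne, hm, ?_, ?_, ?_⟩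
  · intro x y hxy
    have hx : x ≠ 0 := by
      rintro rfl
      rw [map_zero] at hxy
      exact absurd hxy (not_lt.2 zero_le)
    have hvx : 0 < v x := zero_lt_iff.2 ((Valuation.ne_zero_iff v).2 hx)
    have h1 : v (y / x) < 1 := by
      rw [map_div₀, div_lt_one₀ hvx]
      exact hxy
    have h2 : v (1 + y / x) = 1 := by
      rw [Valuation.map_add_eq_of_lt_left v (by rw [map_one]; exact h1), map_one]
    rw [hdiv x y hx, hm, hu _ h2, h.add _ _ (by simp) h1.le, h.one, (h.zero_iff _ h1.le).2 h1, add_zero,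
      mul_one]
  · intro x y hxy hv
    by_cases hx : x = 0
    · subst hx
      rw [map_zero] at hxy
      have hy : y = 0 := (Valuation.zero_iff v).1 hxy.symm
      rw [hy, add_zero, h0, add_zero]
    have hvx : 0 < v x := zero_lt_iff.2 ((Valuation.ne_zero_iff v).2 hx)
    have h1 : v (y / x) = 1 := by
      rw [map_div₀, ← hxy, div_self hvx.ne']
    have h2 : v (1 + y / x) = 1 := by
      rw [hdiv x y hx, map_mul] at hv
      exact mul_left_cancel₀ hvx.ne' (by rw [hv, mul_one])
    have hy : y = x * (y / x) := (mul_div_cancel₀ _ hx).symm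
    rw [hdiv x y hx, hm, hu _ h2, h.add _ _ (by simp) h1.le, h.one, ← hu _ h1, mul_add, mul_one, ← hm,
      ← hy]
  · intro x y hx hxy
    have hvx : 0 < v x := zero_lt_iff.2 ((Valuation.ne_zero_iff v).2 hx)
    have h1 : v (y / x) = 1 := by
      rw [map_div₀, ← hxy, div_self hvx.ne']
    have h3 : v (1 + y / x) ≤ 1 := Valuation.map_add_le v (by simp) h1.le
    have hy : y = x * (y / x) := (mul_div_cancel₀ _ hx).symm
    have h4 : ac x + ac y = ac x * res (1 + y / x) := by
      rw [h.add _ _ (by simp) h1.le, h.one, ← hu _ h1, mul_add, mul_one, ← hm, ← hy]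
    rw [h4, mul_eq_zero, or_iff_right (hne x hx), h.zero_iff _ h3, hdiv x y hx, map_mul]
    constructor
    · intro h5
      calc v x * v (1 + y / x) < v x * 1 := mul_lt_mul_of_pos_left h5 hvx
        _ = v x := mul_one _
    · intro h5
      by_contra h6
      have h7 : v (1 + y / x) = 1 := le_antisymm h3 (not_lt.1 h6)
      rw [h7, mul_one] at h5
      exact lt_irrefl _ h5

theorem surj_of {v : Valuation K Γ} {res : K → k} (h : IsVF v res) (ac : K → k) (hne : ∀ x, x ≠ 0 → ac x ≠ 0)
    (hm : ∀ x y, ac (x * y) = ac x * ac y) (hu : ∀ x, v x = 1 → ac x = res x) :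
    ∀ δ : Γ, δ ≠ 0 → ∀ β : k, β ≠ 0 → ∃ y, v y = δ ∧ ac y = β := by
  intro δ hδ β hβ
  obtain ⟨y0, hy0⟩ := h.vsurj δ
  have hy00 : y0 ≠ 0 := by
    rintro rfl
    rw [map_zero] at hy0
    exact hδ hy0.symm
  obtain ⟨t, ht1, ht2⟩ := h.surj (β / ac y0)
  have ht0 : v t = 1 := by
    by_contra h1
    have h2 := (h.zero_iff t ht1).2 (lt_of_le_of_ne ht1 h1)
    rw [h2] at ht2
    exact div_ne_zero hβ (hne y0 hy00) ht2.symm
  refine ⟨t * y0, ?_, ?_⟩
  · rw [map_mul, ht0, one_mul, hy0]
  · rw [hm, hu t ht0, ht2, div_mul_cancel₀ _ (hne y0 hy00)]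

end

theorem exists_ac {K : Type u} {k : Type u'} {Γ : Type*} [Field K] [Field k]
    [LinearOrderedCommGroupWithZero Γ] {v : Valuation K Γ} {res : K → k} (h : IsVF v res)
    (hC : SATC.{u} kˣ) : ∃ ac : K → k, IsAC v ac ∧ (∀ x, v x = 1 → ac x = res x) ∧
      ∀ δ : Γ, δ ≠ 0 → ∀ β : k, β ≠ 0 → ∃ y, v y = δ ∧ ac y = β := by
  classical
  let U : Subgroup Kˣ :=
    { carrier := {x | v (x : K) = 1}
      mul_mem' := by
        intro a b ha hb
        simp only [Set.mem_ofPred_eq, Units.val_mul, map_mul] at *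
        rw [ha, hb, mul_one]
      one_mem' := by simp
      inv_mem' := by
        intro a ha
        simp only [Set.mem_ofPred_eq, Units.val_inv_eq_inv_val, map_inv₀] at *
        rw [ha, inv_one] }
  have hU : ∀ x : Kˣ, x ∈ U ↔ v (x : K) = 1 := fun _ => Iff.rfl
  have hres : ∀ x : Kˣ, v (x : K) = 1 → res (x : K) ≠ 0 := by
    intro x hx h0
    have := (h.zero_iff _ hx.le).1 h0
    rw [hx] at this
    exact lt_irrefl _ this
  let χ0 : U →* kˣ :=
    { toFun := fun x => Units.mk0 (res (x : Kˣ)) (hres x x.2)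
      map_one' := by
        apply Units.ext
        simp only [Units.val_mk0, Subgroup.coe_one, Units.val_one]
        exact h.one
      map_mul' := by
        intro x y
        apply Units.ext
        simp only [Units.val_mk0, Subgroup.coe_mul, Units.val_mul]
        exact h.mul _ _ ((hU _).1 x.2).le ((hU _).1 y.2).le }
  obtain ⟨χ, hχ⟩ := extend_hom hC U χ0 (by
    intro x n hn hx
    rw [hU] at hx ⊢
    rw [Units.val_pow_eq_pow_val, map_pow] at hx
    exact (pow_eq_one_iff_of_nonneg zero_le hn).1 hx)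
  let ac : K → k := fun x => if hx : x = 0 then 0 else (χ (Units.mk0 x hx) : k)
  have h0 : ac 0 = 0 := by simp [ac]
  have hne : ∀ x, x ≠ 0 → ac x ≠ 0 := by
    intro x hx
    simp only [ac, dif_neg hx]
    exact Units.ne_zero _
  have hm : ∀ x y, ac (x * y) = ac x * ac y := by
    intro x y
    by_cases hx : x = 0
    · rw [hx, zero_mul, h0, zero_mul]
    by_cases hy : y = 0
    · rw [hy, mul_zero, h0, mul_zero]
    simp only [ac, dif_neg hx, dif_neg hy, dif_neg (mul_ne_zero hx hy)]
    rw [← Units.val_mul, ← map_mul]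
    congr 2
    apply Units.ext
    simp
  have hu : ∀ x, v x = 1 → ac x = res x := by
    intro x hx
    have hx0 : x ≠ 0 := by
      rintro rfl
      rw [map_zero] at hx
      exact zero_ne_one hx
    simp only [ac, dif_neg hx0]
    have h1 := hχ ⟨Units.mk0 x hx0, hx⟩
    rw [h1]
    rfl
  exact ⟨ac, isAC_of h ac h0 hne hm hu, hu, surj_of h ac hne hm hu⟩

end Pool.Agent.P8H21.AKE
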