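import Pool.Agent.P8H21.AKE.Games

/-!
# From theories to games with countable moves
-/

set_option autoImplicit false

namespace Pool.Agent.P8H21.AKE

open Filter

universe u w

section

variable {S : Sig}

/-- The depth of a term. -/
def Tm.depth {X : Type} : Tm S X → ℕ
  | var _ => 0
  | con _ => 0
  | un _ t => t.depth + 1
  | bin _ s t => max s.depth t.depth + 1

/-- The depth of a formula. -/
def QFm.depth {X : Type} : QFm S X → ℕ
  | eq _ _ => 0
  | rel _ _ _ => 0
  | not φ => φ.depth + 1
  | and φ ψ => max φ.depth ψ.depth + 1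
  | or φ ψ => max φ.depth ψ.depth + 1

theorem countable_tm (X : Type) [Countable X] [Countable S.con] [Countable S.un] [Countable S.bin] :
    Countable (Tm S X) := by
  have h : ∀ d, {t : Tm S X | t.depth ≤ d}.Countable := by
    intro d
    induction d with
    | zero =>
      have h1 : {t : Tm S X | t.depth ≤ 0} ⊆ Set.range Tm.var ∪ Set.range Tm.con := by
        intro t ht
        cases t with
        | var x => exact Or.inl ⟨x, rfl⟩
        | con c => exact Or.inr ⟨c, rfl⟩
        | un f t => simp [Tm.depth] at ht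
        | bin f s t => simp [Tm.depth] at ht
      exact ((Set.countable_range _).union (Set.countable_range _)).mono h1
    | succ d ih =>
      have h1 : {t : Tm S X | t.depth ≤ d + 1} ⊆ (Set.range Tm.var ∪ Set.range Tm.con) ∪
          ((fun p : S.un × Tm S X => Tm.un p.1 p.2) '' (Set.univ ×ˢ {t : Tm S X | t.depth ≤ d}) ∪
          (fun p : S.bin × Tm S X × Tm S X => Tm.bin p.1 p.2.1 p.2.2) ''
            (Set.univ ×ˢ {t : Tm S X | t.depth ≤ d} ×ˢ {t : Tm S X | t.depth ≤ d})) := by
        intro t ht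
        cases t with
        | var x => exact Or.inl (Or.inl ⟨x, rfl⟩)
        | con c => exact Or.inl (Or.inr ⟨c, rfl⟩)
        | un f t =>
          refine Or.inr (Or.inl ⟨(f, t), ⟨trivial, ?_⟩, rfl⟩)
          simp only [Set.mem_ofPred_eq, Tm.depth] at ht
          simp only [Set.mem_ofPred_eq]
          omega
        | bin f s t =>
          simp only [Set.mem_ofPred_eq, Tm.depth] at ht
          have h2 : s.depth ≤ d := by
            have := le_max_left s.depth t.depth
            omega
          have h3 : t.depth ≤ d := by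
            have := le_max_right s.depth t.depth
            omega
          exact Or.inr (Or.inr ⟨(f, s, t), ⟨trivial, h2, h3⟩, rfl⟩)
      exact (((Set.countable_range _).union (Set.countable_range _)).union
        (((Set.countable_univ.prod ih).image _).union
          ((Set.countable_univ.prod (ih.prod ih)).image _))).mono h1
  have h2 : (Set.univ : Set (Tm S X)) = ⋃ d, {t : Tm S X | t.depth ≤ d} := by
    ext t
    simp only [Set.mem_univ, Set.mem_iUnion, true_iff]
    exact ⟨t.depth, by simp⟩
  rw [← Set.countable_univ_iff, h2]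
  exact Set.countable_iUnion h

theorem countable_qf (X : Type) [Countable X] [Countable S.con] [Countable S.un] [Countable S.bin]
    [Countable S.rel] : Countable (QFm S X) := by
  have := countable_tm (S := S) X
  have h : ∀ d, {t : QFm S X | t.depth ≤ d}.Countable := by
    have h0 : (Set.range (fun p : Tm S X × Tm S X => QFm.eq p.1 p.2) ∪
        Set.range (fun p : S.rel × Tm S X × Tm S X => QFm.rel p.1 p.2.1 p.2.2)).Countable :=
      (Set.countable_range _).union (Set.countable_range _)
    intro d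
    induction d with
    | zero =>
      have h1 : {t : QFm S X | t.depth ≤ 0} ⊆ (Set.range (fun p : Tm S X × Tm S X => QFm.eq p.1 p.2) ∪
        Set.range (fun p : S.rel × Tm S X × Tm S X => QFm.rel p.1 p.2.1 p.2.2)) := by
        intro t ht
        cases t with
        | eq s t => exact Or.inl ⟨(s, t), rfl⟩
        | rel r s t => exact Or.inr ⟨(r, s, t), rfl⟩
        | not φ => simp [QFm.depth] at ht
        | and φ ψ => simp [QFm.depth] at ht
        | or φ ψ => simp [QFm.depth] at ht
      exact h0.mono h1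
    | succ d ih =>
      have h1 : {t : QFm S X | t.depth ≤ d + 1} ⊆ (Set.range (fun p : Tm S X × Tm S X => QFm.eq p.1 p.2) ∪
        Set.range (fun p : S.rel × Tm S X × Tm S X => QFm.rel p.1 p.2.1 p.2.2)) ∪
          (QFm.not '' {t : QFm S X | t.depth ≤ d} ∪
          ((fun p : QFm S X × QFm S X => QFm.and p.1 p.2) ''
            ({t : QFm S X | t.depth ≤ d} ×ˢ {t : QFm S X | t.depth ≤ d}) ∪
          (fun p : QFm S X × QFm S X => QFm.or p.1 p.2) ''
            ({t : QFm S X | t.depth ≤ d} ×ˢ {t : QFm S X | t.depth ≤ d}))) := by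
        intro t ht
        cases t with
        | eq s t => exact Or.inl (Or.inl ⟨(s, t), rfl⟩)
        | rel r s t => exact Or.inl (Or.inr ⟨(r, s, t), rfl⟩)
        | not φ =>
          simp only [Set.mem_ofPred_eq, QFm.depth] at ht
          have h2 : φ.depth ≤ d := by omega
          exact Or.inr (Or.inl ⟨φ, h2, rfl⟩)
        | and φ ψ =>
          simp only [Set.mem_ofPred_eq, QFm.depth] at ht
          have h2 : φ.depth ≤ d := by
            have := le_max_left φ.depth ψ.depth
            omega
          have h3 : ψ.depth ≤ d := by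
            have := le_max_right φ.depth ψ.depth
            omega
          exact Or.inr (Or.inr (Or.inl ⟨(φ, ψ), ⟨h2, h3⟩, rfl⟩))
        | or φ ψ =>
          simp only [Set.mem_ofPred_eq, QFm.depth] at ht
          have h2 : φ.depth ≤ d := by
            have := le_max_left φ.depth ψ.depth
            omega
          have h3 : ψ.depth ≤ d := by
            have := le_max_right φ.depth ψ.depth
            omega
          exact Or.inr (Or.inr (Or.inr ⟨(φ, ψ), ⟨h2, h3⟩, rfl⟩))
      exact (h0.union ((ih.image _).union (((ih.prod ih).image _).union ((ih.prod ih).image _)))).mono h1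
  have h2 : (Set.univ : Set (QFm S X)) = ⋃ d, {t : QFm S X | t.depth ≤ d} := by
    ext t
    simp only [Set.mem_univ, Set.mem_iUnion, true_iff]
    exact ⟨t.depth, by simp⟩
  rw [← Set.countable_univ_iff, h2]
  exact Set.countable_iUnion h

theorem countable_fr (n : ℕ) (X : Type) [Countable X] [Countable S.con] [Countable S.un] [Countable S.bin]
    [Countable S.rel] : Countable (Fr S n X) := by
  induction n generalizing X with
  | zero => exact countable_qf X
  | succ n ih =>
    have : ∀ a : ℕ, Countable (Fr S n (X ⊕ Fin a)) := fun a => ih _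
    exact inferInstanceAs (Countable (Σ a : ℕ, Fr S n (X ⊕ Fin a)))

instance {M : Type u} [Nonempty M] : Nonempty (Ul M) := ⟨((fun _ => Classical.arbitrary M : ℕ → M) : Ul M)⟩

variable {M : Type u} {M' : Type w} (I : Str S M) (J : Str S M')

theorem sat_fr [Nonempty M] (n : ℕ) {X : Type} (b : X → Ul M) (ψ : ℕ → Fr S n (X ⊕ ℕ)) (s : Bool)
    (hfin : ∀ m, ∃ y : ℕ → Ul M, ∀ j < m, (Fr.Holds (ustr I) n (ψ j) (Sum.elim b y) ↔ s = true)) :
    ∃ y : ℕ → Ul M, ∀ j, (Fr.Holds (ustr I) n (ψ j) (Sum.elim b y) ↔ s = true) := by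
  choose b' hb' using fun x => rep (b x)
  have hb : b = fun x => (b' x : Ul M) := by funext x; exact (hb' x).symm
  have key : ∀ (y : ℕ → ℕ → M) (j : ℕ),
      ((Fr.Holds (ustr I) n (ψ j) (Sum.elim b (fun k => (y k : Ul M))) ↔ s = true) ↔
      ∀ᶠ N in (UU : Filter ℕ), (Fr.Holds I n (ψ j) (Sum.elim (fun x => b' x N) (fun k => y k N)) ↔ s = true)) := by
    intro y j
    have h1 : (Sum.elim b (fun k => (y k : Ul M))) = fun z => ((Sum.elim b' y z : ℕ → M) : Ul M) := by
      rw [hb]
      funext z
      cases z <;> rfl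
    have h3 : ∀ N, (Sum.elim (fun x => b' x N) (fun k => y k N)) = fun z => (Sum.elim b' y z : ℕ → M) N := by
      intro N
      funext z
      cases z <;> rfl
    rw [h1, los_fr]
    simp only [h3]
    cases s
    · simp only [Bool.false_eq_true, iff_false]
      rw [Ultrafilter.eventually_not]
    · simp only [iff_true]
  obtain ⟨y, hy⟩ := germ_sat (T := ℕ → M)
    (fun j N => {y | Fr.Holds I n (ψ j) (Sum.elim (fun x => b' x N) y) ↔ s = true}) (by
    intro m
    obtain ⟨y, hy⟩ := hfin m
    choose y' hy' using fun k => rep (y k)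
    have hy'' : y = fun k => (y' k : Ul M) := by funext k; exact (hy' k).symm
    have h1 : ∀ᶠ N in (UU : Filter ℕ), ∀ j ∈ Finset.range m,
        (Fr.Holds I n (ψ j) (Sum.elim (fun x => b' x N) (fun k => y' k N)) ↔ s = true) := by
      rw [Finset.eventually_all]
      intro j hj
      rw [← key, ← hy'']
      exact hy j (Finset.mem_range.1 hj)
    filter_upwards [h1] with N hN
    exact ⟨fun k => y' k N, fun j hj => hN j (Finset.mem_range.2 hj)⟩)
  refine ⟨fun k => ((fun N => y N k : ℕ → M) : Ul M), fun j => ?_⟩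
  rw [key]
  exact hy j

/-- Inclusion of the theories of tuples, for the fragment with `n` blocks. -/
def ThLe {A : Type u} {B : Type w} (I : Str S A) (J : Str S B) (n : ℕ) {X : Type} (a : X → A) (b : X → B) : Prop :=
  ∀ φ : Fr S n X, Fr.Holds I n φ a → Fr.Holds J n φ b

theorem thle_odd [Nonempty M] [Nonempty M'] [Countable S.con] [Countable S.un] [Countable S.bin]
    [Countable S.rel] (n : ℕ) (hn : Odd (n + 1)) {X : Type} [Countable X] (a : X → Ul M) (b : X → Ul M')
    (h : ThLe (ustr I) (ustr J) (n + 1) a b) (c : ℕ → Ul M) :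
    ∃ d : ℕ → Ul M', ThLe (ustr I) (ustr J) n (Sum.elim a c) (Sum.elim b d) := by
  have hcnt := countable_fr (S := S) n (X ⊕ ℕ)
  let Ψ := {φ : Fr S n (X ⊕ ℕ) // Fr.Holds (ustr I) n φ (Sum.elim a c)}
  by_cases hne : Nonempty Ψ
  swap
  · exact ⟨fun _ => Classical.arbitrary _, fun φ hφ => absurd ⟨⟨φ, hφ⟩⟩ hne⟩
  have hcnt' : Countable Ψ := inferInstance
  obtain ⟨e, he⟩ := exists_surjective_nat Ψ
  obtain ⟨y, hy⟩ := sat_fr J n b (fun j => (e j).1) true (by
    intro m
    obtain ⟨p, hp⟩ := exists_bound n (Fr.combL true n (fun j => (e j).1) m)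
    have h1 : Fr.Holds (ustr I) n (Fr.combL true n (fun j => (e j).1) m) (Sum.elim a c) := by
      rw [holds_combL_true]
      exact fun j _ => (e j).2
    rw [holds_trunc (ustr I) n _ p hp a c (fun j => c j) (fun _ => rfl)] at h1
    have h2 := h ⟨p + 1, Fr.map n (trunc p) (Fr.combL true n (fun j => (e j).1) m)⟩ (by
      simp only [Fr.Holds, if_pos hn]
      exact ⟨_, h1⟩)
    simp only [Fr.Holds, if_pos hn] at h2
    obtain ⟨y', hy'⟩ := h2
    refine ⟨fun k => if hk : k < p + 1 then y' ⟨k, hk⟩ else Classical.arbitrary _, fun j hj => ?_⟩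
    rw [← holds_trunc (ustr J) n _ p hp b (fun k => if hk : k < p + 1 then y' ⟨k, hk⟩ else
      Classical.arbitrary _) y' (fun j => by rw [dif_pos j.2]), holds_combL_true] at hy'
    simp only [iff_true]
    exact hy' j hj.le)
  refine ⟨y, fun φ hφ => ?_⟩
  obtain ⟨j, hj⟩ := he ⟨φ, hφ⟩
  have := hy j
  rw [hj] at this
  exact this.2 rfl

theorem thle_even [Nonempty M] [Nonempty M'] [Countable S.con] [Countable S.un] [Countable S.bin]
    [Countable S.rel] (n : ℕ) (hn : ¬ Odd (n + 1)) {X : Type} [Countable X] (a : X → Ul M) (b : X → Ul M')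
    (h : ThLe (ustr I) (ustr J) (n + 1) a b) (d : ℕ → Ul M') :
    ∃ c : ℕ → Ul M, ThLe (ustr I) (ustr J) n (Sum.elim a c) (Sum.elim b d) := by
  have hcnt := countable_fr (S := S) n (X ⊕ ℕ)
  let Ψ := {φ : Fr S n (X ⊕ ℕ) // ¬ Fr.Holds (ustr J) n φ (Sum.elim b d)}
  by_cases hne : Nonempty Ψ
  swap
  · exact ⟨fun _ => Classical.arbitrary _, fun φ _ => by
      by_contra h1
      exact hne ⟨⟨φ, h1⟩⟩⟩
  have hcnt' : Countable Ψ := inferInstance
  obtain ⟨e, he⟩ := exists_surjective_nat Ψ
  obtain ⟨y, hy⟩ := sat_fr I n a (fun j => (e j).1) false (by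
    intro m
    obtain ⟨p, hp⟩ := exists_bound n (Fr.combL false n (fun j => (e j).1) m)
    have h1 : ¬ Fr.Holds (ustr J) n (Fr.combL false n (fun j => (e j).1) m) (Sum.elim b d) := by
      rw [holds_combL_false]
      rintro ⟨j, _, hj⟩
      exact (e j).2 hj
    rw [holds_trunc (ustr J) n _ p hp b d (fun j => d j) (fun _ => rfl)] at h1
    have h2 := h ⟨p + 1, Fr.map n (trunc p) (Fr.combL false n (fun j => (e j).1) m)⟩
    simp only [Fr.Holds, if_neg hn] at h2
    have h3 : ¬ ∀ y : Fin (p + 1) → Ul M, Fr.Holds (ustr I) n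
        (Fr.map n (trunc p) (Fr.combL false n (fun j => (e j).1) m)) (Sum.elim a y) :=
      fun h4 => h1 (h2 h4 _)
    push Not at h3
    obtain ⟨y', hy'⟩ := h3
    refine ⟨fun k => if hk : k < p + 1 then y' ⟨k, hk⟩ else Classical.arbitrary _, fun j hj => ?_⟩
    rw [← holds_trunc (ustr I) n _ p hp a (fun k => if hk : k < p + 1 then y' ⟨k, hk⟩ else
      Classical.arbitrary _) y' (fun j => by rw [dif_pos j.2]), holds_combL_false] at hy'
    simp only [Bool.false_eq_true, iff_false]
    exact fun h5 => hy' ⟨j, hj.le, h5⟩)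
  refine ⟨y, fun φ hφ => ?_⟩
  by_contra h1
  obtain ⟨j, hj⟩ := he ⟨φ, h1⟩
  have := hy j
  rw [hj] at this
  exact absurd (this.1 hφ) (by simp)

/-- The game with `n` countable moves. -/
def Game {A : Type u} {B : Type w} (Iso : Set (A × B) → Prop) : ℕ → Set (A × B) → Prop
  | 0, P => Iso P
  | n + 1, P =>
    if Odd (n + 1) then ∀ C : Set A, C.Countable → ∃ P' : Set (A × B), P ⊆ P' ∧ P'.Countable ∧
      (∀ c ∈ C, ∃ d, (c, d) ∈ P') ∧ Game Iso n P'
    else ∀ D : Set B, D.Countable → ∃ P' : Set (A × B), P ⊆ P' ∧ P'.Countable ∧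
      (∀ d ∈ D, ∃ c, (c, d) ∈ P') ∧ Game Iso n P'

theorem thle_game [Nonempty M] [Nonempty M'] [Countable S.con] [Countable S.un] [Countable S.bin]
    [Countable S.rel] (Iso : Set (Ul M × Ul M') → Prop)
    (hIso : ∀ (X : Type) (a : X → Ul M) (b : X → Ul M'), ThLe (ustr I) (ustr J) 0 a b →
      Iso (Set.range fun x => (a x, b x)))
    (n : ℕ) (X : Type) [Countable X] (a : X → Ul M) (b : X → Ul M') (h : ThLe (ustr I) (ustr J) n a b) :
    Game Iso n (Set.range fun x => (a x, b x)) := by
  induction n generalizing X with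
  | zero => exact hIso X a b h
  | succ n ih =>
    unfold Game
    split_ifs with hn
    · intro C hC
      obtain ⟨c, hc⟩ : ∃ c : ℕ → Ul M, C ⊆ Set.range c := by
        rcases C.eq_empty_or_nonempty with h0 | h0
        · exact ⟨fun _ => Classical.arbitrary _, by rw [h0]; exact Set.empty_subset _⟩
        · obtain ⟨f, hf⟩ := hC.exists_eq_range h0
          exact ⟨f, hf.le⟩
      obtain ⟨d, hd⟩ := thle_odd I J n hn a b h c
      refine ⟨_, ?_, Set.countable_range _, ?_, ih (X ⊕ ℕ) _ _ hd⟩
      · rintro _ ⟨x, rfl⟩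
        exact ⟨Sum.inl x, rfl⟩
      · intro x hx
        obtain ⟨k, rfl⟩ := hc hx
        exact ⟨d k, Sum.inr k, rfl⟩
    · intro D hD
      obtain ⟨d, hd⟩ : ∃ d : ℕ → Ul M', D ⊆ Set.range d := by
        rcases D.eq_empty_or_nonempty with h0 | h0
        · exact ⟨fun _ => Classical.arbitrary _, by rw [h0]; exact Set.empty_subset _⟩
        · obtain ⟨f, hf⟩ := hD.exists_eq_range h0
          exact ⟨f, hf.le⟩
      obtain ⟨c, hc⟩ := thle_even I J n hn a b h d
      refine ⟨_, ?_, Set.countable_range _, ?_, ih (X ⊕ ℕ) _ _ hc⟩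
      · rintro _ ⟨x, rfl⟩
        exact ⟨Sum.inl x, rfl⟩
      · intro x hx
        obtain ⟨k, rfl⟩ := hd hx
        exact ⟨c k, Sum.inr k, rfl⟩

/-- Inclusion of theories gives inclusion of the theories of the ultrapowers. -/
theorem thle_of_thy [Nonempty M] [Nonempty M'] (n : ℕ) (h : I.thy n ⊆ J.thy n) :
    ThLe (ustr I) (ustr J) n (Empty.elim : Empty → Ul M) (Empty.elim : Empty → Ul M') := by
  intro φ hφ
  have h1 : (Empty.elim : Empty → Ul M) = fun x => (((fun _ => x.elim) : ℕ → M) : Ul M) := by
    funext x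
    exact x.elim
  have h2 : (Empty.elim : Empty → Ul M') = fun x => (((fun _ => x.elim) : ℕ → M') : Ul M') := by
    funext x
    exact x.elim
  rw [h1, los_fr] at hφ
  rw [h2, los_fr]
  obtain ⟨N, hN⟩ := hφ.exists
  have h3 : φ ∈ I.thy n := by
    change Fr.Holds I n φ Empty.elim
    convert hN
  have h4 : Fr.Holds J n φ Empty.elim := h h3
  refine Eventually.of_forall fun N' => ?_
  convert h4

end

end Pool.Agent.P8H21.AKE
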