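import Pool.Agent.P8H21.AKE.ACex
import Pool.Agent.P8H21.AKE.Games2

/-!
# The countable moves for valued fields
-/

set_option autoImplicit false

namespace Pool.Agent.P8H21.AKE

universe u w

/-- A countable set lies in a countable, relatively algebraically closed subfield. -/
theorem exists_countable_closed {K : Type u} [Field K] (S : Set K) (hS : S.Countable) :
    ∃ A : Subfield K, Countable A ∧ S ⊆ A ∧ ∀ x : K, IsAlgebraic A x → x ∈ A := by
  let F0 : Subfield K := Subfield.closure S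
  have hF0 : Countable F0 := by
    rw [← Cardinal.mk_le_aleph0_iff]
    refine (Subfield.cardinalMk_closure_le_max S).trans ?_
    rw [max_le_iff]
    have := hS.to_subtype
    exact ⟨Cardinal.mk_le_aleph0_iff.2 this, le_rfl⟩
  let A0 := algebraicClosure F0 K
  have hA0 : Countable A0 := by
    rw [← Cardinal.mk_le_aleph0_iff]
    refine (Algebra.IsAlgebraic.cardinalMk_le_max F0 A0).trans ?_
    rw [max_le_iff]
    exact ⟨Cardinal.mk_le_aleph0_iff.2 hF0, le_rfl⟩
  refine ⟨A0.toSubfield, hA0, ?_, ?_⟩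
  · intro x hx
    have h1 : x ∈ F0 := Subfield.subset_closure hx
    exact A0.algebraMap_mem ⟨x, h1⟩
  · intro x hx
    change x ∈ A0
    rw [mem_algebraicClosure_iff]
    have hx' : IsAlgebraic A0 x := hx
    exact hx'.restrictScalars F0

section

variable {K Γ k : Type*} [Field K] [Field k] [LinearOrderedCommGroupWithZero Γ]

theorem isAC_sub {v : Valuation K Γ} {ac : K → k} (h : IsAC v ac) (A : Subfield K) :
    IsAC (v.comap A.subtype) (fun x : A => ac x) := by
  refine ⟨h.zero, fun x hx => h.ne _ (by simpa using hx), fun x y => h.mul _ _, fun x y hxy => h.lt _ _ hxy,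
    fun x y h1 h2 => h.eq _ _ h1 h2, fun x y hx h1 => h.cancel _ _ (by simpa using hx) h1⟩

open Polynomial in
theorem nh_sub {v : Valuation K Γ} (h : NH v) (A : Subfield K) (hA : ∀ x : K, IsAlgebraic A x → x ∈ A) :
    NH (v.comap A.subtype) := by
  intro P b hb hj
  have hP0 : P ≠ 0 := by
    rintro rfl
    simp at hb
  have e1 : ∀ Q : A[X], (Q.map A.subtype).eval (b : K) = ((Q.eval b : A) : K) := by
    intro Q
    rw [eval_map]
    exact eval₂_at_apply A.subtype b
  obtain ⟨r, hr, hr2⟩ := h (P.map A.subtype) b (by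
    rw [derivative_map, e1]
    simpa using hb) (by
    intro j hj2
    have h1 := hj j hj2
    simp only [Valuation.comap_apply, Subfield.coe_subtype] at h1
    rw [derivative_map, e1, e1]
    have h2 : (taylor (b : K) (P.map A.subtype)).coeff j = (((taylor b P).coeff j : A) : K) := tay A.subtype b P j
    rw [h2]
    exact h1)
  have hrA : r ∈ A := by
    apply hA
    refine ⟨P, hP0, ?_⟩
    rw [aeval_def, ← eval_map]
    exact hr
  refine ⟨⟨r, hrA⟩, ?_, ?_⟩
  · apply Subtype.ext
    have h3 : (P.map A.subtype).eval r = ((P.eval (⟨r, hrA⟩ : A) : A) : K) := by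
      rw [eval_map]
      exact eval₂_at_apply A.subtype (⟨r, hrA⟩ : A)
    rw [← h3, hr]
    rfl
  · simp only [Valuation.comap_apply, Subfield.coe_subtype]
    rw [derivative_map, e1, e1] at hr2
    exact hr2

end

section

variable {K L Γ Δ k l : Type*} [Field K] [Field L] [Field k] [Field l] [LinearOrderedCommGroupWithZero Γ]
    [LinearOrderedCommGroupWithZero Δ] {v : Valuation K Γ} {w : Valuation L Δ} {ac : K → k} {ac' : L → l}

/-- The core of a move: extension of a countable partial map to a countable set. -/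
theorem core (hv : IsAC v ac) (hw : IsAC w ac') (hNv : NH v) (hNw : NH w)
    (hchar : ∀ n : ℕ, n ≠ 0 → v (n : K) = 1) (hs : SatP w)
    (hsurj : ∀ δ : Δ, δ ≠ 0 → ∀ β : l, β ≠ 0 → ∃ y, w y = δ ∧ ac' y = β)
    (PV : Set (Γ × Δ)) (hPV : GoodV PV) (PR : Subring (k × l)) (hPR : ∀ p ∈ PR, (p.1 = 0 ↔ p.2 = 0))
    (A : Subfield K) (hAc : Countable A) (hA : ∀ x : K, IsAlgebraic A x → x ∈ A)
    (hAV : ∀ a ∈ A, ∃ δ, (v a, δ) ∈ PV) (hAR : ∀ a ∈ A, ∃ β, (ac a, β) ∈ PR)
    (G : Subring (K × L)) (hG : ∀ p ∈ G, p.1 ∈ A ∧ CorR v w ac ac' PV PR p.1 p.2) :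
    ∃ G' : Subring (K × L), G ≤ G' ∧ (G' : Set (K × L)).Countable ∧
      (∀ p ∈ G', CorR v w ac ac' PV PR p.1 p.2) ∧ ∀ a ∈ A, ∃ b, (a, b) ∈ G' := by
  have hRD := rd_of (isAC_sub hv A) hw PV hPV PR hPR hsurj (fun a => hAV a a.2) (fun a => hAR a a.2)
  let j : A × L →+* K × L := RingHom.prodMap A.subtype (RingHom.id L)
  have hj : Function.Injective j := by
    rintro ⟨a, b⟩ ⟨a', b'⟩ h
    have h1 : ((a : K), b) = ((a' : K), b') := h
    simp only [Prod.mk.injEq] at h1
    exact Prod.ext (Subtype.ext h1.1) h1.2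
  obtain ⟨M, hGM, hM, hMt⟩ := embed hRD (nh_sub hNv A hA) hNw (fun n hn => by
    simp only [Valuation.comap_apply, Subfield.coe_subtype]
    have : (((n : A)) : K) = (n : K) := by simp
    rw [this]
    exact hchar n hn) hs (G.comap j) (fun p hp => (hG _ hp).2)
  have hMc : (M : Set (A × L)).Countable := by
    apply Set.MapsTo.countable_of_injOn (f := Prod.fst) (t := (Set.univ : Set A)) (fun _ _ => trivial)
    · rintro ⟨a, b⟩ hab ⟨a', b'⟩ hab' h
      simp only at h
      subst h
      exact Prod.ext rfl (hRD.unique M hM hab hab')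
    · exact Set.countable_univ
  refine ⟨M.map j, ?_, ?_, ?_, ?_⟩
  · rintro ⟨a, b⟩ hab
    have ha : a ∈ A := (hG _ hab).1
    exact ⟨(⟨a, ha⟩, b), hGM (show j (⟨a, ha⟩, b) ∈ G from hab), rfl⟩
  · exact hMc.image j
  · rintro _ ⟨p, hp, rfl⟩
    exact hM p hp
  · intro a ha
    obtain ⟨b, hb⟩ := hMt ⟨a, ha⟩
    exact ⟨b, _, hb, rfl⟩

end

end Pool.Agent.P8H21.AKE
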