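import Pool.Agent.P8H21.AKE.Imm

/-!
# The embedding theorem
-/

set_option autoImplicit false

namespace Pool.Agent.P8H21.AKE

open Polynomial

section

variable {K L Γ Δ : Type*} [Field K] [Field L] [LinearOrderedCommGroupWithZero Γ]
    [LinearOrderedCommGroupWithZero Δ] {v : Valuation K Γ} {w : Valuation L Δ} {R : K → L → Prop}

theorem RD.unique (hR : RD v w R) (G : Subring (K × L)) (hG : ∀ p ∈ G, R p.1 p.2) {a : K} {b b' : L}
    (h : (a, b) ∈ G) (h' : (a, b') ∈ G) : b = b' := by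
  have h1 := hG _ (G.sub_mem h h')
  simp only [Prod.mk_sub_mk, sub_self] at h1
  exact sub_eq_zero.1 (hR.left0 h1)

/-- The subring of fractions of a partial map. -/
def fracSub (hR : RD v w R) (G : Subring (K × L)) (hG : ∀ p ∈ G, R p.1 p.2) : Subring (K × L) where
  carrier := {p | ∃ q ∈ G, ∃ u ∈ G, u.1 ≠ 0 ∧ p = (q.1 / u.1, q.2 / u.2)}
  mul_mem' := by
    rintro _ _ ⟨q, hq, u, hu, hu0, rfl⟩ ⟨q', hq', u', hu', hu0', rfl⟩
    exact ⟨q * q', G.mul_mem hq hq', u * u', G.mul_mem hu hu', mul_ne_zero hu0 hu0', by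
      simp only [Prod.mk_mul_mk, Prod.fst_mul, Prod.snd_mul, div_mul_div_comm]⟩
  one_mem' := ⟨1, G.one_mem, 1, G.one_mem, by simp, by simp; rfl⟩
  add_mem' := by
    rintro _ _ ⟨q, hq, u, hu, hu0, rfl⟩ ⟨q', hq', u', hu', hu0', rfl⟩
    have h1 : u.2 ≠ 0 := hR.ne0 (hG _ hu) hu0
    have h2 : u'.2 ≠ 0 := hR.ne0 (hG _ hu') hu0'
    exact ⟨q * u' + u * q', G.add_mem (G.mul_mem hq hu') (G.mul_mem hu hq'), u * u', G.mul_mem hu hu',
      mul_ne_zero hu0 hu0', by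
      simp only [Prod.mk_add_mk, Prod.fst_mul, Prod.snd_mul, Prod.fst_add, Prod.snd_add]
      rw [div_add_div _ _ hu0 hu0', div_add_div _ _ h1 h2]⟩
  zero_mem' := ⟨0, G.zero_mem, 1, G.one_mem, by simp, by simp; rfl⟩
  neg_mem' := by
    rintro _ ⟨q, hq, u, hu, hu0, rfl⟩
    exact ⟨-q, G.neg_mem hq, u, hu, hu0, by simp [neg_div]⟩

theorem embed [Countable K] (hR : RD v w R) (hv : NH v) (hw : NH w)
    (hchar : ∀ n : ℕ, n ≠ 0 → v (n : K) = 1) (hs : SatP w) (G : Subring (K × L))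
    (hG : ∀ p ∈ G, R p.1 p.2) :
    ∃ G' : Subring (K × L), G ≤ G' ∧ (∀ p ∈ G', R p.1 p.2) ∧ ∀ a, ∃ b, (a, b) ∈ G' := by
  obtain ⟨M, hGM, hM⟩ := zorn_le_nonempty₀ {G' : Subring (K × L) | ∀ p ∈ G', R p.1 p.2} (by
    intro c hc hchain y hy
    refine ⟨sSup c, ?_, fun z hz => le_sSup hz⟩
    intro p hp
    rw [Subring.mem_sSup_of_directedOn ⟨y, hy⟩ hchain.directedOn] at hp
    obtain ⟨s, hs, hps⟩ := hp
    exact hc hs p hps) G hG
  refine ⟨M, hGM, hM.prop, ?_⟩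
  have hMR : ∀ p ∈ M, R p.1 p.2 := hM.prop
  have hmax : ∀ N : Subring (K × L), (∀ p ∈ N, R p.1 p.2) → M ≤ N → N ≤ M := fun N hN hMN => hM.le_of_ge hN hMN
  -- inverses
  have hinv : ∀ a b, (a, b) ∈ M → (a⁻¹, b⁻¹) ∈ M := by
    intro a b hab
    by_cases ha : a = 0
    · subst ha
      have hb : b = 0 := hR.left0 (hMR _ hab)
      subst hb
      rw [inv_zero, inv_zero]
      exact M.zero_mem
    have h1 := hmax (fracSub hR M hMR) (by
      rintro _ ⟨q, hq, u, hu, _, rfl⟩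
      simp only [div_eq_mul_inv]
      exact hR.mul (hMR _ hq) (hR.inv (hMR _ hu))) (by
      intro p hp
      exact ⟨p, hp, 1, M.one_mem, by simp, by simp⟩)
    apply h1
    exact ⟨1, M.one_mem, (a, b), hab, ha, by simp⟩
  let F : Subfield K :=
    { Subring.map (RingHom.fst K L) M with
      inv_mem' := by
        rintro x ⟨⟨a, b⟩, hab, rfl⟩
        exact ⟨(a⁻¹, b⁻¹), hinv a b hab, rfl⟩ }
  have hF : ∀ x : K, x ∈ F ↔ ∃ b, (x, b) ∈ M := by
    intro x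
    constructor
    · rintro ⟨⟨a, b⟩, hab, rfl⟩
      exact ⟨b, hab⟩
    · rintro ⟨b, hb⟩
      exact ⟨(x, b), hb, rfl⟩
  choose f hf using fun x : F => (hF x.1).1 x.2
  have huniq : ∀ {a : K} {b b' : L}, (a, b) ∈ M → (a, b') ∈ M → b = b' := fun h h' => hR.unique M hMR h h'
  let φ : F →+* L :=
    { toFun := f
      map_one' := huniq (hf 1) M.one_mem
      map_mul' := fun x y => huniq (hf (x * y)) (M.mul_mem (hf x) (hf y))
      map_zero' := huniq (hf 0) M.zero_mem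
      map_add' := fun x y => huniq (hf (x + y)) (M.add_mem (hf x) (hf y)) }
  have hφ : ∀ c : F, (c.1, φ c) ∈ M := hf
  by_contra hcon
  push Not at hcon
  obtain ⟨x, hx⟩ := hcon
  have hx' : x ∉ Set.range F.subtype := by
    rintro ⟨c, rfl⟩
    exact hx _ (hφ c)
  obtain ⟨r, hr, s, hrs⟩ := one_step F.subtype φ hR hv hw hchar hs (fun c => hMR _ (hφ c)) x hx'
  have h2 := hmax (RingHom.prod (eval₂RingHom F.subtype r) (eval₂RingHom φ s)).range (by
    rintro _ ⟨Q, rfl⟩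
    exact hrs Q) (by
    rintro ⟨a, b⟩ hab
    have haF : a ∈ F := (hF a).2 ⟨b, hab⟩
    refine ⟨C ⟨a, haF⟩, ?_⟩
    have hb : φ ⟨a, haF⟩ = b := huniq (hφ ⟨a, haF⟩) hab
    simp [hb])
  have h3 : (r, s) ∈ M := h2 ⟨X, by simp⟩
  exact hr ⟨⟨r, (hF r).2 ⟨s, h3⟩⟩, rfl⟩

end

end Pool.Agent.P8H21.AKE
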