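import Pool.Agent.P8H21.AKE.Moves

/-!
# The theorem for valued fields given by henselian valuation rings
-/

set_option autoImplicit false

namespace Pool.Agent.P8H21.AKE

open Filter

universe u w

section

variable {K : Type u} [Field K] (O : ValuationSubring K)

open Polynomial in
theorem h2_of_henselian [HenselianLocalRing O] : H2 O.valuation := by
  intro n c hc
  have hcO : ∀ j, c j ∈ O := fun j => (O.valuation_le_one_iff _).1 (hc j).le
  let d : ℕ → O := fun j => ⟨c j, hcO j⟩
  have hd : ∀ j, d j ∈ IsLocalRing.maximalIdeal O := by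
    intro j
    rw [ValuationSubring.valuation_lt_one_iff]
    exact hc j
  let g : O[X] := ∑ j ∈ Finset.range n, C (d j) * X ^ (n - 1 - j)
  have hg : ∀ x : O, g.eval x ∈ IsLocalRing.maximalIdeal O := by
    intro x
    simp only [g, eval_finsetSum, eval_mul, eval_C, eval_pow, eval_X]
    exact Ideal.sum_mem _ fun j _ => Ideal.mul_mem_right _ _ (hd j)
  have hg' : ∀ x : O, g.derivative.eval x ∈ IsLocalRing.maximalIdeal O := by
    intro x
    simp only [g, derivative_sum, derivative_C_mul, eval_finsetSum, eval_mul, eval_C]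
    exact Ideal.sum_mem _ fun j _ => Ideal.mul_mem_right _ _ (hd j)
  have hgd : (X ^ n + g : O[X]).degree ≤ (n : WithBot ℕ) := by
    refine (degree_add_le _ _).trans (max_le (degree_X_pow_le n) ?_)
    refine (degree_sum_le _ _).trans ?_
    rw [Finset.sup_le_iff]
    intro j _
    refine (degree_C_mul_X_pow_le _ _).trans ?_
    exact_mod_cast (by omega : n - 1 - j ≤ n)
  let f : O[X] := X ^ (n + 1) + (X ^ n + g)
  have hf : f.Monic := monic_X_pow_add (lt_of_le_of_lt hgd (by exact_mod_cast Nat.lt_succ_self n))
  have h1 : f.eval (-1) ∈ IsLocalRing.maximalIdeal O := by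
    have : f.eval (-1) = g.eval (-1) := by
      simp only [f, eval_add, eval_pow, eval_X]
      ring
    rw [this]
    exact hg _
  have h2 : IsUnit (f.derivative.eval (-1)) := by
    have h3 : f.derivative.eval (-1) = (-1) ^ n + g.derivative.eval (-1) := by
      simp only [f, derivative_add, derivative_X_pow, eval_add, eval_mul, eval_C, eval_pow, eval_X,
        Nat.add_sub_cancel]
      rcases n with _ | m
      · simp
      · simp only [Nat.add_sub_cancel]
        push_cast
        ring
    rw [h3]
    by_contra hcon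
    have h4 : (-1 : O) ^ n + g.derivative.eval (-1) ∈ IsLocalRing.maximalIdeal O := by
      rw [IsLocalRing.mem_maximalIdeal]
      exact hcon
    have h5 : (-1 : O) ^ n ∈ IsLocalRing.maximalIdeal O := by
      have := Ideal.sub_mem _ h4 (hg' (-1))
      simpa using this
    rw [IsLocalRing.mem_maximalIdeal] at h5
    exact h5 ((isUnit_one.neg).pow n)
  obtain ⟨t, ht1, ht2⟩ := HenselianLocalRing.is_henselian f hf (-1) h1 h2
  have htu : IsUnit t := by
    by_contra hcon
    have h3 : t ∈ IsLocalRing.maximalIdeal O := by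
      rw [IsLocalRing.mem_maximalIdeal]
      exact hcon
    have h4 : (1 : O) ∈ IsLocalRing.maximalIdeal O := by
      have := Ideal.sub_mem _ ht2 h3
      have e : t - -1 - t = 1 := by ring
      rwa [e] at this
    rw [IsLocalRing.mem_maximalIdeal] at h4
    exact h4 isUnit_one
  have hvt : O.valuation (t : K) = 1 := (O.valuation_eq_one_iff t).1 htu
  have ht0 : (t : K) ≠ 0 := by
    intro h0
    rw [h0, map_zero] at hvt
    exact zero_ne_one hvt
  refine ⟨(t : K)⁻¹, by rw [map_inv₀, hvt, inv_one], ?_⟩
  have h6 : (t : K) ^ (n + 1) + ((t : K) ^ n + ∑ j ∈ Finset.range n, c j * (t : K) ^ (n - 1 - j)) = 0 := by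
    have h7 : f.eval t = 0 := ht1
    have h8 := congrArg (fun z : O => (z : K)) h7
    simp only [f, g, eval_add, eval_pow, eval_X, eval_finsetSum, eval_mul, eval_C] at h8
    push_cast at h8
    exact h8
  have h9 : (t : K) ^ (n + 1) * (1 + (t : K)⁻¹ + ∑ j ∈ Finset.range n, c j * (t : K)⁻¹ ^ (j + 2)) = 0 := by
    rw [← h6, mul_add, mul_add, mul_one, add_assoc]
    congr 1
    congr 1
    · rw [pow_succ, mul_assoc, mul_inv_cancel₀ ht0, mul_one]
    · rw [Finset.mul_sum]
      apply Finset.sum_congr rfl
      intro j hj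
      have hjn : j < n := Finset.mem_range.1 hj
      have e : (t : K) ^ (n + 1) = (t : K) ^ (n - 1 - j) * (t : K) ^ (j + 2) := by
        rw [← pow_add]
        congr 1
        omega
      rw [e, inv_pow]
      have h10 : (t : K) ^ (j + 2) ≠ 0 := pow_ne_zero _ ht0
      field_simp
  exact (mul_eq_zero.1 h9).resolve_left (pow_ne_zero _ ht0)

theorem isVF_of_henselian [HenselianLocalRing O] [CharZero (IsLocalRing.ResidueField O)] :
    IsVF O.valuation (resMap O) := by
  have hin : ∀ x, O.valuation x ≤ 1 → x ∈ O := fun x hx => (O.valuation_le_one_iff x).1 hx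
  refine ⟨O.valuation_surjective, ?_, ?_, ?_, ?_, ?_, ?_, h2_of_henselian O, ?_⟩
  · intro x hx
    have : x ∉ O := fun h => absurd ((O.valuation_le_one_iff x).2 h) (not_le.2 hx)
    simp only [resMap, dif_neg this]
  · intro x y hx hy
    have h1 := hin x hx
    have h2 := hin y hy
    simp only [resMap, dif_pos h1, dif_pos h2, dif_pos (O.add_mem _ _ h1 h2)]
    rw [← map_add]
    rfl
  · intro x y hx hy
    have h1 := hin x hx
    have h2 := hin y hy
    simp only [resMap, dif_pos h1, dif_pos h2, dif_pos (O.mul_mem _ _ h1 h2)]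
    rw [← map_mul]
    rfl
  · simp only [resMap, dif_pos O.one_mem]
    exact map_one (IsLocalRing.residue O)
  · intro x hx
    have h1 := hin x hx
    simp only [resMap, dif_pos h1]
    rw [IsLocalRing.residue_eq_zero_iff, ValuationSubring.valuation_lt_one_iff]
  · intro α
    obtain ⟨x, hx⟩ := IsLocalRing.residue_surjective α
    refine ⟨x, O.valuation_le_one x, ?_⟩
    simp only [resMap, dif_pos x.2]
    exact hx
  · intro n hn
    have h1 : IsUnit ((n : ℕ) : O) := by
      by_contra hcon
      have h2 : ((n : ℕ) : O) ∈ IsLocalRing.maximalIdeal O := by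
        rw [IsLocalRing.mem_maximalIdeal]
        exact hcon
      rw [← IsLocalRing.residue_eq_zero_iff, map_natCast] at h2
      exact hn (Nat.cast_eq_zero.1 h2)
    have h3 := (O.valuation_eq_one_iff _).1 h1
    simpa using h3

end

section

variable {K Γ k : Type*} [Field K] [Field k] [LinearOrderedCommGroupWithZero Γ]

theorem exists_vfa {K : Type u} {k : Type w} {Γ : Type*} [Field K] [Field k]
    [LinearOrderedCommGroupWithZero Γ] {v : Valuation K Γ} {ρ : K → k} (h : IsVF v ρ) :
    ∃ ac : Ul K → Ul k, VFA (uv v) (ures ρ) ac := by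
  obtain ⟨ac, h1, h2, h3⟩ := exists_ac (isVF_ultra h) (satC_units k)
  exact ⟨ac, isVF_ultra h, h1, h2, h3, sat_ultra v⟩

end

/-! ### The game on residue fields -/

section

variable {k : Type u} {l : Type w} [Field k] [Field l]

instance : Countable RingCon := by
  apply Function.Injective.countable (f := fun c : RingCon => match c with | .zero => (0 : ℕ) | .one => 1)
  intro a b h
  cases a <;> cases b <;> simp_all

instance : Countable RingUn := by
  apply Function.Injective.countable (f := fun _ : RingUn => (0 : ℕ))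
  intro a b _
  cases a
  cases b
  rfl

instance : Countable RingBin := by
  apply Function.Injective.countable (f := fun c : RingBin => match c with | .add => (0 : ℕ) | .mul => 1)
  intro a b h
  cases a <;> cases b <;> simp_all

instance : Countable ringSig.con := inferInstanceAs (Countable RingCon)
instance : Countable ringSig.un := inferInstanceAs (Countable RingUn)
instance : Countable ringSig.bin := inferInstanceAs (Countable RingBin)
instance : Countable ringSig.rel := inferInstanceAs (Countable Empty)

theorem isoR_of_thle (X : Type) (a : X → Ul k) (b : X → Ul l)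
    (h : ThLe (ustr (ringStr k)) (ustr (ringStr l)) 0 a b) : IsoR (Set.range fun x => (a x, b x)) := by
  have h1 : ∀ p ∈ Subring.closure (Set.range fun x => (a x, b x)), ∃ t : Tm ringSig X,
      p = (t.eval (ustr (ringStr k)) a, t.eval (ustr (ringStr l)) b) := by
    intro p hp
    induction hp using Subring.closure_induction with
    | mem p hp =>
      obtain ⟨x, rfl⟩ := hp
      exact ⟨Tm.var x, rfl⟩
    | zero => exact ⟨Tm.con RingCon.zero, rfl⟩
    | one => exact ⟨Tm.con RingCon.one, rfl⟩
    | add p q _ _ ih1 ih2 =>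
      obtain ⟨s, rfl⟩ := ih1
      obtain ⟨t, rfl⟩ := ih2
      exact ⟨Tm.bin RingBin.add s t, rfl⟩
    | neg p _ ih =>
      obtain ⟨s, rfl⟩ := ih
      exact ⟨Tm.un RingUn.neg s, rfl⟩
    | mul p q _ _ ih1 ih2 =>
      obtain ⟨s, rfl⟩ := ih1
      obtain ⟨t, rfl⟩ := ih2
      exact ⟨Tm.bin RingBin.mul s t, rfl⟩
  intro p hp
  obtain ⟨t, rfl⟩ := h1 p hp
  constructor
  · intro h2
    exact h (QFm.eq t (Tm.con RingCon.zero)) h2
  · intro h2
    by_contra h3
    exact h (QFm.not (QFm.eq t (Tm.con RingCon.zero))) h3 h2

theorem game_R (n : ℕ) (h : (ringStr k).thy n ⊆ (ringStr l).thy n) :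
    Game (IsoR : Set (Ul k × Ul l) → Prop) n ∅ := by
  have h1 := thle_game (ringStr k) (ringStr l) IsoR isoR_of_thle n Empty _ _ (thle_of_thy _ _ n h)
  have h2 : (Set.range fun x : Empty => ((Empty.elim x : Ul k), (Empty.elim x : Ul l))) = ∅ :=
    Set.range_eq_empty _
  rw [← h2]
  exact h1

end

end Pool.Agent.P8H21.AKE
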