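import Pool.Agent.P8H21.AKE.Final

/-!
# The main theorem
-/

set_option autoImplicit false

namespace Pool.Agent.P8H21.AKE

open Filter

universe u w

/-! ### The game on value groups -/

section

variable {Γ : Type u} [LinearOrderedCommGroupWithZero Γ]

/-- The embedding of the ultrapower of the value group. -/
noncomputable def io (x : Ul Γˣ) : Ul Γ := Germ.map Units.val x

theorem io_coe (f : ℕ → Γˣ) : io (f : Ul Γˣ) = ((fun N => (f N : Γ) : ℕ → Γ) : Ul Γ) := rfl

theorem io_ne (x : Ul Γˣ) : io x ≠ 0 := by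
  obtain ⟨f, rfl⟩ := rep x
  rw [io_coe]
  intro h
  change _ = ((fun _ => 0 : ℕ → Γ) : Ul Γ) at h
  rw [Germ.coe_eq] at h
  obtain ⟨N, hN⟩ := h.exists
  exact (f N).ne_zero hN

theorem io_inj : Function.Injective (io : Ul Γˣ → Ul Γ) := by
  intro x y h
  obtain ⟨f, rfl⟩ := rep x
  obtain ⟨g, rfl⟩ := rep y
  rw [io_coe, io_coe, Germ.coe_eq] at h
  rw [Germ.coe_eq]
  filter_upwards [h] with N hN using Units.ext hN

theorem io_surj (x : Ul Γ) (hx : x ≠ 0) : ∃ y : Ul Γˣ, io y = x := by
  obtain ⟨f, rfl⟩ := rep x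
  have h1 : ∀ᶠ N in (UU : Filter ℕ), f N ≠ 0 := by
    apply Ultrafilter.eventually_not.2
    intro h
    apply hx
    change _ = ((fun _ => 0 : ℕ → Γ) : Ul Γ)
    rw [Germ.coe_eq]
    exact h
  refine ⟨((fun N => if h : f N = 0 then 1 else Units.mk0 (f N) h : ℕ → Γˣ) : Ul Γˣ), ?_⟩
  rw [io_coe, Germ.coe_eq]
  filter_upwards [h1] with N hN
  rw [dif_neg hN]
  rfl

theorem io_le (x y : Ul Γˣ) : io x ≤ io y ↔ (ustr (grpStr Γ)).rel GrpRel.le y x := by
  obtain ⟨f, rfl⟩ := rep x
  obtain ⟨g, rfl⟩ := rep y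
  rw [io_coe, io_coe, Germ.coe_le]
  rfl

theorem io_mul (x y : Ul Γˣ) : io ((ustr (grpStr Γ)).bin GrpBin.add x y) = io x * io y := by
  obtain ⟨f, rfl⟩ := rep x
  obtain ⟨g, rfl⟩ := rep y
  rfl

theorem io_inv (x : Ul Γˣ) : io ((ustr (grpStr Γ)).un GrpUn.neg x) = (io x)⁻¹ := by
  obtain ⟨f, rfl⟩ := rep x
  change ((fun N => ((f N)⁻¹ : Γˣ).val : ℕ → Γ) : Ul Γ) = ((fun N => ((f N : Γ))⁻¹ : ℕ → Γ) : Ul Γ)
  congr 1
  funext N
  exact Units.val_inv_eq_inv_val _

end

section

variable {Γ : Type u} {Δ : Type w} [LinearOrderedCommGroupWithZero Γ] [LinearOrderedCommGroupWithZero Δ]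

/-- The pairs of values, with infinity. -/
def liftV (P : Set (Ul Γˣ × Ul Δˣ)) : Set (Ul Γ × Ul Δ) := {(0, 0)} ∪ (fun p => (io p.1, io p.2)) '' P

theorem isoV_of_thle (X : Type) (a : X → Ul Γˣ) (b : X → Ul Δˣ)
    (h : ThLe (ustr (grpStr Γ)) (ustr (grpStr Δ)) 0 a b) : IsoV (liftV (Set.range fun x => (a x, b x))) := by
  have h1 : ∀ p, ClV (liftV (Set.range fun x => (a x, b x))) p → p = (0, 0) ∨ ∃ t : Tm grpSig X,
      p = (io (t.eval (ustr (grpStr Γ)) a), io (t.eval (ustr (grpStr Δ)) b)) := by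
    intro p hp
    induction hp with
    | base p hp =>
      rcases hp with hp | ⟨_, ⟨x, rfl⟩, rfl⟩
      · exact Or.inl hp
      · exact Or.inr ⟨Tm.var x, rfl⟩
    | zero => exact Or.inl rfl
    | one => exact Or.inr ⟨Tm.con GrpCon.zero, rfl⟩
    | mul p q _ _ ih1 ih2 =>
      rcases ih1 with rfl | ⟨s, rfl⟩
      · left
        exact Prod.ext (zero_mul _) (zero_mul _)
      · rcases ih2 with rfl | ⟨t, rfl⟩
        · left
          exact Prod.ext (mul_zero _) (mul_zero _)
        · right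
          refine ⟨Tm.bin GrpBin.add s t, Prod.ext ?_ ?_⟩
          · exact (io_mul _ _).symm
          · exact (io_mul _ _).symm
    | inv p _ ih =>
      rcases ih with rfl | ⟨s, rfl⟩
      · left
        exact Prod.ext inv_zero inv_zero
      · right
        refine ⟨Tm.un GrpUn.neg s, Prod.ext ?_ ?_⟩
        · exact (io_inv _).symm
        · exact (io_inv _).symm
  intro p q hp hq
  rcases h1 p hp with rfl | ⟨s, rfl⟩
  · exact ⟨fun _ => zero_le, fun _ => zero_le⟩
  rcases h1 q hq with rfl | ⟨t, rfl⟩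
  · simp only [le_zero_iff]
    exact ⟨fun h2 => absurd h2 (io_ne _), fun h2 => absurd h2 (io_ne _)⟩
  simp only [io_le]
  constructor
  · intro h2
    exact h (QFm.rel GrpRel.le t s) h2
  · intro h2
    by_contra h3
    exact h (QFm.not (QFm.rel GrpRel.le t s)) h3 h2

theorem game_lift (n : ℕ) (P : Set (Ul Γˣ × Ul Δˣ)) (h : Game (fun P => IsoV (liftV P)) n P) :
    Game IsoV n (liftV P) := by
  induction n generalizing P with
  | zero => exact h
  | succ n ih =>
    unfold Game at h ⊢
    split_ifs at h ⊢ with hn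
    · intro C hC
      obtain ⟨P', h1, h2, h3, h4⟩ := h (io ⁻¹' C) (hC.preimage io_inj)
      refine ⟨liftV P', ?_, ?_, ?_, ih P' h4⟩
      · exact Set.union_subset_union_right _ (Set.image_mono h1)
      · exact (Set.countable_singleton _).union (h2.image _)
      · intro c hc
        by_cases h0 : c = 0
        · exact ⟨0, Or.inl (by rw [h0]; rfl)⟩
        · obtain ⟨x, rfl⟩ := io_surj c h0
          obtain ⟨d, hd⟩ := h3 x hc
          exact ⟨io d, Or.inr ⟨(x, d), hd, rfl⟩⟩
    · intro D hD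
      obtain ⟨P', h1, h2, h3, h4⟩ := h (io ⁻¹' D) (hD.preimage io_inj)
      refine ⟨liftV P', ?_, ?_, ?_, ih P' h4⟩
      · exact Set.union_subset_union_right _ (Set.image_mono h1)
      · exact (Set.countable_singleton _).union (h2.image _)
      · intro c hc
        by_cases h0 : c = 0
        · exact ⟨0, Or.inl (by rw [h0]; rfl)⟩
        · obtain ⟨x, rfl⟩ := io_surj c h0
          obtain ⟨d, hd⟩ := h3 x hc
          exact ⟨io d, Or.inr ⟨(d, x), hd, rfl⟩⟩

instance : Countable grpSig.con := by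
  change Countable GrpCon
  apply Function.Injective.countable (f := fun _ : GrpCon => (0 : ℕ))
  intro a b _
  cases a
  cases b
  rfl

instance : Countable grpSig.un := by
  change Countable GrpUn
  apply Function.Injective.countable (f := fun _ : GrpUn => (0 : ℕ))
  intro a b _
  cases a
  cases b
  rfl

instance : Countable grpSig.bin := by
  change Countable GrpBin
  apply Function.Injective.countable (f := fun _ : GrpBin => (0 : ℕ))
  intro a b _
  cases a
  cases b
  rfl

instance : Countable grpSig.rel := by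
  change Countable GrpRel
  apply Function.Injective.countable (f := fun _ : GrpRel => (0 : ℕ))
  intro a b _
  cases a
  cases b
  rfl

theorem game_V (n : ℕ) (h : (grpStr Γ).thy n ⊆ (grpStr Δ).thy n) :
    Game (IsoV : Set (Ul Γ × Ul Δ) → Prop) n (liftV ∅) := by
  have h1 := thle_game (grpStr Γ) (grpStr Δ) (fun P => IsoV (liftV P)) isoV_of_thle n Empty _ _
    (thle_of_thy _ _ n h)
  have h2 : (Set.range fun x : Empty => ((Empty.elim x : Ul Γˣ), (Empty.elim x : Ul Δˣ))) = ∅ :=
    Set.range_eq_empty _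
  rw [← h2]
  exact game_lift n _ h1

end

/-! ### The first position -/

section

variable {K Γ k : Type*} [Field K] [Field k] [LinearOrderedCommGroupWithZero Γ] {v : Valuation K Γ} {ρ : K → k}

theorem v_int (v : Valuation K Γ) (m : ℤ) : v (m : K) ≤ 1 := by
  obtain ⟨n, rfl | rfl⟩ := m.eq_nat_or_neg
  · rw [Int.cast_natCast]
    exact v_nat v n
  · rw [Int.cast_neg, Valuation.map_neg, Int.cast_natCast]
    exact v_nat v n

theorem vf_zero (h : IsVF v ρ) : ρ 0 = 0 := (h.zero_iff 0 (by simp)).2 (by simp)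

theorem vf_int (h : IsVF v ρ) (m : ℤ) : ρ (m : K) = (m : k) := by
  induction m using Int.induction_on with
  | zero => simp [vf_zero h]
  | succ n ih =>
    rw [Int.cast_add, Int.cast_one, h.add _ _ (v_int v _) (by simp), ih, h.one, Int.cast_add, Int.cast_one]
  | pred n ih =>
    have h1 : ((-(n : ℤ) : ℤ) : K) = ((-(n : ℤ) - 1 : ℤ) : K) + 1 := by push_cast; ring
    rw [h1, h.add _ _ (v_int v _) (by simp), h.one] at ih
    have h2 : ρ ((-(n : ℤ) - 1 : ℤ) : K) = ((-(n : ℤ) : ℤ) : k) - 1 := eq_sub_of_add_eq ih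
    rw [h2]
    push_cast
    ring

theorem vf_int_one (h : IsVF v ρ) (m : ℤ) (hm : m ≠ 0) : v (m : K) = 1 := by
  obtain ⟨n, rfl | rfl⟩ := m.eq_nat_or_neg
  · rw [Int.cast_natCast]
    exact h.char n (by simpa using hm)
  · rw [Int.cast_neg, Valuation.map_neg, Int.cast_natCast]
    exact h.char n (by simpa using hm)

end

section

variable {K L Γ Δ k l : Type*} [Field K] [Field L] [Field k] [Field l] [LinearOrderedCommGroupWithZero Γ]
    [LinearOrderedCommGroupWithZero Δ] {v : Valuation K Γ} {w : Valuation L Δ} {ρ ac : K → k} {ρ' ac' : L → l}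

theorem first_inv (hK : VFA v ρ ac) (hL : VFA w ρ' ac') (n : ℕ) (QR : Set (k × l)) (QV : Set (Γ × Δ))
    (hR : Game IsoR n QR) (hV : Game IsoV n QV) : Inv v w ac ac' n ⊥ QR QV := by
  refine ⟨?_, hR, hV, ?_, ?_⟩
  · rw [Subring.coe_bot]
    exact Set.countable_range _
  · intro p hp
    rw [Subring.mem_bot] at hp
    obtain ⟨m, rfl⟩ := hp
    by_cases hm : m = 0
    · subst hm
      simp only [Int.cast_zero, Prod.fst_zero, Prod.snd_zero, map_zero]
      exact ClV.zero
    · rw [Prod.fst_intCast, Prod.snd_intCast, vf_int_one hK.vf m hm, vf_int_one hL.vf m hm]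
      exact ClV.one
  · intro p hp
    rw [Subring.mem_bot] at hp
    obtain ⟨m, rfl⟩ := hp
    by_cases hm : m = 0
    · subst hm
      simp only [Int.cast_zero, Prod.fst_zero, Prod.snd_zero, hK.isac.zero, hL.isac.zero]
      exact Subring.zero_mem _
    · rw [Prod.fst_intCast, Prod.snd_intCast, hK.hu _ (vf_int_one hK.vf m hm),
        hL.hu _ (vf_int_one hL.vf m hm), vf_int hK.vf, vf_int hL.vf]
      have h1 : (((m : k), (m : l)) : k × l) = (m : k × l) := rfl
      rw [h1]
      exact intCast_mem _ m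

end

theorem main {K : Type u} {L : Type w} [Field K] [Field L] (O : ValuationSubring K) (O' : ValuationSubring L)
    [HenselianLocalRing O] [HenselianLocalRing O'] [CharZero (IsLocalRing.ResidueField O)]
    [CharZero (IsLocalRing.ResidueField O')] (n : ℕ)
    (hres : (ringStr (IsLocalRing.ResidueField O)).thy n ⊆ (ringStr (IsLocalRing.ResidueField O')).thy n)
    (hval : (grpStr O.ValueGroup).thy n ⊆ (grpStr O'.ValueGroup).thy n) : vfThy O n ⊆ vfThy O' n := by
  intro φ hφ
  obtain ⟨ac, hK⟩ := exists_vfa (isVF_of_henselian O)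
  obtain ⟨ac', hL⟩ := exists_vfa (isVF_of_henselian O')
  have hI := first_inv hK hL n ∅ (liftV ∅) (game_R n hres) (game_V n hval)
  have h1 := (los_sentence O.valuation (resMap O) n φ).2 hφ
  have h2 := transfer hK hL n ⊥ ∅ (liftV ∅) hI Empty.elim Empty.elim Empty.elim Empty.elim Empty.elim Empty.elim
    (fun i => i.elim) (fun i => i.elim) (fun i => i.elim) φ h1
  exact (los_sentence O'.valuation (resMap O') n φ).1 h2

end Pool.Agent.P8H21.AKE
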