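import Mathlib

/-!
# One-sorted languages and their standard fragments

A signature has constants, unary operations, binary operations and binary relations.
-/

set_option autoImplicit false

namespace Pool.Agent.P8H21.AKE

universe u

/-- A signature: the types of the constants, of the unary and of the binary operations, and of the binary
relations. -/
structure Sig where
  /-- the constants -/
  con : Type
  /-- the unary operations -/
  un : Type
  /-- the binary operations -/
  bin : Type
  /-- the binary relations -/
  rel : Type

/-- Terms with variables in `X`. -/
inductive Tm (S : Sig) (X : Type) : Type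
  /-- a variable -/
  | var (x : X)
  /-- a constant -/
  | con (c : S.con)
  /-- a unary operation -/
  | un (f : S.un) (t : Tm S X)
  /-- a binary operation -/
  | bin (f : S.bin) (s t : Tm S X)

/-- Quantifier-free formulas with variables in `X`. -/
inductive QFm (S : Sig) (X : Type) : Type
  /-- an equation -/
  | eq (s t : Tm S X)
  /-- a relation between two terms -/
  | rel (r : S.rel) (s t : Tm S X)
  /-- negation -/
  | not (φ : QFm S X)
  /-- conjunction -/
  | and (φ ψ : QFm S X)
  /-- disjunction -/
  | or (φ ψ : QFm S X)

/-- The formulas with `n` alternating blocks of quantifiers, the last one existential, in front of a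
quantifier-free formula. The blocks may be empty. -/
def Fr (S : Sig) : ℕ → Type → Type
  | 0, X => QFm S X
  | n + 1, X => Σ a : ℕ, Fr S n (X ⊕ Fin a)

/-- A structure for the signature `S` on the set `M`. -/
structure Str (S : Sig) (M : Type u) where
  /-- the constants -/
  con : S.con → M
  /-- the unary operations -/
  un : S.un → M → M
  /-- the binary operations -/
  bin : S.bin → M → M → M
  /-- the binary relations -/
  rel : S.rel → M → M → Prop

section

variable {S : Sig} {M : Type u} (I : Str S M) {X : Type}

/-- The value of a term. -/
def Tm.eval (e : X → M) : Tm S X → M
  | var x => e x
  | con c => I.con c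
  | un f t => I.un f (t.eval e)
  | bin f s t => I.bin f (s.eval e) (t.eval e)

/-- Truth of a quantifier-free formula. -/
def QFm.Holds (e : X → M) : QFm S X → Prop
  | eq s t => s.eval I e = t.eval I e
  | rel r s t => I.rel r (s.eval I e) (t.eval I e)
  | not φ => ¬ φ.Holds e
  | and φ ψ => φ.Holds e ∧ ψ.Holds e
  | or φ ψ => φ.Holds e ∨ ψ.Holds e

/-- Truth of a formula: the `n`-th block, counted from the inside, is existential if `n` is odd and universal if
`n` is even. -/
def Fr.Holds : (n : ℕ) → {X : Type} → Fr S n X → (X → M) → Prop
  | 0, _, φ, e => QFm.Holds I e φ
  | n + 1, _, ⟨a, φ⟩, e =>
    if Odd (n + 1) then ∃ y : Fin a → M, Fr.Holds n φ (Sum.elim e y)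
    else ∀ y : Fin a → M, Fr.Holds n φ (Sum.elim e y)

/-- The set of the sentences with `n` alternating blocks of quantifiers, the last one existential, which are true
in the structure `I`. -/
def Str.thy (n : ℕ) : Set (Fr S n Empty) := {φ | Fr.Holds I n φ Empty.elim}

end

/-! ### Rings -/

/-- The constants of the language of rings. -/
inductive RingCon : Type
  | zero | one

/-- The unary operation of the language of rings. -/
inductive RingUn : Type
  | neg

/-- The binary operations of the language of rings. -/
inductive RingBin : Type
  | add | mul

/-- The language of rings. -/
def ringSig : Sig := ⟨RingCon, RingUn, RingBin, Empty⟩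

/-- A ring as a structure for the language of rings. -/
def ringStr (k : Type u) [Ring k] : Str ringSig k where
  con c := match c with
    | RingCon.zero => (0 : k)
    | RingCon.one => (1 : k)
  un _ x := -x
  bin f x y := match f with
    | RingBin.add => x + y
    | RingBin.mul => x * y
  rel r := r.elim

/-! ### Ordered abelian groups -/

/-- The constant of the language of ordered abelian groups. -/
inductive GrpCon : Type
  | zero

/-- The unary operation of the language of ordered abelian groups. -/
inductive GrpUn : Type
  | neg

/-- The binary operation of the language of ordered abelian groups. -/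
inductive GrpBin : Type
  | add

/-- The binary relation of the language of ordered abelian groups. -/
inductive GrpRel : Type
  | le

/-- The language of ordered abelian groups. -/
def grpSig : Sig := ⟨GrpCon, GrpUn, GrpBin, GrpRel⟩

/-- The ordered abelian group of a valuation `v : Valuation K Γ` with values in `Γ`. Mathlib writes it
multiplicatively, adds a smallest element `0` for infinity, and uses the reverse order; its elements are the units
of `Γ`. -/
def grpStr (Γ : Type u) [LinearOrderedCommGroupWithZero Γ] : Str grpSig Γˣ where
  con _ := 1
  un _ x := x⁻¹
  bin _ x y := x * y
  rel _ x y := (y : Γ) ≤ (x : Γ)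

end Pool.Agent.P8H21.AKE
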