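import Pool.Agent.P8H21.AKE.Ultra
import Pool.Agent.P8H21.AKE.Lang1

/-!
# Fragments of theories and games with countable moves in ultrapowers
-/

set_option autoImplicit false

namespace Pool.Agent.P8H21.AKE

open Filter

universe u w

section

variable {S : Sig}

/-- Renaming of variables. -/
def Tm.map {X Y : Type} (f : X → Y) : Tm S X → Tm S Y
  | var x => var (f x)
  | con c => con c
  | un g t => un g (t.map f)
  | bin g s t => bin g (s.map f) (t.map f)

/-- Renaming of variables. -/
def QFm.map {X Y : Type} (f : X → Y) : QFm S X → QFm S Y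
  | eq s t => eq (s.map f) (t.map f)
  | rel r s t => rel r (s.map f) (t.map f)
  | not φ => not (φ.map f)
  | and φ ψ => and (φ.map f) (ψ.map f)
  | or φ ψ => or (φ.map f) (ψ.map f)

/-- Renaming of variables. -/
def Fr.map : (n : ℕ) → {X Y : Type} → (X → Y) → Fr S n X → Fr S n Y
  | 0, _, _, f, φ => QFm.map f φ
  | n + 1, _, _, f, ⟨a, φ⟩ => ⟨a, Fr.map n (Sum.map f id) φ⟩

/-- The variables. -/
def Tm.vars {X : Type} : Tm S X → List X
  | var x => [x]
  | con _ => []
  | un _ t => t.vars
  | bin _ s t => s.vars ++ t.vars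

/-- The variables. -/
def QFm.vars {X : Type} : QFm S X → List X
  | eq s t => s.vars ++ t.vars
  | rel _ s t => s.vars ++ t.vars
  | not φ => φ.vars
  | and φ ψ => φ.vars ++ ψ.vars
  | or φ ψ => φ.vars ++ ψ.vars

/-- The free variables. -/
def Fr.vars : (n : ℕ) → {X : Type} → Fr S n X → List X
  | 0, _, φ => QFm.vars φ
  | n + 1, _, ⟨_, φ⟩ => (Fr.vars n φ).filterMap (Sum.elim some (fun _ => none))

variable {M : Type u} (I : Str S M)

theorem Tm.eval_map {X Y : Type} (f : X → Y) (t : Tm S X) (e : Y → M) :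
    (t.map f).eval I e = t.eval I (e ∘ f) := by
  induction t with
  | var x => rfl
  | con c => rfl
  | un g t ih => simp [Tm.map, Tm.eval, ih]
  | bin g s t ih1 ih2 => simp [Tm.map, Tm.eval, ih1, ih2]

theorem QFm.holds_map {X Y : Type} (f : X → Y) (φ : QFm S X) (e : Y → M) :
    (φ.map f).Holds I e ↔ φ.Holds I (e ∘ f) := by
  induction φ with
  | eq s t => simp [QFm.map, QFm.Holds, Tm.eval_map]
  | rel r s t => simp [QFm.map, QFm.Holds, Tm.eval_map]
  | not φ ih => simp [QFm.map, QFm.Holds, ih]
  | and φ ψ ih1 ih2 => simp [QFm.map, QFm.Holds, ih1, ih2]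
  | or φ ψ ih1 ih2 => simp [QFm.map, QFm.Holds, ih1, ih2]

theorem Fr.holds_map (n : ℕ) {X Y : Type} (f : X → Y) (φ : Fr S n X) (e : Y → M) :
    Fr.Holds I n (Fr.map n f φ) e ↔ Fr.Holds I n φ (e ∘ f) := by
  induction n generalizing X Y with
  | zero => exact QFm.holds_map I f φ e
  | succ n ih =>
    obtain ⟨a, φ⟩ := φ
    have h1 : ∀ y : Fin a → M, Sum.elim e y ∘ Sum.map f id = Sum.elim (e ∘ f) y := by
      intro y
      funext z
      cases z <;> rfl
    simp only [Fr.map, Fr.Holds, ih, h1]

theorem Tm.eval_congr {X : Type} (t : Tm S X) (e e' : X → M) (h : ∀ x ∈ t.vars, e x = e' x) :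
    t.eval I e = t.eval I e' := by
  induction t with
  | var x => exact h x (by simp [Tm.vars])
  | con c => rfl
  | un g t ih => simp [Tm.eval, ih h]
  | bin g s t ih1 ih2 =>
    simp only [Tm.vars, List.mem_append] at h
    simp [Tm.eval, ih1 (fun x hx => h x (Or.inl hx)), ih2 (fun x hx => h x (Or.inr hx))]

theorem QFm.holds_congr {X : Type} (φ : QFm S X) (e e' : X → M) (h : ∀ x ∈ φ.vars, e x = e' x) :
    φ.Holds I e ↔ φ.Holds I e' := by
  induction φ with
  | eq s t =>
    simp only [QFm.vars, List.mem_append] at h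
    simp only [QFm.Holds, Tm.eval_congr I s e e' (fun x hx => h x (Or.inl hx)),
      Tm.eval_congr I t e e' (fun x hx => h x (Or.inr hx))]
  | rel r s t =>
    simp only [QFm.vars, List.mem_append] at h
    simp only [QFm.Holds, Tm.eval_congr I s e e' (fun x hx => h x (Or.inl hx)),
      Tm.eval_congr I t e e' (fun x hx => h x (Or.inr hx))]
  | not φ ih => simp only [QFm.Holds, ih h]
  | and φ ψ ih1 ih2 =>
    simp only [QFm.vars, List.mem_append] at h
    simp only [QFm.Holds, ih1 (fun x hx => h x (Or.inl hx)), ih2 (fun x hx => h x (Or.inr hx))]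
  | or φ ψ ih1 ih2 =>
    simp only [QFm.vars, List.mem_append] at h
    simp only [QFm.Holds, ih1 (fun x hx => h x (Or.inl hx)), ih2 (fun x hx => h x (Or.inr hx))]

theorem Fr.holds_congr (n : ℕ) {X : Type} (φ : Fr S n X) (e e' : X → M) (h : ∀ x ∈ Fr.vars n φ, e x = e' x) :
    Fr.Holds I n φ e ↔ Fr.Holds I n φ e' := by
  induction n generalizing X with
  | zero => exact QFm.holds_congr I φ e e' h
  | succ n ih =>
    obtain ⟨a, φ⟩ := φ
    have h1 : ∀ y : Fin a → M, Fr.Holds I n φ (Sum.elim e y) ↔ Fr.Holds I n φ (Sum.elim e' y) := by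
      intro y
      apply ih
      rintro (x | x) hx
      · apply h
        simp only [Fr.vars, List.mem_filterMap]
        exact ⟨Sum.inl x, hx, rfl⟩
      · rfl
    simp only [Fr.Holds, h1]

/-- Truncation of the variables. -/
def trunc (p : ℕ) {X : Type} : X ⊕ ℕ → X ⊕ Fin (p + 1) :=
  Sum.map id (fun k => ⟨min k p, by omega⟩)

theorem exists_bound (n : ℕ) {X : Type} (φ : Fr S n (X ⊕ ℕ)) : ∃ p : ℕ, ∀ k, Sum.inr k ∈ Fr.vars n φ → k ≤ p := by
  have h : ∀ l : List (X ⊕ ℕ), ∃ p : ℕ, ∀ k, Sum.inr k ∈ l → k ≤ p := by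
    intro l
    induction l with
    | nil => exact ⟨0, fun k hk => by simp at hk⟩
    | cons z l ih =>
      obtain ⟨p, hp⟩ := ih
      cases z with
      | inl x => exact ⟨p, fun k hk => hp k (by simpa using hk)⟩
      | inr m =>
        refine ⟨max m p, fun k hk => ?_⟩
        simp only [List.mem_cons, Sum.inr.injEq] at hk
        rcases hk with rfl | hk
        · exact le_max_left _ _
        · exact (hp k hk).trans (le_max_right _ _)
  exact h _

theorem holds_trunc (n : ℕ) {X : Type} (φ : Fr S n (X ⊕ ℕ)) (p : ℕ) (hp : ∀ k, Sum.inr k ∈ Fr.vars n φ → k ≤ p)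
    (e : X → M) (y : ℕ → M) (y' : Fin (p + 1) → M) (hy : ∀ j : Fin (p + 1), y j = y' j) :
    Fr.Holds I n φ (Sum.elim e y) ↔ Fr.Holds I n (Fr.map n (trunc p) φ) (Sum.elim e y') := by
  rw [Fr.holds_map]
  apply Fr.holds_congr
  rintro (x | k) hk
  · rfl
  · have h1 := hp k hk
    simp only [Sum.elim_inr, Function.comp_apply, trunc, Sum.map_inr]
    rw [← hy]
    simp [min_eq_left h1]

/-- Conjunctions and disjunctions. -/
def Fr.comb (c : Bool) : (n : ℕ) → {X : Type} → Fr S n X → Fr S n X → Fr S n X
  | 0, _, φ, ψ => if c then QFm.and φ ψ else QFm.or φ ψ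
  | n + 1, _, ⟨p, φ⟩, ⟨q, ψ⟩ =>
    ⟨p + q, Fr.comb c n (Fr.map n (Sum.map id (Fin.castAdd q)) φ) (Fr.map n (Sum.map id (Fin.natAdd p)) ψ)⟩

theorem Fr.holds_comb [Nonempty M] (c : Bool) (n : ℕ) {X : Type} (φ ψ : Fr S n X) (e : X → M) :
    Fr.Holds I n (Fr.comb c n φ ψ) e ↔
      (if c then Fr.Holds I n φ e ∧ Fr.Holds I n ψ e else Fr.Holds I n φ e ∨ Fr.Holds I n ψ e) := by
  induction n generalizing X with
  | zero => cases c <;> rfl
  | succ n ih =>
    obtain ⟨p, φ⟩ := φ
    obtain ⟨q, ψ⟩ := ψ
    have h1 : ∀ z : Fin (p + q) → M, Sum.elim e z ∘ Sum.map id (Fin.castAdd q) = Sum.elim e (z ∘ Fin.castAdd q) := by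
      intro z
      funext t
      cases t <;> rfl
    have h2 : ∀ z : Fin (p + q) → M, Sum.elim e z ∘ Sum.map id (Fin.natAdd p) = Sum.elim e (z ∘ Fin.natAdd p) := by
      intro z
      funext t
      cases t <;> rfl
    have ha1 : ∀ (y : Fin p → M) (y' : Fin q → M), Fin.append y y' ∘ Fin.castAdd q = y := by
      intro y y'
      funext t
      simp
    have ha2 : ∀ (y : Fin p → M) (y' : Fin q → M), Fin.append y y' ∘ Fin.natAdd p = y' := by
      intro y y'
      funext t
      simp
    have d1 : Nonempty (Fin p → M) := inferInstance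
    have d2 : Nonempty (Fin q → M) := inferInstance
    obtain ⟨d1⟩ := d1
    obtain ⟨d2⟩ := d2
    simp only [Fr.comb, Fr.Holds, ih, Fr.holds_map, h1, h2]
    cases c
    · simp only [Bool.false_eq_true, if_false]
      split_ifs
      · constructor
        · rintro ⟨z, hz | hz⟩
          · exact Or.inl ⟨_, hz⟩
          · exact Or.inr ⟨_, hz⟩
        · rintro (⟨y, hy⟩ | ⟨y, hy⟩)
          · exact ⟨Fin.append y d2, Or.inl (by rw [ha1]; exact hy)⟩
          · exact ⟨Fin.append d1 y, Or.inr (by rw [ha2]; exact hy)⟩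
      · constructor
        · intro h
          by_contra hcon
          push Not at hcon
          obtain ⟨⟨y, hy⟩, ⟨y', hy'⟩⟩ := hcon
          have := h (Fin.append y y')
          rw [ha1, ha2] at this
          rcases this with h3 | h3
          · exact hy h3
          · exact hy' h3
        · rintro (h | h) z
          · exact Or.inl (h _)
          · exact Or.inr (h _)
    · simp only [if_true]
      split_ifs
      · constructor
        · rintro ⟨z, hz1, hz2⟩
          exact ⟨⟨_, hz1⟩, ⟨_, hz2⟩⟩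
        · rintro ⟨⟨y, hy⟩, ⟨y', hy'⟩⟩
          exact ⟨Fin.append y y', by rw [ha1]; exact hy, by rw [ha2]; exact hy'⟩
      · constructor
        · intro h
          refine ⟨fun y => ?_, fun y => ?_⟩
          · have := (h (Fin.append y d2)).1
            rwa [ha1] at this
          · have := (h (Fin.append d1 y)).2
            rwa [ha2] at this
        · rintro ⟨h, h'⟩ z
          exact ⟨h _, h' _⟩

/-- Iterated conjunctions and disjunctions. -/
def Fr.combL (c : Bool) (n : ℕ) {X : Type} (φ : ℕ → Fr S n X) : ℕ → Fr S n X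
  | 0 => φ 0
  | m + 1 => Fr.comb c n (Fr.combL c n φ m) (φ (m + 1))

theorem holds_combL_true [Nonempty M] (n : ℕ) {X : Type} (φ : ℕ → Fr S n X) (m : ℕ) (e : X → M) :
    Fr.Holds I n (Fr.combL true n φ m) e ↔ ∀ j ≤ m, Fr.Holds I n (φ j) e := by
  induction m with
  | zero => simp [Fr.combL]
  | succ m ih =>
    rw [Fr.combL, Fr.holds_comb, if_pos rfl, ih]
    constructor
    · rintro ⟨h1, h2⟩ j hj
      rcases Nat.lt_or_ge m j with h | h
      · have : j = m + 1 := by omega
        rw [this]
        exact h2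
      · exact h1 j h
    · intro h
      exact ⟨fun j hj => h j (by omega), h (m + 1) le_rfl⟩

theorem holds_combL_false [Nonempty M] (n : ℕ) {X : Type} (φ : ℕ → Fr S n X) (m : ℕ) (e : X → M) :
    Fr.Holds I n (Fr.combL false n φ m) e ↔ ∃ j ≤ m, Fr.Holds I n (φ j) e := by
  induction m with
  | zero => simp [Fr.combL]
  | succ m ih =>
    rw [Fr.combL, Fr.holds_comb, if_neg (by simp), ih]
    constructor
    · rintro (⟨j, hj, h1⟩ | h2)
      · exact ⟨j, by omega, h1⟩
      · exact ⟨m + 1, le_rfl, h2⟩
    · rintro ⟨j, hj, h⟩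
      rcases Nat.lt_or_ge m j with h' | h'
      · have : j = m + 1 := by omega
        rw [this] at h
        exact Or.inr h
      · exact Or.inl ⟨j, h', h⟩

/-! ### The theorem of Los -/

/-- The ultrapower of a structure. -/
noncomputable def ustr : Str S (Ul M) where
  con c := ((fun _ => I.con c : ℕ → M) : Ul M)
  un f := Germ.map (I.un f)
  bin f := Germ.map₂ (I.bin f)
  rel r := Germ.LiftRel (I.rel r)

theorem los_tm {X : Type} (t : Tm S X) (a : X → ℕ → M) :
    t.eval (ustr I) (fun x => (a x : Ul M)) = ((fun N => t.eval I (fun x => a x N) : ℕ → M) : Ul M) := by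
  induction t with
  | var x => rfl
  | con c => rfl
  | un g t ih =>
    simp only [Tm.eval]
    rw [ih]
    rfl
  | bin g s t ih1 ih2 =>
    simp only [Tm.eval]
    rw [ih1, ih2]
    rfl

theorem los_qf {X : Type} (φ : QFm S X) (a : X → ℕ → M) :
    φ.Holds (ustr I) (fun x => (a x : Ul M)) ↔ ∀ᶠ N in (UU : Filter ℕ), φ.Holds I (fun x => a x N) := by
  induction φ with
  | eq s t =>
    simp only [QFm.Holds]
    rw [los_tm, los_tm, Germ.coe_eq]
    rfl
  | rel r s t =>
    simp only [QFm.Holds]
    rw [los_tm, los_tm]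
    rfl
  | not φ ih =>
    simp only [QFm.Holds]
    rw [ih, Ultrafilter.eventually_not]
  | and φ ψ ih1 ih2 =>
    simp only [QFm.Holds]
    rw [ih1, ih2, eventually_and]
  | or φ ψ ih1 ih2 =>
    simp only [QFm.Holds]
    rw [ih1, ih2, Ultrafilter.eventually_or]

theorem los_fr [Nonempty M] (n : ℕ) {X : Type} (φ : Fr S n X) (a : X → ℕ → M) :
    Fr.Holds (ustr I) n φ (fun x => (a x : Ul M)) ↔
      ∀ᶠ N in (UU : Filter ℕ), Fr.Holds I n φ (fun x => a x N) := by
  induction n generalizing X with
  | zero => exact los_qf I φ a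
  | succ n ih =>
    obtain ⟨p, φ⟩ := φ
    have h1 : ∀ y : Fin p → ℕ → M, Fr.Holds (ustr I) n φ (Sum.elim (fun x => (a x : Ul M)) (fun j => (y j : Ul M))) ↔
        ∀ᶠ N in (UU : Filter ℕ), Fr.Holds I n φ (Sum.elim (fun x => a x N) (fun j => y j N)) := by
      intro y
      have h2 : (Sum.elim (fun x => (a x : Ul M)) (fun j => (y j : Ul M))) =
          fun z => ((Sum.elim a y z : ℕ → M) : Ul M) := by
        funext z
        cases z <;> rfl
      have h3 : ∀ N, (Sum.elim (fun x => a x N) (fun j => y j N)) = fun z => (Sum.elim a y z : ℕ → M) N := by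
        intro N
        funext z
        cases z <;> rfl
      rw [h2, ih]
      simp only [h3]
    simp only [Fr.Holds]
    split_ifs with hn
    · constructor
      · rintro ⟨y, hy⟩
        choose y' hy' using fun j => rep (y j)
        have h4 : y = fun j => (y' j : Ul M) := by funext j; exact (hy' j).symm
        rw [h4, h1] at hy
        filter_upwards [hy] with N hN
        exact ⟨_, hN⟩
      · intro h
        have h5 : ∀ N, ∃ y : Fin p → M, (∃ y : Fin p → M, Fr.Holds I n φ (Sum.elim (fun x => a x N) y)) →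
            Fr.Holds I n φ (Sum.elim (fun x => a x N) y) := by
          intro N
          by_cases hN : ∃ y : Fin p → M, Fr.Holds I n φ (Sum.elim (fun x => a x N) y)
          · exact ⟨hN.choose, fun _ => hN.choose_spec⟩
          · exact ⟨Classical.arbitrary _, fun h => absurd h hN⟩
        choose y hy using h5
        refine ⟨fun j => ((fun N => y N j : ℕ → M) : Ul M), ?_⟩
        rw [h1]
        filter_upwards [h] with N hN
        exact hy N hN
    · constructor
      · intro h
        by_contra hcon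
        rw [← Ultrafilter.eventually_not] at hcon
        have h5 : ∀ N, ∃ y : Fin p → M, (¬ ∀ y : Fin p → M, Fr.Holds I n φ (Sum.elim (fun x => a x N) y)) →
            ¬ Fr.Holds I n φ (Sum.elim (fun x => a x N) y) := by
          intro N
          by_cases hN : ∀ y : Fin p → M, Fr.Holds I n φ (Sum.elim (fun x => a x N) y)
          · exact ⟨Classical.arbitrary _, fun h => absurd hN h⟩
          · push Not at hN
            exact ⟨hN.choose, fun _ => hN.choose_spec⟩
        choose y hy using h5
        have h6 := h (fun j => ((fun N => y N j : ℕ → M) : Ul M))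
        rw [h1] at h6
        obtain ⟨N, hN1, hN2⟩ := (h6.and hcon).exists
        exact hy N hN2 hN1
      · intro h y
        choose y' hy' using fun j => rep (y j)
        have h4 : y = fun j => (y' j : Ul M) := by funext j; exact (hy' j).symm
        rw [h4, h1]
        filter_upwards [h] with N hN
        exact hN _

end

end Pool.Agent.P8H21.AKE
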