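import Pool.Agent.P8H21.AKE.Newton

/-!
# Partial maps between valued fields: the axioms, and the non-immediate step
-/

set_option autoImplicit false

namespace Pool.Agent.P8H21.AKE

open Polynomial

/-- A relation between the elements of two valued fields which behaves like `x` and `y` having corresponding
leading terms. -/
structure RD {K L Γ Δ : Type*} [Field K] [Field L] [LinearOrderedCommGroupWithZero Γ]
    [LinearOrderedCommGroupWithZero Δ] (v : Valuation K Γ) (w : Valuation L Δ) (R : K → L → Prop) : Prop where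
  zero : R 0 0
  left0 : ∀ {b}, R 0 b → b = 0
  right0 : ∀ {a}, R a 0 → a = 0
  one : R 1 1
  mul : ∀ {a b a' b'}, R a a' → R b b' → R (a * b) (a' * b')
  inv : ∀ {a a'}, R a a' → R a⁻¹ a'⁻¹
  le : ∀ {a b a' b'}, R a a' → R b b' → (v a ≤ v b ↔ w a' ≤ w b')
  left : ∀ {a b c}, R a b → v (a - c) < v a → R c b
  right : ∀ {a b d}, R a b → w (b - d) < w b → R a d
  sum : ∀ (s : Finset ℕ) (a : ℕ → K) (b : ℕ → L) (c : K) (d : L), (∀ i ∈ s, R (a i) (b i)) → R c d → c ≠ 0 →
    (∀ i ∈ s, v (a i) ≤ v c) → ((v (∑ i ∈ s, a i) < v c ↔ w (∑ i ∈ s, b i) < w d) ∧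
      (v (∑ i ∈ s, a i) = v c → R (∑ i ∈ s, a i) (∑ i ∈ s, b i)))
  ex : ∀ a, ∃ b, R a b

namespace RD

variable {K L Γ Δ : Type*} [Field K] [Field L] [LinearOrderedCommGroupWithZero Γ]
    [LinearOrderedCommGroupWithZero Δ] {v : Valuation K Γ} {w : Valuation L Δ} {R : K → L → Prop} (h : RD v w R)

include h

theorem lt {a b : K} {a' b' : L} (h1 : R a a') (h2 : R b b') : v a < v b ↔ w a' < w b' := by
  rw [← not_le, ← not_le, h.le h2 h1]

theorem eq {a b : K} {a' b' : L} (h1 : R a a') (h2 : R b b') : v a = v b ↔ w a' = w b' := by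
  rw [le_antisymm_iff, le_antisymm_iff, h.le h2 h1, h.le h1 h2]

theorem pow {a : K} {a' : L} (h1 : R a a') (n : ℕ) : R (a ^ n) (a' ^ n) := by
  induction n with
  | zero => simpa using h.one
  | succ n ih => rw [pow_succ, pow_succ]; exact h.mul ih h1

theorem ne0 {a : K} {a' : L} (h1 : R a a') (ha : a ≠ 0) : a' ≠ 0 := by
  rintro rfl
  exact ha (h.right0 h1)

end RD

section

variable {K L Γ Δ F : Type*} [Field K] [Field L] [Field F] [LinearOrderedCommGroupWithZero Γ]
    [LinearOrderedCommGroupWithZero Δ] {v : Valuation K Γ} {w : Valuation L Δ} {R : K → L → Prop}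
    (i : F →+* K) (φ : F →+* L)

theorem ev (Q : F[X]) (z : K) (n : ℕ) (hn : Q.natDegree < n) :
    Q.eval₂ i z = ∑ k ∈ Finset.range n, i (Q.coeff k) * z ^ k := eval₂_eq_sum_range' i hn z

/-- From small degrees to all polynomials. -/
theorem all_of_deg (hR : RD v w R) (P : F[X]) (hP : P ≠ 0) (r : K) (s : L)
    (hr : P.eval₂ i r = 0) (hs : P.eval₂ φ s = 0)
    (h : ∀ Q : F[X], Q ≠ 0 → Q.natDegree < P.natDegree → R (Q.eval₂ i r) (Q.eval₂ φ s)) (Q : F[X]) :
    R (Q.eval₂ i r) (Q.eval₂ φ s) := by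
  have h1 := EuclideanDomain.div_add_mod Q P
  have h2 : Q.eval₂ i r = (Q % P).eval₂ i r := by
    conv_lhs => rw [← h1]
    rw [eval₂_add, eval₂_mul, hr, zero_mul, zero_add]
  have h3 : Q.eval₂ φ s = (Q % P).eval₂ φ s := by
    conv_lhs => rw [← h1]
    rw [eval₂_add, eval₂_mul, hs, zero_mul, zero_add]
  rw [h2, h3]
  by_cases h0 : Q % P = 0
  · rw [h0, eval₂_zero, eval₂_zero]
    exact hR.zero
  · apply h _ h0
    exact natDegree_lt_natDegree h0 (degree_mod_lt Q hP)

/-- `j` is the index of a term of largest value of `Q` at `a`. -/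
def MT (v : Valuation K Γ) (a : K) (Q : F[X]) (j : ℕ) : Prop :=
  Q.coeff j ≠ 0 ∧ ∀ k, v (i (Q.coeff k)) * v a ^ k ≤ v (i (Q.coeff j)) * v a ^ j

/-- `Q` takes at `a` the value of its largest term. -/
def Ga (v : Valuation K Γ) (a : K) (Q : F[X]) : Prop :=
  ∀ j, MT i v a Q j → v (Q.eval₂ i a) = v (i (Q.coeff j)) * v a ^ j

theorem exists_MT (v : Valuation K Γ) (a : K) (Q : F[X]) (hQ : Q ≠ 0) : ∃ j, MT i v a Q j := by
  obtain ⟨j, hj, hj2⟩ := Finset.exists_max_image Q.support (fun k => v (i (Q.coeff k)) * v a ^ k)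
    (nonempty_support_iff.2 hQ)
  refine ⟨j, mem_support_iff.1 hj, fun k => ?_⟩
  by_cases hk : k ∈ Q.support
  · exact hj2 k hk
  · rw [notMem_support_iff.1 hk, map_zero, map_zero, zero_mul]
    exact zero_le

theorem ev_le (v : Valuation K Γ) (a : K) (Q : F[X]) (j : ℕ) (hj : MT i v a Q j) :
    v (Q.eval₂ i a) ≤ v (i (Q.coeff j)) * v a ^ j := by
  rw [ev i Q a (Q.natDegree + 1) (by omega)]
  apply Valuation.map_sum_le
  intro k _
  rw [map_mul, map_pow]
  exact hj.2 k

theorem pow_close (v : Valuation K Γ) (a r : K) (hra : v (r - a) < v a) (k : ℕ) :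
    v (r ^ k - a ^ k) < v a ^ k := by
  have hr : v r = v a := by
    have : r = a + (r - a) := by ring
    rw [this, Valuation.map_add_eq_of_lt_left v hra]
  induction k with
  | zero => simp
  | succ k ih =>
    have h1 : r ^ (k + 1) - a ^ (k + 1) = (r ^ k - a ^ k) * r + a ^ k * (r - a) := by ring
    rw [h1]
    have hva : 0 < v a := lt_of_le_of_lt zero_le hra
    apply Valuation.map_add_lt
    · rw [map_mul, hr, pow_succ]
      exact mul_lt_mul_of_pos_right ih hva
    · rw [map_mul, map_pow, pow_succ]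
      exact mul_lt_mul_of_pos_left hra (pow_pos hva k)

theorem ev_close (v : Valuation K Γ) (a r : K) (hra : v (r - a) < v a) (Q : F[X]) (j : ℕ)
    (hj : MT i v a Q j) (hG : Ga i v a Q) : v (Q.eval₂ i r) = v (i (Q.coeff j)) * v a ^ j := by
  have hva : 0 < v a := lt_of_le_of_lt zero_le hra
  have hc : 0 < v (i (Q.coeff j)) := zero_lt_iff.2 ((Valuation.ne_zero_iff v).2 (by
    rw [Ne, map_eq_zero]; exact hj.1))
  rw [← hG j hj]
  have h1 : v (Q.eval₂ i r - Q.eval₂ i a) < v (Q.eval₂ i a) := by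
    rw [hG j hj, ev i Q r (Q.natDegree + 1) (by omega), ev i Q a (Q.natDegree + 1) (by omega),
      ← Finset.sum_sub_distrib]
    apply Valuation.map_sum_lt v (mul_pos hc (pow_pos hva j)).ne'
    intro k _
    rw [← mul_sub, map_mul]
    by_cases h0 : v (i (Q.coeff k)) = 0
    · rw [h0, zero_mul]
      exact mul_pos hc (pow_pos hva j)
    · exact lt_of_lt_of_le (mul_lt_mul_of_pos_left (pow_close v a r hra k) (zero_lt_iff.2 h0)) (hj.2 k)
  have h2 : Q.eval₂ i r = Q.eval₂ i a + (Q.eval₂ i r - Q.eval₂ i a) := by ring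
  rw [h2, Valuation.map_add_eq_of_lt_left v h1]

theorem gauss_rel (hR : RD v w R) (hφ : ∀ c, R (i c) (φ c)) (a r : K) (hra : v (r - a) < v a) (s : L)
    (hrs : R r s) (Q : F[X]) (hQ : Q ≠ 0) (hG : Ga i v a Q) : R (Q.eval₂ i r) (Q.eval₂ φ s) := by
  have hva : 0 < v a := lt_of_le_of_lt zero_le hra
  have hr : v r = v a := by
    have : r = a + (r - a) := by ring
    rw [this, Valuation.map_add_eq_of_lt_left v hra]
  obtain ⟨j, hj⟩ := exists_MT i v a Q hQ
  have h1 := ev_close i v a r hra Q j hj hG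
  have hr0 : r ≠ 0 := (Valuation.ne_zero_iff v).1 (by rw [hr]; exact hva.ne')
  have h2 := hR.sum (Finset.range (Q.natDegree + 1)) (fun k => i (Q.coeff k) * r ^ k)
    (fun k => φ (Q.coeff k) * s ^ k) (i (Q.coeff j) * r ^ j) (φ (Q.coeff j) * s ^ j)
    (fun k _ => hR.mul (hφ _) (hR.pow hrs k)) (hR.mul (hφ _) (hR.pow hrs j))
    (mul_ne_zero (by rw [Ne, map_eq_zero]; exact hj.1) (pow_ne_zero _ hr0)) (fun k _ => by
      rw [map_mul, map_mul, map_pow, map_pow, hr]; exact hj.2 k)
  rw [ev i Q r (Q.natDegree + 1) (by omega), ev φ Q s (Q.natDegree + 1) (by omega)]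
  apply h2.2
  rw [← ev i Q r (Q.natDegree + 1) (by omega), h1, map_mul, map_pow, hr]

theorem not_Ga (v : Valuation K Γ) (a : K) (Q : F[X]) (h : ¬ Ga i v a Q) :
    ∃ j, MT i v a Q j ∧ v (Q.eval₂ i a) < v (i (Q.coeff j)) * v a ^ j := by
  unfold Ga at h
  push Not at h
  obtain ⟨j, hj, hj2⟩ := h
  exact ⟨j, hj, lt_of_le_of_ne (ev_le i v a Q j hj) hj2⟩

theorem gauss_step (hR : RD v w R) (hv : NH v) (hw : NH w) (hchar : ∀ n : ℕ, n ≠ 0 → v (n : K) = 1)
    (hφ : ∀ c, R (i c) (φ c)) (a : K) (ha : a ≠ 0) (hna : ∀ c : F, ¬ v (a - i c) < v a) :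
    ∃ r, r ∉ Set.range i ∧ ∃ s, ∀ Q : F[X], R (Q.eval₂ i r) (Q.eval₂ φ s) := by
  obtain ⟨a', haa⟩ := hR.ex a
  have ha' : a' ≠ 0 := hR.ne0 haa ha
  have hva : 0 < v a := zero_lt_iff.2 ((Valuation.ne_zero_iff v).2 ha)
  have haa0 : v (a - a) < v a := by rw [sub_self, map_zero]; exact hva
  have hran : ∀ r, v (r - a) < v a → r ∉ Set.range i := by
    rintro r hr ⟨c, rfl⟩
    rw [Valuation.map_sub_swap] at hr
    exact hna c hr
  by_cases hall : ∀ Q : F[X], Q ≠ 0 → Ga i v a Q
  · refine ⟨a, hran a haa0, a', fun Q => ?_⟩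
    by_cases hQ : Q = 0
    · rw [hQ, eval₂_zero, eval₂_zero]
      exact hR.zero
    · exact gauss_rel i φ hR hφ a a haa0 a' haa Q hQ (hall Q hQ)
  push Not at hall
  -- a polynomial of minimal degree
  obtain ⟨P, ⟨hP0, hPG⟩, hPmin⟩ : ∃ P : F[X], (P ≠ 0 ∧ ¬ Ga i v a P) ∧
      ∀ Q : F[X], Q ≠ 0 → Q.natDegree < P.natDegree → Ga i v a Q := by
    obtain ⟨Q0, hQ0, hQ1⟩ := hall
    let S : Set F[X] := {P | P ≠ 0 ∧ ¬ Ga i v a P}
    have hS : S.Nonempty := ⟨Q0, hQ0, hQ1⟩
    refine ⟨Function.argminOn (fun P : F[X] => P.natDegree) S hS, Function.argminOn_mem _ S hS, ?_⟩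
    intro Q hQ hQd
    by_contra hQG
    exact Function.not_lt_argminOn (fun P : F[X] => P.natDegree) S (a := Q) ⟨hQ, hQG⟩ hQd
  set n := P.natDegree with hn
  obtain ⟨j, hj, hj2⟩ := not_Ga i v a P hPG
  have hlead : v (i (P.coeff n)) * v a ^ n = v (i (P.coeff j)) * v a ^ j := by
    by_contra hne
    have hlt : v (i (P.coeff n)) * v a ^ n < v (i (P.coeff j)) * v a ^ j := lt_of_le_of_ne (hj.2 n) hne
    have hjn : j ≠ n := by rintro rfl; exact hne rfl
    have hQj : P.eraseLead.coeff j = P.coeff j := eraseLead_coeff_of_ne j hjn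
    have hQ0 : P.eraseLead ≠ 0 := by
      intro h0
      rw [h0, coeff_zero] at hQj
      exact hj.1 hQj.symm
    have hQd : P.eraseLead.natDegree < n := by
      rcases eraseLead_natDegree_lt_or_eraseLead_eq_zero P with h | h
      · exact h
      · exact absurd h hQ0
    have hQM : MT i v a P.eraseLead j := by
      refine ⟨by rw [hQj]; exact hj.1, fun k => ?_⟩
      rw [hQj]
      by_cases hk : k = n
      · rw [hk, hn, eraseLead_coeff_natDegree, map_zero, map_zero, zero_mul]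
        exact zero_le
      · rw [eraseLead_coeff_of_ne k hk]
        exact hj.2 k
    have h1 := hPmin _ hQ0 hQd j hQM
    rw [hQj] at h1
    have h2 : P.eval₂ i a = P.eraseLead.eval₂ i a + i (P.coeff n) * a ^ n := by
      conv_lhs => rw [← eraseLead_add_monomial_natDegree_leadingCoeff P]
      rw [eval₂_add, eval₂_monomial]
      rfl
    rw [h2, Valuation.map_add_eq_of_lt_left v (by rw [h1, map_mul, map_pow]; exact hlt), h1] at hj2
    exact lt_irrefl _ hj2
  have hlc : P.coeff n ≠ 0 := by rw [hn]; exact leadingCoeff_ne_zero.2 hP0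
  -- the monic multiple
  set P1 : F[X] := C (P.coeff n)⁻¹ * P with hP1
  have hP1c : ∀ k, P1.coeff k = (P.coeff n)⁻¹ * P.coeff k := fun k => by rw [hP1, coeff_C_mul]
  have hP1n : P1.coeff n = 1 := by rw [hP1c, inv_mul_cancel₀ hlc]
  have hP1d : P1.natDegree = n := by
    rw [hP1, natDegree_C_mul (inv_ne_zero hlc)]
  have hP10 : P1 ≠ 0 := by
    intro h0
    rw [h0, coeff_zero] at hP1n
    exact zero_ne_one hP1n
  have hvc : 0 < v (i (P.coeff n)) := zero_lt_iff.2 ((Valuation.ne_zero_iff v).2 (by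
    rw [Ne, map_eq_zero]; exact hlc))
  have hP1v : ∀ k, v (i (P1.coeff k)) * v a ^ k ≤ v a ^ n := by
    intro k
    rw [hP1c, map_mul, map_inv₀, map_mul, map_inv₀, mul_assoc]
    have h1 := hj.2 k
    rw [← hlead] at h1
    calc (v (i (P.coeff n)))⁻¹ * (v (i (P.coeff k)) * v a ^ k)
        ≤ (v (i (P.coeff n)))⁻¹ * (v (i (P.coeff n)) * v a ^ n) := by gcongr
      _ = v a ^ n := by rw [← mul_assoc, inv_mul_cancel₀ hvc.ne', one_mul]
  have hP1a : v (P1.eval₂ i a) < v a ^ n := by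
    rw [hP1, eval₂_mul, eval₂_C, map_mul, map_inv₀, map_inv₀]
    rw [← hlead] at hj2
    calc (v (i (P.coeff n)))⁻¹ * v (P.eval₂ i a)
        < (v (i (P.coeff n)))⁻¹ * (v (i (P.coeff n)) * v a ^ n) :=
          mul_lt_mul_of_pos_left hj2 (inv_pos.2 hvc)
      _ = v a ^ n := by rw [← mul_assoc, inv_mul_cancel₀ hvc.ne', one_mul]
  have hn0 : n ≠ 0 := by
    intro h0
    have h1 : P1 = C (P1.coeff 0) := eq_C_of_natDegree_eq_zero (by rw [hP1d, h0])
    rw [h0] at hP1n
    rw [h1, hP1n, eval₂_C, map_one, map_one, h0, pow_zero] at hP1a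
    exact lt_irrefl _ hP1a
  -- the derivative
  have hnF : i ((n : F)) = (n : K) := map_natCast i n
  have hdc : ∀ k, P1.derivative.coeff k = P1.coeff (k + 1) * ((k : F) + 1) := fun k => coeff_derivative P1 k
  have hdn : P1.derivative.coeff (n - 1) = (n : F) := by
    rw [hdc, Nat.sub_add_cancel (by omega), hP1n, one_mul]
    have : ((n - 1 : ℕ) : F) + 1 = ((n - 1 + 1 : ℕ) : F) := by push_cast; ring
    rw [this, Nat.sub_add_cancel (by omega)]
  have hdn' : v (i (P1.derivative.coeff (n - 1))) = 1 := by rw [hdn, hnF, hchar n hn0]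
  have hd0 : P1.derivative ≠ 0 := by
    intro h0
    rw [h0, coeff_zero, map_zero, map_zero] at hdn'
    exact zero_ne_one hdn'
  have hapow : v a ^ n = v a ^ (n - 1) * v a := by rw [← pow_succ, Nat.sub_add_cancel (by omega)]
  have hdM : MT i v a P1.derivative (n - 1) := by
    refine ⟨fun h0 => ?_, fun k => ?_⟩
    · rw [h0, map_zero, map_zero] at hdn'
      exact zero_ne_one hdn'
    · rw [hdn', one_mul]
      have h1 : v (i (P1.derivative.coeff k)) * v a ^ k * v a ≤ v a ^ (n - 1) * v a := by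
        rw [← hapow]
        refine le_trans ?_ (hP1v (k + 1))
        rw [hdc, map_mul, map_mul, mul_assoc, mul_assoc, ← pow_succ]
        have h2 : v (i ((k : F) + 1)) ≤ 1 := by
          have : i ((k : F) + 1) = ((k + 1 : ℕ) : K) := by push_cast; simp
          rw [this]
          exact v_nat v _
        calc v (i (P1.coeff (k + 1))) * (v (i ((k : F) + 1)) * v a ^ (k + 1))
            ≤ v (i (P1.coeff (k + 1))) * (1 * v a ^ (k + 1)) := by gcongr
          _ = _ := by rw [one_mul]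
      exact le_of_mul_le_mul_right h1 hva
  have hdd : P1.derivative.natDegree < n := by
    rw [← hP1d]
    exact natDegree_derivative_lt (by rw [hP1d]; exact hn0)
  have hdG := hPmin _ hd0 hdd
  have hda : v (P1.derivative.eval₂ i a) * v a = v a ^ n := by
    rw [hdG _ hdM, hdn', one_mul, hapow]
  -- the root in K
  obtain ⟨r, hr, hra⟩ := gauss_root hv (P1.map i) a ha n (by
      intro k
      rw [coeff_map]
      exact hP1v k) (by rw [eval_map]; exact hP1a) (by
      rw [derivative_map, eval_map]; exact hda)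
  rw [eval_map] at hr
  -- the root in L
  have hRan : R (a ^ n) (a' ^ n) := hR.pow haa n
  have hsum := hR.sum (Finset.range (n + 1)) (fun k => i (P1.coeff k) * a ^ k)
    (fun k => φ (P1.coeff k) * a' ^ k) (a ^ n) (a' ^ n)
    (fun k _ => hR.mul (hφ _) (hR.pow haa k)) hRan (pow_ne_zero _ ha) (fun k _ => by
      rw [map_mul, map_pow, map_pow]; exact hP1v k)
  rw [← ev i P1 a (n + 1) (by omega), ← ev φ P1 a' (n + 1) (by omega)] at hsum
  have hda' : w (P1.derivative.eval₂ φ a') * w a' = w a' ^ n := by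
    have h1 := gauss_rel i φ hR hφ a a haa0 a' haa P1.derivative hd0 hdG
    have h2 := hR.mul h1 haa
    rw [← map_mul, ← map_pow, ← hR.eq h2 hRan, map_mul, map_pow]
    exact hda
  obtain ⟨s, hs, hsa⟩ := gauss_root hw (P1.map φ) a' ha' n (by
      intro k
      rw [coeff_map, ← map_pow, ← map_mul, ← map_pow, ← hR.le (hR.mul (hφ _) (hR.pow haa k)) hRan,
        map_mul, map_pow, map_pow]
      exact hP1v k) (by
      rw [eval_map, ← map_pow, ← hsum.1, map_pow]
      exact hP1a) (by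
      rw [derivative_map, eval_map]; exact hda')
  rw [eval_map] at hs
  have hrs : R r s := by
    apply hR.left _ (by
      rw [Valuation.map_sub_swap]
      exact hra)
    apply hR.right haa
    rw [Valuation.map_sub_swap]
    exact hsa
  refine ⟨r, hran r hra, s, fun Q => ?_⟩
  apply all_of_deg i φ hR P1 hP10 r s hr hs
  intro Q hQ hQd
  rw [hP1d] at hQd
  exact gauss_rel i φ hR hφ a r hra s hrs Q hQ (hPmin Q hQ hQd)

end

end Pool.Agent.P8H21.AKE
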