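import Pool.Agent.P8H21.AKE.Gauss

/-!
# The immediate step of the embedding theorem
-/

set_option autoImplicit false

namespace Pool.Agent.P8H21.AKE

open Polynomial

section

variable {K L Γ Δ F : Type*} [Field K] [Field L] [Field F] [LinearOrderedCommGroupWithZero Γ]
    [LinearOrderedCommGroupWithZero Δ] {v : Valuation K Γ} {w : Valuation L Δ} {R : K → L → Prop}
    (i : F →+* K) (φ : F →+* L)

/-- Countable saturation for approximate values of polynomials. -/
def SatP (w : Valuation L Δ) : Prop := ∀ (Q : ℕ → L[X]) (c : ℕ → L),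
  (∀ N, ∃ y, ∀ j < N, w ((Q j).eval y - c j) < w (c j)) → ∃ y, ∀ j, w ((Q j).eval y - c j) < w (c j)

theorem tay (b : F) (Q : F[X]) (j : ℕ) : (taylor (i b) (Q.map i)).coeff j = i ((taylor b Q).coeff j) := by
  rw [← map_taylor, coeff_map]

/-- Good approximation of `x` by `b` with respect to `Q`. -/
def GA (v : Valuation K Γ) (x : K) (Q : F[X]) (b : F) : Prop :=
  ∀ j, 1 ≤ j → v (i ((taylor b Q).coeff j)) * v (x - i b) ^ j < v (i (Q.eval b))

theorem GA.ne {x : K} {Q : F[X]} {b : F} (h : GA i v x Q b) : Q.eval b ≠ 0 := by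
  intro h0
  have h1 := h 1 le_rfl
  rw [h0, map_zero, map_zero] at h1
  exact absurd h1 (not_lt.2 zero_le)

theorem GA.close {x : K} {Q : F[X]} {b : F} (h : GA i v x Q b) (z : K) (hz : v (z - i b) ≤ v (x - i b)) :
    v (Q.eval₂ i z - i (Q.eval b)) < v (i (Q.eval b)) := by
  have h1 := taylor_close (v := v) (Q.map i) (i b) z (by
    rw [eval_map, eval₂_at_apply, Ne, map_eq_zero]; exact h.ne) (by
    intro j hj
    rw [tay, eval_map, eval₂_at_apply]
    refine lt_of_le_of_lt ?_ (h j hj)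
    gcongr)
  rwa [eval_map, eval_map, eval₂_at_apply] at h1

theorem GA.rel (hR : RD v w R) (hφ : ∀ c, R (i c) (φ c)) {x : K} {Q : F[X]} {b : F} (h : GA i v x Q b)
    (z : K) (hz : v (z - i b) ≤ v (x - i b)) (y : L) (d : F) (hd : v (i d) = v (x - i b))
    (hy : w (y - φ b) ≤ w (φ d)) : R (Q.eval₂ i z) (Q.eval₂ φ y) := by
  have h1 := h.close i z hz
  have h2 := taylor_close (v := w) (Q.map φ) (φ b) y (by
    rw [eval_map, eval₂_at_apply, Ne, map_eq_zero]; exact h.ne) (by
    intro j hj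
    rw [tay, eval_map, eval₂_at_apply]
    have h3 := h j hj
    rw [← hd, ← map_pow, ← map_mul, ← map_pow, ← map_mul, hR.lt (hφ _) (hφ _), map_mul, map_pow, map_mul,
      map_pow] at h3
    refine lt_of_le_of_lt ?_ h3
    gcongr)
  rw [eval_map, eval_map, eval₂_at_apply] at h2
  apply hR.left _ (by rw [Valuation.map_sub_swap]; exact h1)
  apply hR.right (hφ _)
  rw [Valuation.map_sub_swap]
  exact h2

/-- `Q` is good at `x`. -/
def Good (v : Valuation K Γ) (x : K) (Q : F[X]) : Prop :=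
  ∃ b0 : F, ∀ b : F, v (x - i b) ≤ v (x - i b0) → GA i v x Q b

theorem near (v : Valuation K Γ) (x : K) {ι : Type*} (b0 : ι → F) (s : Finset ι) :
    ∃ b : F, ∀ k ∈ s, v (x - i b) ≤ v (x - i (b0 k)) := by
  by_cases hs : s.Nonempty
  · obtain ⟨k, _, hk⟩ := Finset.exists_min_image s (fun k => v (x - i (b0 k))) hs
    exact ⟨b0 k, hk⟩
  · exact ⟨0, fun k hk => absurd ⟨k, hk⟩ hs⟩

theorem vsub_le (v : Valuation K Γ) (x y z : K) (g : Γ) (h1 : v (x - y) ≤ g) (h2 : v (y - z) ≤ g) :
    v (x - z) ≤ g := by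
  have : x - z = (x - y) + (y - z) := by ring
  rw [this]
  exact Valuation.map_add_le v h1 h2

theorem imm_step [Countable F] (hR : RD v w R) (hv : NH v) (hw : NH w)
    (hchar : ∀ n : ℕ, n ≠ 0 → v (n : K) = 1) (hs : SatP w) (hφ : ∀ c, R (i c) (φ c))
    (him : ∀ a : K, a ≠ 0 → ∃ c : F, v (a - i c) < v a) (x : K) (hx : x ∉ Set.range i) :
    ∃ r, r ∉ Set.range i ∧ ∃ s, ∀ Q : F[X], R (Q.eval₂ i r) (Q.eval₂ φ s) := by
  have hxb : ∀ b : F, x - i b ≠ 0 := fun b h0 => hx ⟨b, (sub_eq_zero.1 h0).symm⟩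
  have hxv : ∀ b : F, 0 < v (x - i b) := fun b => zero_lt_iff.2 ((Valuation.ne_zero_iff v).2 (hxb b))
  have hNC : ∀ b : F, ∃ b' : F, v (x - i b') < v (x - i b) := by
    intro b
    obtain ⟨c, hc⟩ := him _ (hxb b)
    refine ⟨b + c, ?_⟩
    rwa [map_add, ← sub_sub]
  have hD : ∀ b : F, ∃ d : F, v (i d) = v (x - i b) := by
    intro b
    obtain ⟨c, hc⟩ := him _ (hxb b)
    refine ⟨c, ?_⟩
    have : i c = (x - i b) - ((x - i b) - i c) := by ring
    rw [this, Valuation.map_sub_eq_of_lt_left v hc]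
  by_cases hall : ∀ Q : F[X], Q ≠ 0 → Good i v x Q
  · -- all polynomials are good
    choose! b0 hb0 using hall
    have hcnt0 : Countable F[X] := by
      rw [← Cardinal.mk_le_aleph0_iff]
      refine (Polynomial.cardinalMk_le_max).trans ?_
      rw [max_le_iff]
      exact ⟨Cardinal.mk_le_aleph0_iff.2 inferInstance, le_rfl⟩
    have hcnt : Countable {Q : F[X] // Q ≠ 0} := inferInstance
    have hne : Nonempty {Q : F[X] // Q ≠ 0} := ⟨⟨1, one_ne_zero⟩⟩
    obtain ⟨e, he⟩ := exists_surjective_nat {Q : F[X] // Q ≠ 0}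
    obtain ⟨y, hy⟩ := hs (fun j => (e j).1.map φ) (fun j => φ ((e j).1.eval (b0 (e j).1))) (by
      intro N
      obtain ⟨b, hb⟩ := near i v x (fun j => b0 (e j).1) (Finset.range N)
      refine ⟨φ b, fun j hj => ?_⟩
      rw [eval_map, eval₂_at_apply, ← map_sub, ← hR.lt (hφ _) (hφ _)]
      have h1 := (hb0 (e j).1 (e j).2 (b0 (e j).1) le_rfl).close i (i b) (by
        apply vsub_le v _ x
        · rw [Valuation.map_sub_swap]
          exact hb j (Finset.mem_range.2 hj)
        · exact le_rfl)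
      rwa [eval₂_at_apply, ← map_sub] at h1)
    refine ⟨x, hx, y, fun Q => ?_⟩
    by_cases hQ : Q = 0
    · rw [hQ, eval₂_zero, eval₂_zero]
      exact hR.zero
    obtain ⟨j, hj⟩ := he ⟨Q, hQ⟩
    have h2 := hy j
    rw [hj] at h2
    simp only [eval_map] at h2
    have h1 := (hb0 Q hQ (b0 Q) le_rfl).close i x le_rfl
    apply hR.left _ (by rw [Valuation.map_sub_swap]; exact h1)
    apply hR.right (hφ _)
    rw [Valuation.map_sub_swap]
    exact h2
  push Not at hall
  obtain ⟨P, ⟨hP0, hPG⟩, hPmin⟩ : ∃ P : F[X], (P ≠ 0 ∧ ¬ Good i v x P) ∧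
      ∀ Q : F[X], Q ≠ 0 → Q.natDegree < P.natDegree → Good i v x Q := by
    obtain ⟨Q0, hQ0, hQ1⟩ := hall
    let S : Set F[X] := {P | P ≠ 0 ∧ ¬ Good i v x P}
    have hS : S.Nonempty := ⟨Q0, hQ0, hQ1⟩
    refine ⟨Function.argminOn (fun P : F[X] => P.natDegree) S hS, Function.argminOn_mem _ S hS, ?_⟩
    intro Q hQ hQd
    by_contra hQG
    exact Function.not_lt_argminOn (fun P : F[X] => P.natDegree) S (a := Q) ⟨hQ, hQG⟩ hQd
  set n := P.natDegree with hn
  have hn0 : n ≠ 0 := by
    intro h0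
    apply hPG
    have h1 : P = C (P.coeff 0) := eq_C_of_natDegree_eq_zero (by rw [← hn, h0])
    have h2 : P.coeff 0 ≠ 0 := by
      intro h3
      rw [h3, C_0] at h1
      exact hP0 h1
    refine ⟨0, fun b _ j hj => ?_⟩
    rw [h1, taylor_C, coeff_C, if_neg (by omega), map_zero, map_zero, zero_mul, eval_C]
    exact zero_lt_iff.2 ((Valuation.ne_zero_iff v).2 (by rw [Ne, map_eq_zero]; exact h2))
  -- the Taylor coefficients
  have hTg : ∀ j, 1 ≤ j → j ≤ n → Good i v x (hasseDeriv j P) := by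
    intro j hj hjn
    apply hPmin
    · intro h0
      have h1 : (hasseDeriv j P).coeff (n - j) = 0 := by rw [h0, coeff_zero]
      rw [hasseDeriv_coeff, Nat.sub_add_cancel hjn] at h1
      rcases mul_eq_zero.1 h1 with h2 | h2
      · have h3 := hchar (n.choose j) (Nat.choose_pos hjn).ne'
        rw [← map_natCast i, h2, map_zero, map_zero] at h3
        exact zero_ne_one h3
      · exact hP0 (leadingCoeff_eq_zero.1 h2)
    · exact lt_of_le_of_lt (natDegree_hasseDeriv_le P j) (by omega)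
  choose! b0 hb0 using hTg
  obtain ⟨B, hB⟩ := near i v x b0 (Finset.Icc 1 n)
  have hB' : ∀ j, 1 ≤ j → j ≤ n → ∀ b, v (x - i b) ≤ v (x - i B) → GA i v x (hasseDeriv j P) b :=
    fun j hj hjn b hb => hb0 j hj hjn b (hb.trans (hB j (Finset.mem_Icc.2 ⟨hj, hjn⟩)))
  -- the values of the Taylor coefficients are constant near x
  have hconst : ∀ j, 1 ≤ j → ∀ b b' : F, v (x - i b) ≤ v (x - i B) → v (x - i b') ≤ v (x - i B) →
      v (i ((taylor b P).coeff j)) = v (i ((taylor b' P).coeff j)) := by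
    have key : ∀ j, 1 ≤ j → ∀ b : F, v (x - i b) ≤ v (x - i B) →
        v (i ((taylor b P).coeff j)) = v ((hasseDeriv j P).eval₂ i x) := by
      intro j hj b hb
      rw [taylor_coeff]
      by_cases hjn : j ≤ n
      · have h1 := (hB' j hj hjn b hb).close i x le_rfl
        have h2 : (hasseDeriv j P).eval₂ i x = i ((hasseDeriv j P).eval b) +
          ((hasseDeriv j P).eval₂ i x - i ((hasseDeriv j P).eval b)) := by ring
        rw [h2, Valuation.map_add_eq_of_lt_left v h1]
      · have h0 : hasseDeriv j P = 0 := hasseDeriv_eq_zero_of_lt_natDegree P j (by omega)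
        rw [h0, eval_zero, map_zero, eval₂_zero]
    intro j hj b b' hb hb'
    rw [key j hj b hb, key j hj b' hb']
  -- the linear term dominates the terms of higher order
  have hE : ∀ b : F, v (x - i b) ≤ v (x - i B) → ∀ j, 2 ≤ j →
      v (i ((taylor b P).coeff j)) * v (x - i b) ^ (j - 1) < v (i (P.derivative.eval b)) := by
    intro b hb j hj
    have h1 := hB' 1 le_rfl (by omega) b hb (j - 1) (by omega)
    rw [hasseDeriv_one] at h1
    have h2 : (taylor b (derivative P)).coeff (j - 1) = (taylor b P).coeff j * ((j : ℕ) : F) := by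
      have h3 : taylor b (derivative P) = derivative (taylor b P) := by
        simp [taylor_apply, derivative_comp]
      rw [h3, coeff_derivative, Nat.sub_add_cancel (by omega)]
      congr 1
      have : ((j - 1 : ℕ) : F) + 1 = ((j - 1 + 1 : ℕ) : F) := by push_cast; ring
      rw [this, Nat.sub_add_cancel (by omega)]
    rw [h2, map_mul, map_mul, map_natCast, hchar j (by omega), mul_one] at h1
    exact h1
  have hd0 : ∀ b : F, v (x - i b) ≤ v (x - i B) → P.derivative.eval b ≠ 0 := by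
    intro b hb h0
    have h1 := hE b hb 2 le_rfl
    rw [h0, map_zero, map_zero] at h1
    exact absurd h1 (not_lt.2 zero_le)
  -- witnesses
  have hW : ∀ c : F, ∃ b : F, v (x - i b) ≤ v (x - i c) ∧ v (x - i b) ≤ v (x - i B) ∧
      v (i (P.eval b)) ≤ v (i (P.derivative.eval b)) * v (x - i b) := by
    intro c
    obtain ⟨c', hc'⟩ := near i v x (fun k : Bool => if k then c else B) Finset.univ
    have hc1 : v (x - i c') ≤ v (x - i c) := by simpa using hc' true (Finset.mem_univ _)
    have hc2 : v (x - i c') ≤ v (x - i B) := by simpa using hc' false (Finset.mem_univ _)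
    unfold Good GA at hPG
    push Not at hPG
    obtain ⟨b, hb, j, hj, hj2⟩ := hPG c'
    refine ⟨b, hb.trans hc1, hb.trans hc2, hj2.trans ?_⟩
    rcases Nat.lt_or_ge j 2 with h | h
    · have : j = 1 := by omega
      rw [this, taylor_coeff_one, pow_one]
    · have h1 := hE b (hb.trans hc2) j h
      calc v (i ((taylor b P).coeff j)) * v (x - i b) ^ j
          = (v (i ((taylor b P).coeff j)) * v (x - i b) ^ (j - 1)) * v (x - i b) := by
            rw [mul_assoc, ← pow_succ, Nat.sub_add_cancel (by omega)]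
        _ ≤ v (i (P.derivative.eval b)) * v (x - i b) := by gcongr
  obtain ⟨b1, -, hb1, hb1W⟩ := hW B
  obtain ⟨d1, hd1⟩ := hD b1
  have hev : ∀ b : F, (P.map i).eval (i b) = i (P.eval b) := fun b => by rw [eval_map, eval₂_at_apply]
  have hev' : ∀ b : F, (P.map φ).eval (φ b) = φ (P.eval b) := fun b => by rw [eval_map, eval₂_at_apply]
  have hde : ∀ b : F, (P.map i).derivative.eval (i b) = i (P.derivative.eval b) := fun b => by
    rw [derivative_map, eval_map, eval₂_at_apply]
  have hde' : ∀ b : F, (P.map φ).derivative.eval (φ b) = φ (P.derivative.eval b) := fun b => by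
    rw [derivative_map, eval_map, eval₂_at_apply]
  -- the estimates at the distance of b1, for points near x
  have hE1 : ∀ b : F, v (x - i b) ≤ v (x - i B) → ∀ j, 2 ≤ j →
      v (i ((taylor b P).coeff j)) * v (x - i b1) ^ (j - 1) < v (i (P.derivative.eval b)) := by
    intro b hb j hj
    have h1 := hE b1 hb1 j hj
    have h2 := hconst 1 le_rfl b b1 hb hb1
    rw [taylor_coeff_one, taylor_coeff_one] at h2
    rw [hconst j (by omega) b b1 hb hb1, h2]
    exact h1
  have hE2 : ∀ b : F, v (x - i b) ≤ v (x - i B) → ∀ j, 2 ≤ j →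
      w (φ ((taylor b P).coeff j)) * w (φ d1) ^ (j - 1) < w (φ (P.derivative.eval b)) := by
    intro b hb j hj
    have h1 := hE1 b hb j hj
    rwa [← hd1, ← map_pow, ← map_mul, ← map_pow, ← map_mul, hR.lt (hφ _) (hφ _), map_mul, map_pow, map_mul,
      map_pow] at h1
  obtain ⟨r, hr, hrb⟩ := newton_root hv (P.map i) (i b1) (v (x - i b1)) (by
      rw [hde, Ne, map_eq_zero]; exact hd0 b1 hb1) (by rw [hev, hde]; exact hb1W) (by
      intro j hj
      rw [tay, hde]
      exact hE1 b1 hb1 j hj)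
  obtain ⟨s, hs1, hsb⟩ := newton_root hw (P.map φ) (φ b1) (w (φ d1)) (by
      rw [hde', Ne, map_eq_zero]; exact hd0 b1 hb1) (by
      rw [hev', hde']
      rw [← map_mul, ← map_mul, ← hR.le (hφ _) (hφ _), map_mul, map_mul, hd1]
      exact hb1W) (by
      intro j hj
      rw [tay, hde']
      exact hE2 b1 hb1 j hj)
  -- the distances of the roots to the witnesses
  have hC1 : ∀ b : F, v (x - i b) ≤ v (x - i B) → v (x - i b) ≤ v (x - i b1) →
      v (i (P.eval b)) ≤ v (i (P.derivative.eval b)) * v (x - i b) →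
      v (r - i b) ≤ v (x - i b) ∧ ∀ d : F, v (i d) = v (x - i b) → w (s - φ b) ≤ w (φ d) := by
    intro b hb hbb hbW
    have hbb1 : v (i b1 - i b) ≤ v (x - i b1) := by
      apply vsub_le v _ x
      · rw [Valuation.map_sub_swap]
      · exact hbb
    constructor
    · have h1 := root_dist (v := v) (P.map i) (i b) r (v (x - i b1)) hr
        (vsub_le v _ (i b1) _ _ hrb hbb1) (by rw [hde, Ne, map_eq_zero]; exact hd0 b hb) (by
        intro j hj
        rw [tay, hde]
        exact hE1 b hb j hj)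
      rw [hev, hde] at h1
      rw [h1] at hbW
      exact le_of_mul_le_mul_left hbW (zero_lt_iff.2 ((Valuation.ne_zero_iff v).2 (by
        rw [Ne, map_eq_zero]; exact hd0 b hb)))
    · intro d hd
      have h1 := root_dist (v := w) (P.map φ) (φ b) s (w (φ d1)) hs1
        (vsub_le w _ (φ b1) _ _ hsb (by
          rw [← map_sub, ← hR.le (hφ _) (hφ _), map_sub, hd1]
          exact hbb1)) (by rw [hde', Ne, map_eq_zero]; exact hd0 b hb) (by
        intro j hj
        rw [tay, hde']
        exact hE2 b hb j hj)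
      rw [hev', hde'] at h1
      rw [← hd, ← map_mul, ← map_mul, hR.le (hφ _) (hφ _), map_mul, map_mul, h1] at hbW
      exact le_of_mul_le_mul_left hbW (zero_lt_iff.2 ((Valuation.ne_zero_iff w).2 (by
        rw [Ne, map_eq_zero]; exact hd0 b hb)))
  have hC2 : ∀ b : F, v (r - i b) ≤ v (x - i b) ∧ ∀ d : F, v (i d) = v (x - i b) → w (s - φ b) ≤ w (φ d) := by
    intro b
    obtain ⟨c', hc'⟩ := near i v x (fun k : Bool => if k then b else b1) Finset.univ
    have hc1 : v (x - i c') ≤ v (x - i b) := by simpa using hc' true (Finset.mem_univ _)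
    have hc2 : v (x - i c') ≤ v (x - i b1) := by simpa using hc' false (Finset.mem_univ _)
    obtain ⟨b', hb', hb'B, hb'W⟩ := hW c'
    obtain ⟨h1, h2⟩ := hC1 b' hb'B (hb'.trans hc2) hb'W
    have h3 : v (i b' - i b) ≤ v (x - i b) := by
      apply vsub_le v _ x
      · rw [Valuation.map_sub_swap]
        exact hb'.trans hc1
      · exact le_rfl
    constructor
    · exact vsub_le v _ (i b') _ _ (h1.trans (hb'.trans hc1)) h3
    · intro d hd
      obtain ⟨d', hd'⟩ := hD b'
      apply vsub_le w _ (φ b')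
      · refine (h2 d' hd').trans ?_
        rw [← hR.le (hφ _) (hφ _), hd, hd']
        exact hb'.trans hc1
      · rw [← map_sub, ← hR.le (hφ _) (hφ _), map_sub, hd]
        exact h3
  rw [eval_map] at hr hs1
  refine ⟨r, ?_, s, ?_⟩
  · rintro ⟨c, rfl⟩
    obtain ⟨b', hb'⟩ := hNC c
    have h1 := (hC2 b').1
    have h2 : v (x - i c) ≤ v (x - i b') := by
      apply vsub_le v _ (i b') _ _ le_rfl
      rw [Valuation.map_sub_swap]
      exact h1
    exact absurd hb' (not_lt.2 h2)
  · apply all_of_deg i φ hR P hP0 r s hr hs1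
    intro Q hQ hQd
    obtain ⟨b, hb⟩ := hPmin Q hQ hQd
    obtain ⟨d, hd⟩ := hD b
    exact (hb b le_rfl).rel i φ hR hφ r (hC2 b).1 s d hd ((hC2 b).2 d hd)

theorem one_step [Countable F] (hR : RD v w R) (hv : NH v) (hw : NH w)
    (hchar : ∀ n : ℕ, n ≠ 0 → v (n : K) = 1) (hs : SatP w) (hφ : ∀ c, R (i c) (φ c))
    (x : K) (hx : x ∉ Set.range i) :
    ∃ r, r ∉ Set.range i ∧ ∃ s, ∀ Q : F[X], R (Q.eval₂ i r) (Q.eval₂ φ s) := by
  by_cases him : ∀ a : K, a ≠ 0 → ∃ c : F, v (a - i c) < v a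
  · exact imm_step i φ hR hv hw hchar hs hφ him x hx
  · push Not at him
    obtain ⟨a, ha, ha2⟩ := him
    exact gauss_step i φ hR hv hw hchar hφ a ha (fun c => not_lt.2 (ha2 c))

end

end Pool.Agent.P8H21.AKE
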