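import Mathlib

/-!
# The three-sorted language of valued fields and its standard fragments

The sorts are the field `K`, the residue field `k` and the value group with infinity, written multiplicatively and
with the reverse order as the linearly ordered commutative group with zero `Γ` (so `0` is infinity).
-/

set_option autoImplicit false

namespace Pool.Agent.P8H21.AKE

/-- Terms of the field sort; `X` is the set of variables of the field sort. -/
inductive FTm (X : Type) : Type
  /-- a variable -/
  | var (x : X)
  /-- zero -/
  | zero
  /-- one -/
  | one
  /-- addition -/
  | add (s t : FTm X)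
  /-- negation -/
  | neg (s : FTm X)
  /-- multiplication -/
  | mul (s t : FTm X)

/-- Terms of the residue field sort; `X`, `Y` are the sets of variables of the field sort and of the residue field
sort. -/
inductive RTm (X Y : Type) : Type
  /-- a variable -/
  | var (y : Y)
  /-- zero -/
  | zero
  /-- one -/
  | one
  /-- addition -/
  | add (s t : RTm X Y)
  /-- negation -/
  | neg (s : RTm X Y)
  /-- multiplication -/
  | mul (s t : RTm X Y)
  /-- the residue of an element of the field -/
  | res (s : FTm X)

/-- Terms of the value group sort; `X`, `Z` are the sets of variables of the field sort and of the value group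
sort. -/
inductive VTm (X Z : Type) : Type
  /-- a variable -/
  | var (z : Z)
  /-- the neutral element of the value group -/
  | zero
  /-- infinity -/
  | infty
  /-- addition of the value group -/
  | add (s t : VTm X Z)
  /-- negation of the value group -/
  | neg (s : VTm X Z)
  /-- the value of an element of the field -/
  | val (s : FTm X)

/-- Quantifier-free formulas; `X`, `Y`, `Z` are the sets of variables of the field sort, the residue field sort and
the value group sort. -/
inductive QF3 (X Y Z : Type) : Type
  /-- equality in the field sort -/
  | eqF (s t : FTm X)
  /-- equality in the residue field sort -/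
  | eqR (s t : RTm X Y)
  /-- equality in the value group sort -/
  | eqV (s t : VTm X Z)
  /-- `s ≤ t` in the value group sort -/
  | leV (s t : VTm X Z)
  /-- negation -/
  | not (φ : QF3 X Y Z)
  /-- conjunction -/
  | and (φ ψ : QF3 X Y Z)
  /-- disjunction -/
  | or (φ ψ : QF3 X Y Z)

/-- The formulas with `n` alternating blocks of quantifiers, the last one existential, in front of a
quantifier-free formula. The blocks may be empty, and a block may contain variables of all sorts. -/
def Fr3 : ℕ → Type → Type → Type → Type
  | 0, X, Y, Z => QF3 X Y Z
  | n + 1, X, Y, Z => Σ a b c : ℕ, Fr3 n (X ⊕ Fin a) (Y ⊕ Fin b) (Z ⊕ Fin c)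

section

variable {K Γ k : Type*} [Field K] [Field k] [LinearOrderedCommGroupWithZero Γ] (v : Valuation K Γ) (ρ : K → k)
  {X Y Z : Type}

/-- The value of a term of the field sort. -/
def FTm.eval (x : X → K) : FTm X → K
  | var i => x i
  | zero => 0
  | one => 1
  | add s t => s.eval x + t.eval x
  | neg s => - s.eval x
  | mul s t => s.eval x * t.eval x

/-- The value of a term of the residue field sort. -/
def RTm.eval (x : X → K) (y : Y → k) : RTm X Y → k
  | var i => y i
  | zero => 0
  | one => 1
  | add s t => s.eval x y + t.eval x y
  | neg s => - s.eval x y
  | mul s t => s.eval x y * t.eval x y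
  | res s => ρ (s.eval x)

/-- The value of a term of the value group sort (in the multiplicative notation of Mathlib). -/
def VTm.eval (x : X → K) (z : Z → Γ) : VTm X Z → Γ
  | var i => z i
  | zero => 1
  | infty => 0
  | add s t => s.eval x z * t.eval x z
  | neg s => (s.eval x z)⁻¹
  | val s => v (s.eval x)

/-- Truth of a quantifier-free formula. -/
def QF3.Holds (x : X → K) (y : Y → k) (z : Z → Γ) : QF3 X Y Z → Prop
  | eqF s t => s.eval x = t.eval x
  | eqR s t => s.eval ρ x y = t.eval ρ x y
  | eqV s t => s.eval v x z = t.eval v x z
  | leV s t => t.eval v x z ≤ s.eval v x z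
  | not φ => ¬ φ.Holds x y z
  | and φ ψ => φ.Holds x y z ∧ ψ.Holds x y z
  | or φ ψ => φ.Holds x y z ∨ ψ.Holds x y z

/-- Truth of a formula: the `n`-th block, counted from the inside, is existential if `n` is odd and universal if
`n` is even. -/
def Fr3.Holds : (n : ℕ) → {X Y Z : Type} → Fr3 n X Y Z → (X → K) → (Y → k) → (Z → Γ) → Prop
  | 0, _, _, _, φ, x, y, z => QF3.Holds v ρ x y z φ
  | n + 1, _, _, _, ⟨a, b, c, φ⟩, x, y, z =>
    if Odd (n + 1) then
      ∃ (x' : Fin a → K) (y' : Fin b → k) (z' : Fin c → Γ),
        Fr3.Holds n φ (Sum.elim x x') (Sum.elim y y') (Sum.elim z z')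
    else
      ∀ (x' : Fin a → K) (y' : Fin b → k) (z' : Fin c → Γ),
        Fr3.Holds n φ (Sum.elim x x') (Sum.elim y y') (Sum.elim z z')

end

section

variable {K : Type*} [Field K] (O : ValuationSubring K)

open Classical in
/-- The residue of an element of the field; it is zero for the elements outside of the valuation ring. -/
noncomputable def resMap (a : K) : IsLocalRing.ResidueField O :=
  if h : a ∈ O then IsLocalRing.residue O ⟨a, h⟩ else 0

/-- The set of the sentences of the three-sorted language of valued fields with `n` alternating blocks of
quantifiers, the last one existential, which are true in the valued field given by the valuation ring `O`. -/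
def vfThy (n : ℕ) : Set (Fr3 n Empty Empty Empty) :=
  {φ | Fr3.Holds O.valuation (resMap O) n φ Empty.elim Empty.elim Empty.elim}

end

end Pool.Agent.P8H21.AKE
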