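import Pool.Agent.P8H21.AKE.Ultra
import Pool.Agent.P8H21.AKE.Lang3

/-!
# The theorem of Los for the three-sorted language
-/

set_option autoImplicit false

namespace Pool.Agent.P8H21.AKE

open Filter

section

variable {K Γ k : Type*} [Field K] [Field k] [LinearOrderedCommGroupWithZero Γ] (v : Valuation K Γ) (ρ : K → k)

theorem los_f {X : Type} (t : FTm X) (x : X → ℕ → K) :
    t.eval (fun i => (x i : Ul K)) = ((fun N => t.eval (fun i => x i N) : ℕ → K) : Ul K) := by
  induction t with
  | var i => rfl
  | zero => rfl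
  | one => rfl
  | add s t ih1 ih2 => simp only [FTm.eval]; rw [ih1, ih2]; rfl
  | neg s ih => simp only [FTm.eval]; rw [ih]; rfl
  | mul s t ih1 ih2 => simp only [FTm.eval]; rw [ih1, ih2]; rfl

theorem los_r {X Y : Type} (t : RTm X Y) (x : X → ℕ → K) (y : Y → ℕ → k) :
    t.eval (ures ρ) (fun i => (x i : Ul K)) (fun i => (y i : Ul k)) =
      ((fun N => t.eval ρ (fun i => x i N) (fun i => y i N) : ℕ → k) : Ul k) := by
  induction t with
  | var i => rfl
  | zero => rfl
  | one => rfl
  | add s t ih1 ih2 => simp only [RTm.eval]; rw [ih1, ih2]; rfl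
  | neg s ih => simp only [RTm.eval]; rw [ih]; rfl
  | mul s t ih1 ih2 => simp only [RTm.eval]; rw [ih1, ih2]; rfl
  | res s => simp only [RTm.eval]; rw [los_f]; rfl

theorem los_v {X Z : Type} (t : VTm X Z) (x : X → ℕ → K) (z : Z → ℕ → Γ) :
    t.eval (uv v) (fun i => (x i : Ul K)) (fun i => (z i : Ul Γ)) =
      ((fun N => t.eval v (fun i => x i N) (fun i => z i N) : ℕ → Γ) : Ul Γ) := by
  induction t with
  | var i => rfl
  | zero => rfl
  | infty => rfl
  | add s t ih1 ih2 => simp only [VTm.eval]; rw [ih1, ih2]; rfl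
  | neg s ih => simp only [VTm.eval]; rw [ih]; rfl
  | val s => simp only [VTm.eval]; rw [los_f]; rfl

theorem los_qf3 {X Y Z : Type} (φ : QF3 X Y Z) (x : X → ℕ → K) (y : Y → ℕ → k) (z : Z → ℕ → Γ) :
    QF3.Holds (uv v) (ures ρ) (fun i => (x i : Ul K)) (fun i => (y i : Ul k)) (fun i => (z i : Ul Γ)) φ ↔
      ∀ᶠ N in (UU : Filter ℕ), QF3.Holds v ρ (fun i => x i N) (fun i => y i N) (fun i => z i N) φ := by
  induction φ with
  | eqF s t =>
    simp only [QF3.Holds]
    rw [los_f, los_f, Germ.coe_eq]
    rfl
  | eqR s t =>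
    simp only [QF3.Holds]
    rw [los_r, los_r, Germ.coe_eq]
    rfl
  | eqV s t =>
    simp only [QF3.Holds]
    rw [los_v, los_v, Germ.coe_eq]
    rfl
  | leV s t =>
    simp only [QF3.Holds]
    rw [los_v, los_v, Germ.coe_le]
    rfl
  | not φ ih =>
    simp only [QF3.Holds]
    rw [ih, Ultrafilter.eventually_not]
  | and φ ψ ih1 ih2 =>
    simp only [QF3.Holds]
    rw [ih1, ih2, eventually_and]
  | or φ ψ ih1 ih2 =>
    simp only [QF3.Holds]
    rw [ih1, ih2, Ultrafilter.eventually_or]

theorem los_fr3 (n : ℕ) {X Y Z : Type} (φ : Fr3 n X Y Z) (x : X → ℕ → K) (y : Y → ℕ → k) (z : Z → ℕ → Γ) :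
    Fr3.Holds (uv v) (ures ρ) n φ (fun i => (x i : Ul K)) (fun i => (y i : Ul k)) (fun i => (z i : Ul Γ)) ↔
      ∀ᶠ N in (UU : Filter ℕ), Fr3.Holds v ρ n φ (fun i => x i N) (fun i => y i N) (fun i => z i N) := by
  induction n generalizing X Y Z with
  | zero => exact los_qf3 v ρ φ x y z
  | succ n ih =>
    obtain ⟨a, b, c, φ⟩ := φ
    have h1 : ∀ (x' : Fin a → ℕ → K) (y' : Fin b → ℕ → k) (z' : Fin c → ℕ → Γ),
        Fr3.Holds (uv v) (ures ρ) n φ (Sum.elim (fun i => (x i : Ul K)) (fun i => (x' i : Ul K)))
          (Sum.elim (fun i => (y i : Ul k)) (fun i => (y' i : Ul k)))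
          (Sum.elim (fun i => (z i : Ul Γ)) (fun i => (z' i : Ul Γ))) ↔
        ∀ᶠ N in (UU : Filter ℕ), Fr3.Holds v ρ n φ (Sum.elim (fun i => x i N) (fun i => x' i N))
          (Sum.elim (fun i => y i N) (fun i => y' i N)) (Sum.elim (fun i => z i N) (fun i => z' i N)) := by
      intro x' y' z'
      have e1 : (Sum.elim (fun i => (x i : Ul K)) (fun i => (x' i : Ul K))) =
          fun j => ((Sum.elim x x' j : ℕ → K) : Ul K) := by
        funext j
        cases j <;> rfl
      have e2 : (Sum.elim (fun i => (y i : Ul k)) (fun i => (y' i : Ul k))) =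
          fun j => ((Sum.elim y y' j : ℕ → k) : Ul k) := by
        funext j
        cases j <;> rfl
      have e3 : (Sum.elim (fun i => (z i : Ul Γ)) (fun i => (z' i : Ul Γ))) =
          fun j => ((Sum.elim z z' j : ℕ → Γ) : Ul Γ) := by
        funext j
        cases j <;> rfl
      have e4 : ∀ N, (Sum.elim (fun i => x i N) (fun i => x' i N)) = fun j => (Sum.elim x x' j : ℕ → K) N := by
        intro N
        funext j
        cases j <;> rfl
      have e5 : ∀ N, (Sum.elim (fun i => y i N) (fun i => y' i N)) = fun j => (Sum.elim y y' j : ℕ → k) N := by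
        intro N
        funext j
        cases j <;> rfl
      have e6 : ∀ N, (Sum.elim (fun i => z i N) (fun i => z' i N)) = fun j => (Sum.elim z z' j : ℕ → Γ) N := by
        intro N
        funext j
        cases j <;> rfl
      rw [e1, e2, e3, ih]
      simp only [e4, e5, e6]
    simp only [Fr3.Holds]
    split_ifs with hn
    · constructor
      · rintro ⟨x', y', z', h⟩
        choose xx hxx using fun j => rep (x' j)
        choose yy hyy using fun j => rep (y' j)
        choose zz hzz using fun j => rep (z' j)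
        have hx : x' = fun j => (xx j : Ul K) := by funext j; exact (hxx j).symm
        have hy : y' = fun j => (yy j : Ul k) := by funext j; exact (hyy j).symm
        have hz : z' = fun j => (zz j : Ul Γ) := by funext j; exact (hzz j).symm
        rw [hx, hy, hz, h1] at h
        filter_upwards [h] with N hN
        exact ⟨_, _, _, hN⟩
      · intro h
        have h5 : ∀ N, ∃ (x' : Fin a → K) (y' : Fin b → k) (z' : Fin c → Γ),
            (∃ (x' : Fin a → K) (y' : Fin b → k) (z' : Fin c → Γ), Fr3.Holds v ρ n φ
              (Sum.elim (fun i => x i N) x') (Sum.elim (fun i => y i N) y') (Sum.elim (fun i => z i N) z')) →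
            Fr3.Holds v ρ n φ
              (Sum.elim (fun i => x i N) x') (Sum.elim (fun i => y i N) y') (Sum.elim (fun i => z i N) z') := by
          intro N
          by_cases hN : ∃ (x' : Fin a → K) (y' : Fin b → k) (z' : Fin c → Γ), Fr3.Holds v ρ n φ
              (Sum.elim (fun i => x i N) x') (Sum.elim (fun i => y i N) y') (Sum.elim (fun i => z i N) z')
          · obtain ⟨x', y', z', h'⟩ := hN
            exact ⟨x', y', z', fun _ => h'⟩
          · exact ⟨fun _ => 0, fun _ => 0, fun _ => 0, fun h => absurd h hN⟩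
        choose xx yy zz hh using h5
        refine ⟨fun j => ((fun N => xx N j : ℕ → K) : Ul K), fun j => ((fun N => yy N j : ℕ → k) : Ul k),
          fun j => ((fun N => zz N j : ℕ → Γ) : Ul Γ), ?_⟩
        rw [h1]
        filter_upwards [h] with N hN
        exact hh N hN
    · constructor
      · intro h
        by_contra hcon
        rw [← Ultrafilter.eventually_not] at hcon
        have h5 : ∀ N, ∃ (x' : Fin a → K) (y' : Fin b → k) (z' : Fin c → Γ),
            (¬ ∀ (x' : Fin a → K) (y' : Fin b → k) (z' : Fin c → Γ), Fr3.Holds v ρ n φ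
              (Sum.elim (fun i => x i N) x') (Sum.elim (fun i => y i N) y') (Sum.elim (fun i => z i N) z')) →
            ¬ Fr3.Holds v ρ n φ
              (Sum.elim (fun i => x i N) x') (Sum.elim (fun i => y i N) y') (Sum.elim (fun i => z i N) z') := by
          intro N
          by_cases hN : ∀ (x' : Fin a → K) (y' : Fin b → k) (z' : Fin c → Γ), Fr3.Holds v ρ n φ
              (Sum.elim (fun i => x i N) x') (Sum.elim (fun i => y i N) y') (Sum.elim (fun i => z i N) z')
          · exact ⟨fun _ => 0, fun _ => 0, fun _ => 0, fun h => absurd hN h⟩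
          · push Not at hN
            obtain ⟨x', y', z', h'⟩ := hN
            exact ⟨x', y', z', fun _ => h'⟩
        choose xx yy zz hh using h5
        have h6 := h (fun j => ((fun N => xx N j : ℕ → K) : Ul K)) (fun j => ((fun N => yy N j : ℕ → k) : Ul k))
          (fun j => ((fun N => zz N j : ℕ → Γ) : Ul Γ))
        rw [h1] at h6
        obtain ⟨N, hN1, hN2⟩ := (h6.and hcon).exists
        exact hh N hN2 hN1
      · intro h x' y' z'
        choose xx hxx using fun j => rep (x' j)
        choose yy hyy using fun j => rep (y' j)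
        choose zz hzz using fun j => rep (z' j)
        have hx : x' = fun j => (xx j : Ul K) := by funext j; exact (hxx j).symm
        have hy : y' = fun j => (yy j : Ul k) := by funext j; exact (hyy j).symm
        have hz : z' = fun j => (zz j : Ul Γ) := by funext j; exact (hzz j).symm
        rw [hx, hy, hz, h1]
        filter_upwards [h] with N hN
        exact hN _ _ _

/-- Truth of sentences in the ultrapower. -/
theorem los_sentence (n : ℕ) (φ : Fr3 n Empty Empty Empty) :
    Fr3.Holds (uv v) (ures ρ) n φ Empty.elim Empty.elim Empty.elim ↔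
      Fr3.Holds v ρ n φ Empty.elim Empty.elim Empty.elim := by
  have h := los_fr3 v ρ n φ (fun x => x.elim) (fun x => x.elim) (fun x => x.elim)
  refine Iff.trans (iff_of_eq ?_) (h.trans ?_)
  · congr 1 <;> exact Subsingleton.elim _ _
  · have h2 : ∀ N : ℕ, Fr3.Holds v ρ n φ (fun i => ((fun x => x.elim) : Empty → ℕ → K) i N)
        (fun i => ((fun x => x.elim) : Empty → ℕ → k) i N) (fun i => ((fun x => x.elim) : Empty → ℕ → Γ) i N) =
        Fr3.Holds v ρ n φ Empty.elim Empty.elim Empty.elim := by
      intro N
      congr 1 <;> exact Subsingleton.elim _ _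
    simp only [h2, eventually_const]

end

end Pool.Agent.P8H21.AKE
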