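import Pool.Agent.P8H21.AKE.Core
import Pool.Agent.P8H21.AKE.Los3

/-!
# Moves in the game of valued fields, and transfer of truth
-/

set_option autoImplicit false

namespace Pool.Agent.P8H21.AKE

section

variable {Γ Δ k l : Type*} [Field k] [Field l] [LinearOrderedCommGroupWithZero Γ]
    [LinearOrderedCommGroupWithZero Δ]

/-- The pairs generate the graph of an isomorphism of rings. -/
def IsoR (P : Set (k × l)) : Prop := ∀ p ∈ Subring.closure P, (p.1 = 0 ↔ p.2 = 0)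

/-- The closure of a set of pairs in value groups. -/
inductive ClV (P : Set (Γ × Δ)) : Γ × Δ → Prop
  | base (p : Γ × Δ) (h : p ∈ P) : ClV P p
  | zero : ClV P (0, 0)
  | one : ClV P (1, 1)
  | mul (p q : Γ × Δ) (hp : ClV P p) (hq : ClV P q) : ClV P (p * q)
  | inv (p : Γ × Δ) (hp : ClV P p) : ClV P (p.1⁻¹, p.2⁻¹)

/-- The pairs generate the graph of an isomorphism of ordered groups. -/
def IsoV (P : Set (Γ × Δ)) : Prop := ∀ p q, ClV P p → ClV P q → (p.1 ≤ q.1 ↔ p.2 ≤ q.2)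

theorem ClV.mono {P Q : Set (Γ × Δ)} (h : P ⊆ Q) {p : Γ × Δ} (hp : ClV P p) : ClV Q p := by
  induction hp with
  | base p hp => exact ClV.base p (h hp)
  | zero => exact ClV.zero
  | one => exact ClV.one
  | mul p q _ _ ih1 ih2 => exact ClV.mul p q ih1 ih2
  | inv p _ ih => exact ClV.inv p ih

theorem ClV.swap {P : Set (Γ × Δ)} {p : Δ × Γ} (hp : ClV (Prod.swap ⁻¹' P) p) : ClV P p.swap := by
  induction hp with
  | base p hp => exact ClV.base _ hp
  | zero => exact ClV.zero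
  | one => exact ClV.one
  | mul p q _ _ ih1 ih2 => exact ClV.mul _ _ ih1 ih2
  | inv p _ ih => exact ClV.inv _ ih

theorem isoV_swap {P : Set (Γ × Δ)} (h : IsoV P) : IsoV (Prod.swap ⁻¹' P) :=
  fun _ _ hp hq => (h _ _ hp.swap hq.swap).symm

theorem goodV_of {P : Set (Γ × Δ)} (h : IsoV P) : GoodV {p | ClV P p} :=
  ⟨ClV.zero, ClV.one, fun p hp q hq => ClV.mul p q hp hq, fun p hp => ClV.inv p hp, fun p hp q hq => h p q hp hq⟩

theorem closure_swap {P : Set (k × l)} {p : l × k} (hp : p ∈ Subring.closure (Prod.swap ⁻¹' P)) :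
    p.swap ∈ Subring.closure P := by
  have h1 : Subring.closure (Prod.swap ⁻¹' P) ≤
      (Subring.closure P).comap (RingEquiv.prodComm : l × k ≃+* k × l).toRingHom := by
    rw [Subring.closure_le]
    intro q hq
    exact Subring.subset_closure hq
  exact h1 hp

theorem isoR_swap {P : Set (k × l)} (h : IsoR P) : IsoR (Prod.swap ⁻¹' P) :=
  fun _ hp => (h _ (closure_swap hp)).symm

theorem game_iso {A B : Type*} (Iso : Set (A × B) → Prop) (hmono : ∀ P P', P ⊆ P' → Iso P' → Iso P) (n : ℕ)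
    (P : Set (A × B)) (h : Game Iso n P) : Iso P := by
  induction n generalizing P with
  | zero => exact h
  | succ n ih =>
    unfold Game at h
    split_ifs at h
    · obtain ⟨P', h1, _, _, h2⟩ := h ∅ Set.countable_empty
      exact hmono P P' h1 (ih P' h2)
    · obtain ⟨P', h1, _, _, h2⟩ := h ∅ Set.countable_empty
      exact hmono P P' h1 (ih P' h2)

theorem isoV_mono (P P' : Set (Γ × Δ)) (h : P ⊆ P') (h' : IsoV P') : IsoV P :=
  fun p q hp hq => h' p q (hp.mono h) (hq.mono h)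

theorem isoR_mono (P P' : Set (k × l)) (h : P ⊆ P') (h' : IsoR P') : IsoR P :=
  fun p hp => h' p (Subring.closure_mono h hp)

end

section

variable {K Γ k : Type*} [Field K] [Field k] [LinearOrderedCommGroupWithZero Γ]

/-- A saturated henselian valued field of residue characteristic zero with an angular component map. -/
structure VFA (v : Valuation K Γ) (ρ : K → k) (ac : K → k) : Prop where
  vf : IsVF v ρ
  isac : IsAC v ac
  hu : ∀ x, v x = 1 → ac x = ρ x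
  surj : ∀ δ : Γ, δ ≠ 0 → ∀ β : k, β ≠ 0 → ∃ y, v y = δ ∧ ac y = β
  sat : SatP v

end

section

variable {K L Γ Δ k l : Type*} [Field K] [Field L] [Field k] [Field l] [LinearOrderedCommGroupWithZero Γ]
    [LinearOrderedCommGroupWithZero Δ] {v : Valuation K Γ} {w : Valuation L Δ} {ρ ac : K → k} {ρ' ac' : L → l}

/-- The positions of the game. -/
structure Inv (v : Valuation K Γ) (w : Valuation L Δ) (ac : K → k) (ac' : L → l) (n : ℕ) (G : Subring (K × L))
    (QR : Set (k × l)) (QV : Set (Γ × Δ)) : Prop where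
  cnt : (G : Set (K × L)).Countable
  gR : Game IsoR n QR
  gV : Game IsoV n QV
  val : ∀ p ∈ G, ClV QV (v p.1, w p.2)
  acc : ∀ p ∈ G, (ac p.1, ac' p.2) ∈ Subring.closure QR

theorem ext_map (hK : VFA v ρ ac) (hL : VFA w ρ' ac') (G : Subring (K × L)) (QR : Set (k × l))
    (QV : Set (Γ × Δ)) (hR : IsoR QR) (hV : IsoV QV) (hval : ∀ p ∈ G, ClV QV (v p.1, w p.2))
    (hacc : ∀ p ∈ G, (ac p.1, ac' p.2) ∈ Subring.closure QR)
    (A : Subfield K) (hAc : Countable A) (hA : ∀ x : K, IsAlgebraic A x → x ∈ A)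
    (hAG : ∀ p ∈ G, p.1 ∈ A)
    (hAV : ∀ a ∈ A, ∃ δ, (v a, δ) ∈ QV) (hAR : ∀ a ∈ A, ∃ β, (ac a, β) ∈ QR) :
    ∃ G' : Subring (K × L), G ≤ G' ∧ (G' : Set (K × L)).Countable ∧ (∀ p ∈ G', ClV QV (v p.1, w p.2)) ∧
      (∀ p ∈ G', (ac p.1, ac' p.2) ∈ Subring.closure QR) ∧ ∀ a ∈ A, ∃ b, (a, b) ∈ G' := by
  obtain ⟨G', h1, h2, h3, h4⟩ := core hK.isac hL.isac (nh_of_h2 hK.vf.h2) (nh_of_h2 hL.vf.h2) hK.vf.char hL.sat
    hL.surj {p | ClV QV p} (goodV_of hV) (Subring.closure QR) hR A hAc hA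
    (fun a ha => (hAV a ha).imp fun δ h => ClV.base _ h) (fun a ha => (hAR a ha).imp fun β h =>
      Subring.subset_closure h) G (fun p hp => ⟨hAG p hp, hval p hp, hacc p hp⟩)
  exact ⟨G', h1, h2, fun p hp => (h3 p hp).1, fun p hp => (h3 p hp).2, h4⟩

theorem step_odd (hK : VFA v ρ ac) (hL : VFA w ρ' ac') (n : ℕ) (hn : Odd (n + 1)) (G : Subring (K × L))
    (QR : Set (k × l)) (QV : Set (Γ × Δ)) (hI : Inv v w ac ac' (n + 1) G QR QV) (CK : Set K) (hCK : CK.Countable)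
    (CR : Set k) (hCR : CR.Countable) (CV : Set Γ) (hCV : CV.Countable) :
    ∃ (G' : Subring (K × L)) (QR' : Set (k × l)) (QV' : Set (Γ × Δ)), G ≤ G' ∧ QR ⊆ QR' ∧ QV ⊆ QV' ∧
      Inv v w ac ac' n G' QR' QV' ∧ (∀ a ∈ CK, ∃ b, (a, b) ∈ G') ∧ (∀ c ∈ CR, ∃ d, (c, d) ∈ QR') ∧
      ∀ c ∈ CV, ∃ d, (c, d) ∈ QV' := by
  obtain ⟨A, hAc, hSA, hA⟩ := exists_countable_closed (Prod.fst '' (G : Set (K × L)) ∪ CK)
    ((hI.cnt.image _).union hCK)
  have hAc' : (A : Set K).Countable := hAc.to_set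
  have hgR := hI.gR
  have hgV := hI.gV
  unfold Game at hgR hgV
  rw [if_pos hn] at hgR hgV
  obtain ⟨QR', hR1, hR2, hR3, hR4⟩ := hgR (CR ∪ ac '' A) (hCR.union (hAc'.image _))
  obtain ⟨QV', hV1, hV2, hV3, hV4⟩ := hgV (CV ∪ v '' A) (hCV.union (hAc'.image _))
  obtain ⟨G', h1, h2, h3, h4, h5⟩ := ext_map hK hL G QR' QV' (game_iso IsoR isoR_mono n _ hR4)
    (game_iso IsoV isoV_mono n _ hV4) (fun p hp => (hI.val p hp).mono hV1)
    (fun p hp => Subring.closure_mono hR1 (hI.acc p hp)) A hAc hA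
    (fun p hp => hSA (Or.inl ⟨p, hp, rfl⟩)) (fun a ha => hV3 _ (Or.inr ⟨a, ha, rfl⟩))
    (fun a ha => hR3 _ (Or.inr ⟨a, ha, rfl⟩))
  exact ⟨G', QR', QV', h1, hR1, hV1, ⟨h2, hR4, hV4, h3, h4⟩, fun a ha => h5 a (hSA (Or.inr ha)),
    fun c hc => hR3 c (Or.inl hc), fun c hc => hV3 c (Or.inl hc)⟩

theorem step_even (hK : VFA v ρ ac) (hL : VFA w ρ' ac') (n : ℕ) (hn : ¬ Odd (n + 1)) (G : Subring (K × L))
    (QR : Set (k × l)) (QV : Set (Γ × Δ)) (hI : Inv v w ac ac' (n + 1) G QR QV) (CL : Set L) (hCL : CL.Countable)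
    (CR : Set l) (hCR : CR.Countable) (CV : Set Δ) (hCV : CV.Countable) :
    ∃ (G' : Subring (K × L)) (QR' : Set (k × l)) (QV' : Set (Γ × Δ)), G ≤ G' ∧ QR ⊆ QR' ∧ QV ⊆ QV' ∧
      Inv v w ac ac' n G' QR' QV' ∧ (∀ b ∈ CL, ∃ a, (a, b) ∈ G') ∧ (∀ d ∈ CR, ∃ c, (c, d) ∈ QR') ∧
      ∀ d ∈ CV, ∃ c, (c, d) ∈ QV' := by
  obtain ⟨A, hAc, hSA, hA⟩ := exists_countable_closed (Prod.snd '' (G : Set (K × L)) ∪ CL)
    ((hI.cnt.image _).union hCL)
  have hAc' : (A : Set L).Countable := hAc.to_set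
  have hgR := hI.gR
  have hgV := hI.gV
  unfold Game at hgR hgV
  rw [if_neg hn] at hgR hgV
  obtain ⟨QR', hR1, hR2, hR3, hR4⟩ := hgR (CR ∪ ac' '' A) (hCR.union (hAc'.image _))
  obtain ⟨QV', hV1, hV2, hV3, hV4⟩ := hgV (CV ∪ w '' A) (hCV.union (hAc'.image _))
  let e : L × K →+* K × L := (RingEquiv.prodComm : L × K ≃+* K × L).toRingHom
  have he : ∀ p, e p = p.swap := fun p => rfl
  have hcl : ∀ {p : k × l}, p ∈ Subring.closure QR' → p.swap ∈ Subring.closure (Prod.swap ⁻¹' QR') := by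
    intro p hp
    apply closure_swap
    rw [← Set.preimage_comp, Prod.swap_swap_eq, Set.preimage_id]
    exact hp
  have hclV : ∀ {p : Γ × Δ}, ClV QV' p → ClV (Prod.swap ⁻¹' QV') p.swap := by
    intro p hp
    apply ClV.swap
    rw [← Set.preimage_comp, Prod.swap_swap_eq, Set.preimage_id]
    exact hp
  obtain ⟨G', h1, h2, h3, h4, h5⟩ := ext_map hL hK (G.comap e) (Prod.swap ⁻¹' QR') (Prod.swap ⁻¹' QV')
    (isoR_swap (game_iso IsoR isoR_mono n _ hR4)) (isoV_swap (game_iso IsoV isoV_mono n _ hV4))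
    (fun p hp => hclV ((hI.val _ hp).mono hV1))
    (fun p hp => hcl (Subring.closure_mono hR1 (hI.acc _ hp))) A hAc hA
    (fun p hp => hSA (Or.inl ⟨e p, hp, rfl⟩)) (fun a ha => hV3 _ (Or.inr ⟨a, ha, rfl⟩))
    (fun a ha => hR3 _ (Or.inr ⟨a, ha, rfl⟩))
  refine ⟨G'.map e, QR', QV', ?_, hR1, hV1, ⟨?_, hR4, hV4, ?_, ?_⟩, ?_,
    fun c hc => hR3 c (Or.inl hc), fun c hc => hV3 c (Or.inl hc)⟩
  · intro p hp
    exact ⟨p.swap, h1 (show e p.swap ∈ G by rw [he, Prod.swap_swap]; exact hp), by rw [he, Prod.swap_swap]⟩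
  · exact h2.image _
  · rintro _ ⟨p, hp, rfl⟩
    exact (h3 p hp).swap
  · rintro _ ⟨p, hp, rfl⟩
    exact closure_swap (h4 p hp)
  · intro b hb
    obtain ⟨a, ha⟩ := h5 b (hSA (Or.inr hb))
    exact ⟨a, (b, a), ha, rfl⟩

/-! ### Transfer of truth -/

theorem f_mem (G : Subring (K × L)) {X : Type} (x : X → K) (x' : X → L) (hx : ∀ i, (x i, x' i) ∈ G) (t : FTm X) :
    (t.eval x, t.eval x') ∈ G := by
  induction t with
  | var i => exact hx i
  | zero => exact G.zero_mem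
  | one => exact G.one_mem
  | add s t ih1 ih2 => exact G.add_mem ih1 ih2
  | neg s ih => exact G.neg_mem ih
  | mul s t ih1 ih2 => exact G.mul_mem ih1 ih2

theorem res_mem (hK : VFA v ρ ac) (hL : VFA w ρ' ac') (QR : Set (k × l)) (QV : Set (Γ × Δ)) (hV : IsoV QV)
    (p : K × L) (h1 : ClV QV (v p.1, w p.2)) (h2 : (ac p.1, ac' p.2) ∈ Subring.closure QR) :
    (ρ p.1, ρ' p.2) ∈ Subring.closure QR := by
  have e1 : v p.1 ≤ 1 ↔ w p.2 ≤ 1 := hV _ _ h1 ClV.one
  have e2 : 1 ≤ v p.1 ↔ 1 ≤ w p.2 := hV _ _ ClV.one h1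
  by_cases ha : v p.1 ≤ 1
  · by_cases hb : 1 ≤ v p.1
    · have h3 := le_antisymm ha hb
      have h4 := le_antisymm (e1.1 ha) (e2.1 hb)
      rw [← hK.hu _ h3, ← hL.hu _ h4]
      exact h2
    · have h3 : ρ p.1 = 0 := (hK.vf.zero_iff _ ha).2 (not_le.1 hb)
      have h4 : ρ' p.2 = 0 := (hL.vf.zero_iff _ (e1.1 ha)).2 (not_le.1 (fun h => hb (e2.2 h)))
      rw [h3, h4]
      exact Subring.zero_mem _
  · have h3 : ρ p.1 = 0 := hK.vf.out _ (not_le.1 ha)
    have h4 : ρ' p.2 = 0 := hL.vf.out _ (not_le.1 (fun h => ha (e1.2 h)))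
    rw [h3, h4]
    exact Subring.zero_mem _

theorem qf_iff (hK : VFA v ρ ac) (hL : VFA w ρ' ac') (n : ℕ) (G : Subring (K × L)) (QR : Set (k × l))
    (QV : Set (Γ × Δ)) (hI : Inv v w ac ac' n G QR QV) {X Y Z : Type} (x : X → K) (x' : X → L) (y : Y → k)
    (y' : Y → l) (z : Z → Γ) (z' : Z → Δ) (hx : ∀ i, (x i, x' i) ∈ G)
    (hy : ∀ i, (y i, y' i) ∈ Subring.closure QR) (hz : ∀ i, ClV QV (z i, z' i)) (φ : QF3 X Y Z) :
    QF3.Holds v ρ x y z φ ↔ QF3.Holds w ρ' x' y' z' φ := by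
  have hV : IsoV QV := game_iso IsoV isoV_mono n _ hI.gV
  have hR : IsoR QR := game_iso IsoR isoR_mono n _ hI.gR
  have hf := f_mem G x x' hx
  have hr : ∀ t : RTm X Y, (t.eval ρ x y, t.eval ρ' x' y') ∈ Subring.closure QR := by
    intro t
    induction t with
    | var i => exact hy i
    | zero => exact Subring.zero_mem _
    | one => exact Subring.one_mem _
    | add s t ih1 ih2 => exact Subring.add_mem _ ih1 ih2
    | neg s ih => exact Subring.neg_mem _ ih
    | mul s t ih1 ih2 => exact Subring.mul_mem _ ih1 ih2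
    | res s => exact res_mem hK hL QR QV hV _ (hI.val _ (hf s)) (hI.acc _ (hf s))
  have hv : ∀ t : VTm X Z, ClV QV (t.eval v x z, t.eval w x' z') := by
    intro t
    induction t with
    | var i => exact hz i
    | zero => exact ClV.one
    | infty => exact ClV.zero
    | add s t ih1 ih2 => exact ClV.mul _ _ ih1 ih2
    | neg s ih => exact ClV.inv _ ih
    | val s => exact hI.val _ (hf s)
  induction φ with
  | eqF s t =>
    simp only [QF3.Holds]
    have h1 := hI.val _ (G.sub_mem (hf s) (hf t))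
    have h2 := hV _ _ h1 ClV.zero
    simp only [Prod.mk_sub_mk, le_zero_iff, Valuation.zero_iff, sub_eq_zero] at h2
    exact h2
  | eqR s t =>
    simp only [QF3.Holds]
    have h1 := hR _ (Subring.sub_mem _ (hr s) (hr t))
    simp only [Prod.mk_sub_mk, sub_eq_zero] at h1
    exact h1
  | eqV s t =>
    simp only [QF3.Holds]
    rw [le_antisymm_iff, le_antisymm_iff]
    exact and_congr (hV _ _ (hv s) (hv t)) (hV _ _ (hv t) (hv s))
  | leV s t =>
    simp only [QF3.Holds]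
    exact hV _ _ (hv t) (hv s)
  | not φ ih => exact not_congr ih
  | and φ ψ ih1 ih2 => exact and_congr ih1 ih2
  | or φ ψ ih1 ih2 => exact or_congr ih1 ih2

theorem transfer (hK : VFA v ρ ac) (hL : VFA w ρ' ac') (n : ℕ) (G : Subring (K × L)) (QR : Set (k × l))
    (QV : Set (Γ × Δ)) (hI : Inv v w ac ac' n G QR QV) {X Y Z : Type} (x : X → K) (x' : X → L) (y : Y → k)
    (y' : Y → l) (z : Z → Γ) (z' : Z → Δ) (hx : ∀ i, (x i, x' i) ∈ G)
    (hy : ∀ i, (y i, y' i) ∈ Subring.closure QR) (hz : ∀ i, ClV QV (z i, z' i)) (φ : Fr3 n X Y Z)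
    (h : Fr3.Holds v ρ n φ x y z) : Fr3.Holds w ρ' n φ x' y' z' := by
  induction n generalizing G QR QV X Y Z with
  | zero => exact (qf_iff hK hL 0 G QR QV hI x x' y y' z z' hx hy hz φ).1 h
  | succ n ih =>
    obtain ⟨a, b, c, φ⟩ := φ
    simp only [Fr3.Holds] at h ⊢
    split_ifs at h ⊢ with hn
    · obtain ⟨x1, y1, z1, h⟩ := h
      obtain ⟨G', QR', QV', hG, hR, hV, hI', h1, h2, h3⟩ := step_odd hK hL n hn G QR QV hI (Set.range x1)
        (Set.countable_range _) (Set.range y1) (Set.countable_range _) (Set.range z1) (Set.countable_range _)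
      choose x2 hx2 using fun i => h1 (x1 i) ⟨i, rfl⟩
      choose y2 hy2 using fun i => h2 (y1 i) ⟨i, rfl⟩
      choose z2 hz2 using fun i => h3 (z1 i) ⟨i, rfl⟩
      refine ⟨x2, y2, z2, ih G' QR' QV' hI' _ _ _ _ _ _ ?_ ?_ ?_ φ h⟩
      · rintro (i | i)
        · exact hG (hx i)
        · exact hx2 i
      · rintro (i | i)
        · exact Subring.closure_mono hR (hy i)
        · exact Subring.subset_closure (hy2 i)
      · rintro (i | i)
        · exact (hz i).mono hV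
        · exact ClV.base _ (hz2 i)
    · intro x1 y1 z1
      obtain ⟨G', QR', QV', hG, hR, hV, hI', h1, h2, h3⟩ := step_even hK hL n hn G QR QV hI (Set.range x1)
        (Set.countable_range _) (Set.range y1) (Set.countable_range _) (Set.range z1) (Set.countable_range _)
      choose x2 hx2 using fun i => h1 (x1 i) ⟨i, rfl⟩
      choose y2 hy2 using fun i => h2 (y1 i) ⟨i, rfl⟩
      choose z2 hz2 using fun i => h3 (z1 i) ⟨i, rfl⟩
      refine ih G' QR' QV' hI' _ _ _ _ _ _ ?_ ?_ ?_ φ (h x2 y2 z2)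
      · rintro (i | i)
        · exact hG (hx i)
        · exact hx2 i
      · rintro (i | i)
        · exact Subring.closure_mono hR (hy i)
        · exact Subring.subset_closure (hy2 i)
      · rintro (i | i)
        · exact (hz i).mono hV
        · exact ClV.base _ (hz2 i)

end

end Pool.Agent.P8H21.AKE
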