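import Mathlib

/-!
# Newton approximation in valued fields

`NH v`: the form of Hensel's lemma used in the embedding theorem.
-/

set_option autoImplicit false

namespace Pool.Agent.P8H21.AKE

open Polynomial

section

variable {K Γ : Type*} [Field K] [LinearOrderedCommGroupWithZero Γ] (v : Valuation K Γ)

/-- The Newton form of Hensel's lemma. -/
def NH : Prop := ∀ (P : K[X]) (b : K), P.derivative.eval b ≠ 0 →
  (∀ j, 2 ≤ j → v ((taylor b P).coeff j) * v (P.eval b) ^ (j - 1) < v (P.derivative.eval b) ^ j) →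
  ∃ r, P.eval r = 0 ∧ v (r - b) * v (P.derivative.eval b) ≤ v (P.eval b)

/-- Hensel's lemma for polynomials `1 + z + c_2 z ^ 2 + ...` with small `c_j`. -/
def H2 : Prop := ∀ (n : ℕ) (c : ℕ → K), (∀ j, v (c j) < 1) →
  ∃ z, v z ≤ 1 ∧ 1 + z + ∑ j ∈ Finset.range n, c j * z ^ (j + 2) = 0

theorem v_nat (n : ℕ) : v (n : K) ≤ 1 := by
  induction n with
  | zero => simp
  | succ n ih => rw [Nat.cast_succ]; exact Valuation.map_add_le v ih (by simp)

theorem eval_taylor (P : K[X]) (b z : K) (n : ℕ) (hn : P.natDegree < n) :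
    P.eval z = ∑ j ∈ Finset.range n, (taylor b P).coeff j * (z - b) ^ j := by
  rw [← taylor_eval_sub b P z, eval_eq_sum_range' (by rwa [natDegree_taylor])]

theorem eval_taylor1 (P : K[X]) (b z : K) : P.eval z = P.eval b +
    ∑ j ∈ Finset.range P.natDegree, (taylor b P).coeff (j + 1) * (z - b) ^ (j + 1) := by
  rw [eval_taylor P b z (P.natDegree + 1) (by omega), Finset.sum_range_succ']
  simp only [taylor_coeff_zero, pow_zero, mul_one]
  rw [add_comm]

theorem eval_taylor2 (P : K[X]) (b z : K) : P.eval z = P.eval b + P.derivative.eval b * (z - b) +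
    ∑ j ∈ Finset.range P.natDegree, (taylor b P).coeff (j + 2) * (z - b) ^ (j + 2) := by
  rw [eval_taylor P b z (P.natDegree + 2) (by omega), Finset.sum_range_succ', Finset.sum_range_succ']
  simp only [taylor_coeff_zero, pow_zero, mul_one, zero_add, taylor_coeff_one, pow_one]
  ring

variable {v}

theorem taylor_close (P : K[X]) (b z : K) (h0 : P.eval b ≠ 0)
    (h : ∀ j, 1 ≤ j → v ((taylor b P).coeff j) * v (z - b) ^ j < v (P.eval b)) :
    v (P.eval z - P.eval b) < v (P.eval b) := by
  rw [eval_taylor1 P b z, add_sub_cancel_left]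
  apply Valuation.map_sum_lt v ((Valuation.ne_zero_iff v).2 h0)
  intro j _
  rw [map_mul, map_pow]
  exact h (j + 1) (by omega)

theorem nh_of_h2 (h : H2 v) : NH v := by
  intro P b h1 hj
  by_cases h0 : P.eval b = 0
  · exact ⟨b, h0, by simp⟩
  set q := P.derivative.eval b with hq
  set p := P.eval b with hp
  have hvq : v q ≠ 0 := (Valuation.ne_zero_iff v).2 h1
  have hvp : v p ≠ 0 := (Valuation.ne_zero_iff v).2 h0
  -- the small coefficients
  obtain ⟨z, hz, hz0⟩ := h P.natDegree (fun j => (taylor b P).coeff (j + 2) * p ^ (j + 1) / q ^ (j + 2)) (by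
    intro j
    have := hj (j + 2) (by omega)
    rw [map_div₀, map_mul, map_pow, map_pow, div_lt_one₀ (pow_pos (zero_lt_iff.2 hvq) _)]
    simpa using this)
  refine ⟨b + p / q * z, ?_, ?_⟩
  · rw [eval_taylor2 P b]
    rw [add_sub_cancel_left]
    have : p * (1 + z + ∑ j ∈ Finset.range P.natDegree,
        (taylor b P).coeff (j + 2) * p ^ (j + 1) / q ^ (j + 2) * z ^ (j + 2)) = 0 := by
      rw [hz0, mul_zero]
    rw [← this, mul_add, mul_add, mul_one, ← hp, ← hq, Finset.mul_sum]
    congr 1
    · field_simp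
    · apply Finset.sum_congr rfl
      intro j _
      rw [mul_pow, div_pow]
      ring
  · rw [add_sub_cancel_left, map_mul, map_div₀]
    calc v p / v q * v z * v q = v p * v z := by field_simp
      _ ≤ v p * 1 := by gcongr
      _ = v p := mul_one _

/-- A root near a Gauss point. -/
theorem gauss_root (h : NH v) (P : K[X]) (a : K) (ha : a ≠ 0) (n : ℕ)
    (h1 : ∀ i, v (P.coeff i) * v a ^ i ≤ v a ^ n) (h2 : v (P.eval a) < v a ^ n)
    (h3 : v (P.derivative.eval a) * v a = v a ^ n) : ∃ r, P.eval r = 0 ∧ v (r - a) < v a := by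
  have hva : v a ≠ 0 := (Valuation.ne_zero_iff v).2 ha
  have hva' : 0 < v a := zero_lt_iff.2 hva
  have hd : P.derivative.eval a ≠ 0 := by
    intro h0
    rw [h0, map_zero, zero_mul] at h3
    exact pow_ne_zero n hva h3.symm
  have hvd : 0 < v (P.derivative.eval a) := zero_lt_iff.2 ((Valuation.ne_zero_iff v).2 hd)
  have hc : ∀ j, v ((taylor a P).coeff j) * v a ^ j ≤ v a ^ n := by
    intro j
    rw [taylor_coeff, ← map_pow, ← map_mul, hasseDeriv_apply, Polynomial.sum_def, eval_finsetSum,
      Finset.sum_mul]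
    apply Valuation.map_sum_le
    intro i hi
    rw [eval_monomial, map_mul, map_mul, map_mul, map_pow, map_pow]
    by_cases hij : j ≤ i
    · calc v ((i.choose j : K)) * v (P.coeff i) * v a ^ (i - j) * v a ^ j
          = v ((i.choose j : K)) * (v (P.coeff i) * v a ^ i) := by
            rw [mul_assoc, ← pow_add, Nat.sub_add_cancel hij, mul_assoc]
        _ ≤ 1 * v a ^ n := by
            gcongr
            · exact v_nat v _
            · exact h1 i
        _ = v a ^ n := one_mul _
    · rw [Nat.choose_eq_zero_of_lt (by omega)]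
      simp
  obtain ⟨r, hr, hr2⟩ := h P a hd (by
    intro j hj
    have key : v ((taylor a P).coeff j) * v (P.eval a) ^ (j - 1) * v a ^ j <
        v (P.derivative.eval a) ^ j * v a ^ j := by
      rw [← mul_pow, h3]
      calc v ((taylor a P).coeff j) * v (P.eval a) ^ (j - 1) * v a ^ j
          = (v ((taylor a P).coeff j) * v a ^ j) * v (P.eval a) ^ (j - 1) := mul_right_comm _ _ _
        _ ≤ v a ^ n * v (P.eval a) ^ (j - 1) := by gcongr; exact hc j
        _ < v a ^ n * (v a ^ n) ^ (j - 1) := by
            apply mul_lt_mul_of_pos_left _ (pow_pos hva' n)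
            exact pow_lt_pow_left₀ h2 zero_le (by omega)
        _ = (v a ^ n) ^ j := by
            rw [← pow_succ', Nat.sub_add_cancel (by omega)]
    exact lt_of_mul_lt_mul_right key zero_le)
  refine ⟨r, hr, ?_⟩
  have : v (r - a) * v (P.derivative.eval a) < v a * v (P.derivative.eval a) := by
    refine lt_of_le_of_lt hr2 ?_
    rw [mul_comm (v a), h3]
    exact h2
  exact lt_of_mul_lt_mul_right this zero_le

/-- A root near a point of approximation. -/
theorem newton_root (h : NH v) (P : K[X]) (b : K) (ρ : Γ) (hd : P.derivative.eval b ≠ 0)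
    (h1 : v (P.eval b) ≤ v (P.derivative.eval b) * ρ)
    (h2 : ∀ j, 2 ≤ j → v ((taylor b P).coeff j) * ρ ^ (j - 1) < v (P.derivative.eval b)) :
    ∃ r, P.eval r = 0 ∧ v (r - b) ≤ ρ := by
  have hvd : 0 < v (P.derivative.eval b) := zero_lt_iff.2 ((Valuation.ne_zero_iff v).2 hd)
  obtain ⟨r, hr, hr2⟩ := h P b hd (by
    intro j hj
    calc v ((taylor b P).coeff j) * v (P.eval b) ^ (j - 1)
        ≤ v ((taylor b P).coeff j) * (v (P.derivative.eval b) * ρ) ^ (j - 1) := by gcongr
      _ = (v ((taylor b P).coeff j) * ρ ^ (j - 1)) * v (P.derivative.eval b) ^ (j - 1) := by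
          rw [mul_pow, mul_comm (v (P.derivative.eval b) ^ (j - 1)), mul_assoc]
      _ < v (P.derivative.eval b) * v (P.derivative.eval b) ^ (j - 1) := by
          apply mul_lt_mul_of_pos_right (h2 j hj) (pow_pos hvd _)
      _ = v (P.derivative.eval b) ^ j := by rw [← pow_succ', Nat.sub_add_cancel (by omega)])
  refine ⟨r, hr, ?_⟩
  have : v (r - b) * v (P.derivative.eval b) ≤ ρ * v (P.derivative.eval b) := by
    refine hr2.trans ?_
    rw [mul_comm ρ]
    exact h1
  exact le_of_mul_le_mul_right this hvd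

/-- The distance of a root to a nearby point. -/
theorem root_dist (P : K[X]) (b r : K) (ρ : Γ) (hr : P.eval r = 0) (hrb : v (r - b) ≤ ρ)
    (hd : P.derivative.eval b ≠ 0)
    (h2 : ∀ j, 2 ≤ j → v ((taylor b P).coeff j) * ρ ^ (j - 1) < v (P.derivative.eval b)) :
    v (P.eval b) = v (P.derivative.eval b) * v (r - b) := by
  have hvd : 0 < v (P.derivative.eval b) := zero_lt_iff.2 ((Valuation.ne_zero_iff v).2 hd)
  by_cases h0 : r = b
  · subst h0
    simp [hr]
  have hrb0 : 0 < v (r - b) := zero_lt_iff.2 ((Valuation.ne_zero_iff v).2 (sub_ne_zero.2 h0))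
  have h3 := eval_taylor2 P b r
  rw [hr] at h3
  have h4 : v (∑ j ∈ Finset.range P.natDegree, (taylor b P).coeff (j + 2) * (r - b) ^ (j + 2)) <
      v (P.derivative.eval b * (r - b)) := by
    apply Valuation.map_sum_lt
    · rw [map_mul]
      exact (mul_pos hvd hrb0).ne'
    · intro j _
      rw [map_mul, map_mul, map_pow]
      calc v ((taylor b P).coeff (j + 2)) * v (r - b) ^ (j + 2)
          = (v ((taylor b P).coeff (j + 2)) * v (r - b) ^ (j + 1)) * v (r - b) := by
            rw [mul_assoc, ← pow_succ]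
        _ ≤ (v ((taylor b P).coeff (j + 2)) * ρ ^ (j + 1)) * v (r - b) := by gcongr
        _ < v (P.derivative.eval b) * v (r - b) := by
            apply mul_lt_mul_of_pos_right _ hrb0
            simpa using h2 (j + 2) (by omega)
  have h5 : P.eval b = -(P.derivative.eval b * (r - b) +
      ∑ j ∈ Finset.range P.natDegree, (taylor b P).coeff (j + 2) * (r - b) ^ (j + 2)) := by
    linear_combination -h3
  rw [h5, Valuation.map_neg, Valuation.map_add_eq_of_lt_left v h4, map_mul]

end

end Pool.Agent.P8H21.AKE
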