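import Pool.Agent.P8H21.AKE.AC

/-!
# Ultrapowers of valued fields
-/

set_option autoImplicit false

namespace Pool.Agent.P8H21.AKE

open Filter

/-- The ultrafilter. -/
noncomputable abbrev UU : Ultrafilter ℕ := hyperfilter ℕ

/-- The ultrapower. -/
abbrev Ul (M : Type*) : Type _ := Germ (UU : Filter ℕ) M

theorem rep {M : Type*} (a : Ul M) : ∃ f : ℕ → M, (f : Ul M) = a := Quotient.exists_rep a

theorem ev_large (n : ℕ) : ∀ᶠ N in (UU : Filter ℕ), n ≤ N := by
  have h : ∀ᶠ N in (cofinite : Filter ℕ), n ≤ N := by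
    rw [Nat.cofinite_eq_atTop]
    exact eventually_ge_atTop n
  exact h.filter_mono (hyperfilter_le_cofinite)

/-- Countable saturation. -/
theorem germ_sat {T : Type*} [Nonempty T] (S : ℕ → ℕ → Set T)
    (h : ∀ M, ∀ᶠ N in (UU : Filter ℕ), ∃ y, ∀ j < M, y ∈ S j N) :
    ∃ y : ℕ → T, ∀ j, ∀ᶠ N in (UU : Filter ℕ), y N ∈ S j N := by
  classical
  -- the largest number of conditions which can be satisfied at N, among the first N
  let P : ℕ → ℕ → Prop := fun N k => ∃ y, ∀ j < k, y ∈ S j N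
  have hP0 : ∀ N, P N 0 := fun N => ⟨Classical.arbitrary T, fun j hj => absurd hj (by omega)⟩
  let g : ℕ → ℕ := fun N => Nat.findGreatest (P N) N
  have hg : ∀ N, P N (g N) := fun N => Nat.findGreatest_spec (P := P N) (Nat.zero_le N) (hP0 N)
  choose y hy using hg
  refine ⟨y, fun j => ?_⟩
  filter_upwards [h (j + 1), ev_large (j + 1)] with N h1 h2
  apply hy N j
  exact Nat.lt_of_succ_le (Nat.le_findGreatest (P := P N) h2 h1)

section

variable {Γ : Type*} [LinearOrderedCommGroupWithZero Γ]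

noncomputable instance : LinearOrderedCommGroupWithZero (Ul Γ) :=
  { (inferInstance : LinearOrder (Ul Γ)), (inferInstance : GroupWithZero (Ul Γ)),
    (inferInstance : CommMonoid (Ul Γ)) with
    bot := 0
    bot_le := fun x => Germ.inductionOn x fun _ => Germ.coe_le.2 (Eventually.of_forall fun _ => zero_le)
    isBot_zero := fun x => Germ.inductionOn x fun _ => Germ.coe_le.2 (Eventually.of_forall fun _ => zero_le)
    mul_lt_mul_of_pos_left := fun x => Germ.inductionOn x fun _ hf y z => Germ.inductionOn₂ y z fun _ _ hgh =>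
      Germ.coe_lt.2 ((Germ.coe_lt.1 hf).mp ((Germ.coe_lt.1 hgh).mono fun _ h1 h2 => mul_lt_mul_of_pos_left h1 h2)) }

end

section

variable {K Γ k : Type*} [Field K] [Field k] [LinearOrderedCommGroupWithZero Γ]

/-- A henselian valued field with residue characteristic zero, with its residue map. -/
structure IsVF (v : Valuation K Γ) (res : K → k) : Prop where
  vsurj : Function.Surjective v
  out : ∀ x, 1 < v x → res x = 0
  add : ∀ x y, v x ≤ 1 → v y ≤ 1 → res (x + y) = res x + res y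
  mul : ∀ x y, v x ≤ 1 → v y ≤ 1 → res (x * y) = res x * res y
  one : res 1 = 1
  zero_iff : ∀ x, v x ≤ 1 → (res x = 0 ↔ v x < 1)
  surj : ∀ α, ∃ x, v x ≤ 1 ∧ res x = α
  h2 : H2 v
  char : ∀ n : ℕ, n ≠ 0 → v (n : K) = 1

/-- The valuation of the ultrapower. -/
noncomputable def uv (v : Valuation K Γ) : Valuation (Ul K) (Ul Γ) where
  toFun := Germ.map v
  map_zero' := by
    change Germ.map v ((fun _ => (0 : K) : ℕ → K) : Ul K) = ((fun _ => (0 : Γ) : ℕ → Γ) : Ul Γ)
    rw [Germ.map_coe]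
    congr 1
    ext N
    simp
  map_one' := by
    change Germ.map v ((fun _ => (1 : K) : ℕ → K) : Ul K) = ((fun _ => (1 : Γ) : ℕ → Γ) : Ul Γ)
    rw [Germ.map_coe]
    congr 1
    ext N
    simp
  map_mul' := fun x y => Germ.inductionOn₂ x y fun f g => by
    change Germ.map v ((f * g : ℕ → K) : Ul K) = ((fun N => v (f N) * v (g N) : ℕ → Γ) : Ul Γ)
    rw [Germ.map_coe]
    congr 1
    ext N
    simp
  map_add_le_max' := fun x y => Germ.inductionOn₂ x y fun f g => by
    rw [Germ.max_def]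
    change (((v ∘ (f + g)) : ℕ → Γ) : Ul Γ) ≤ ((fun N => max (v (f N)) (v (g N)) : ℕ → Γ) : Ul Γ)
    rw [Germ.coe_le]
    exact Eventually.of_forall fun N => Valuation.map_add v _ _

/-- The residue map of the ultrapower. -/
noncomputable def ures (res : K → k) : Ul K → Ul k := Germ.map res

theorem uv_coe (v : Valuation K Γ) (f : ℕ → K) : uv v (f : Ul K) = ((fun N => v (f N) : ℕ → Γ) : Ul Γ) := rfl

theorem ures_coe (res : K → k) (f : ℕ → K) : ures res (f : Ul K) = ((fun N => res (f N) : ℕ → k) : Ul k) := rfl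

theorem uv_lt (v : Valuation K Γ) (f g : ℕ → K) :
    uv v (f : Ul K) < uv v (g : Ul K) ↔ ∀ᶠ N in (UU : Filter ℕ), v (f N) < v (g N) := by
  rw [uv_coe, uv_coe, Germ.coe_lt]

theorem uv_le_one (v : Valuation K Γ) (f : ℕ → K) :
    uv v (f : Ul K) ≤ 1 ↔ ∀ᶠ N in (UU : Filter ℕ), v (f N) ≤ 1 := Germ.coe_le

theorem uv_lt_one (v : Valuation K Γ) (f : ℕ → K) :
    uv v (f : Ul K) < 1 ↔ ∀ᶠ N in (UU : Filter ℕ), v (f N) < 1 := Germ.coe_lt

theorem uv_one_lt (v : Valuation K Γ) (f : ℕ → K) :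
    1 < uv v (f : Ul K) ↔ ∀ᶠ N in (UU : Filter ℕ), 1 < v (f N) := Germ.coe_lt

theorem h2_ultra (v : Valuation K Γ) (h : H2 v) : H2 (uv v) := by
  intro n c hc
  choose f hf using fun j => rep (c j)
  have h1 : ∀ᶠ N in (UU : Filter ℕ), ∀ j ∈ Finset.range n, v (f j N) < 1 := by
    rw [Finset.eventually_all]
    intro j _
    rw [← uv_lt_one, hf]
    exact hc j
  have h2 : ∀ N, ∃ z, (∀ j ∈ Finset.range n, v (f j N) < 1) →
      v z ≤ 1 ∧ 1 + z + ∑ j ∈ Finset.range n, f j N * z ^ (j + 2) = 0 := by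
    intro N
    by_cases hN : ∀ j ∈ Finset.range n, v (f j N) < 1
    · obtain ⟨z, hz1, hz2⟩ := h n (fun j => if j < n then f j N else 0) (by
        intro j
        by_cases hj : j < n
        · simp only [hj, if_true]
          exact hN j (Finset.mem_range.2 hj)
        · simp only [hj, if_false, map_zero]
          exact zero_lt_one)
      refine ⟨z, fun _ => ⟨hz1, ?_⟩⟩
      rw [← hz2]
      congr 1
      apply Finset.sum_congr rfl
      intro j hj
      rw [if_pos (Finset.mem_range.1 hj)]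
    · exact ⟨0, fun h3 => absurd h3 hN⟩
  choose z hz using h2
  refine ⟨(z : Ul K), ?_, ?_⟩
  · rw [uv_le_one]
    filter_upwards [h1] with N hN using (hz N hN).1
  · have h3 : (1 : Ul K) + (z : Ul K) + ∑ j ∈ Finset.range n, c j * (z : Ul K) ^ (j + 2) =
        Germ.coeRingHom (UU : Filter ℕ) (1 + z + ∑ j ∈ Finset.range n, f j * z ^ (j + 2)) := by
      rw [map_add, map_add, map_one, map_sum]
      congr 1
      apply Finset.sum_congr rfl
      intro j _
      rw [map_mul, map_pow, ← hf j]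
      rfl
    rw [h3]
    change ((1 + z + ∑ j ∈ Finset.range n, f j * z ^ (j + 2) : ℕ → K) : Ul K) = ((0 : ℕ → K) : Ul K)
    rw [Germ.coe_eq]
    filter_upwards [h1] with N hN
    have h4 := (hz N hN).2
    simpa using h4

theorem eval_germ (Q : Polynomial (Ul K)) (q : ℕ → ℕ → K) (hq : ∀ k, (q k : Ul K) = Q.coeff k) (y : ℕ → K) :
    Q.eval (y : Ul K) = ((fun N => ∑ k ∈ Finset.range (Q.natDegree + 1), q k N * y N ^ k : ℕ → K) : Ul K) := by
  have h1 : ((fun N => ∑ k ∈ Finset.range (Q.natDegree + 1), q k N * y N ^ k : ℕ → K) : Ul K) =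
      Germ.coeRingHom (UU : Filter ℕ) (∑ k ∈ Finset.range (Q.natDegree + 1), q k * y ^ k) := by
    change _ = ((∑ k ∈ Finset.range (Q.natDegree + 1), q k * y ^ k : ℕ → K) : Ul K)
    congr 1
    ext N
    simp
  rw [h1, map_sum, Polynomial.eval_eq_sum_range]
  apply Finset.sum_congr rfl
  intro k _
  rw [map_mul, map_pow, ← hq k]
  rfl

theorem sat_ultra (v : Valuation K Γ) : SatP (uv v) := by
  intro Q c h
  choose q hq using fun j k => rep ((Q j).coeff k)
  choose cc hcc using fun j => rep (c j)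
  have key : ∀ (y : ℕ → K) (j : ℕ), uv v ((Q j).eval (y : Ul K) - c j) < uv v (c j) ↔
      ∀ᶠ N in (UU : Filter ℕ), v (∑ k ∈ Finset.range ((Q j).natDegree + 1), q j k N * y N ^ k - cc j N) <
        v (cc j N) := by
    intro y j
    rw [eval_germ (Q j) (q j) (hq j) y, ← hcc j, ← uv_lt]
    rfl
  obtain ⟨y, hy⟩ := germ_sat (T := K) (fun j N => {y | v (∑ k ∈ Finset.range ((Q j).natDegree + 1),
      q j k N * y ^ k - cc j N) < v (cc j N)}) (by
    intro M
    obtain ⟨y, hy⟩ := h M
    obtain ⟨y, rfl⟩ := rep y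
    have h1 : ∀ᶠ N in (UU : Filter ℕ), ∀ j ∈ Finset.range M,
        v (∑ k ∈ Finset.range ((Q j).natDegree + 1), q j k N * y N ^ k - cc j N) < v (cc j N) := by
      rw [Finset.eventually_all]
      intro j hj
      exact (key y j).1 (hy j (Finset.mem_range.1 hj))
    filter_upwards [h1] with N hN
    exact ⟨y N, fun j hj => hN j (Finset.mem_range.2 hj)⟩)
  exact ⟨(y : Ul K), fun j => (key y j).2 (hy j)⟩

theorem isVF_ultra {v : Valuation K Γ} {res : K → k} (h : IsVF v res) : IsVF (uv v) (ures res) := by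
  refine ⟨?_, ?_, ?_, ?_, ?_, ?_, ?_, h2_ultra v h.h2, ?_⟩
  · intro γ
    obtain ⟨g, rfl⟩ := rep γ
    choose f hf using fun N => h.vsurj (g N)
    refine ⟨(f : Ul K), ?_⟩
    rw [uv_coe]
    congr 1
    ext N
    exact hf N
  · intro x hx
    obtain ⟨f, rfl⟩ := rep x
    rw [uv_one_lt] at hx
    rw [ures_coe]
    change _ = ((fun _ => 0 : ℕ → k) : Ul k)
    rw [Germ.coe_eq]
    filter_upwards [hx] with N hN using h.out _ hN
  · intro x y hx hy
    obtain ⟨f, rfl⟩ := rep x
    obtain ⟨g, rfl⟩ := rep y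
    rw [uv_le_one] at hx hy
    rw [← Germ.coe_add, ures_coe, ures_coe, ures_coe, ← Germ.coe_add, Germ.coe_eq]
    filter_upwards [hx, hy] with N hN hN' using h.add _ _ hN hN'
  · intro x y hx hy
    obtain ⟨f, rfl⟩ := rep x
    obtain ⟨g, rfl⟩ := rep y
    rw [uv_le_one] at hx hy
    rw [← Germ.coe_mul, ures_coe, ures_coe, ures_coe, ← Germ.coe_mul, Germ.coe_eq]
    filter_upwards [hx, hy] with N hN hN' using h.mul _ _ hN hN'
  · change ures res ((fun _ => 1 : ℕ → K) : Ul K) = ((fun _ => 1 : ℕ → k) : Ul k)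
    rw [ures_coe]
    congr 1
    ext N
    exact h.one
  · intro x hx
    obtain ⟨f, rfl⟩ := rep x
    rw [uv_le_one] at hx
    rw [uv_lt_one, ures_coe]
    change ((fun N => res (f N) : ℕ → k) : Ul k) = ((fun _ => 0 : ℕ → k) : Ul k) ↔ _
    rw [Germ.coe_eq]
    constructor
    · intro h1
      filter_upwards [hx, h1] with N hN hN' using (h.zero_iff _ hN).1 hN'
    · intro h1
      filter_upwards [hx, h1] with N hN hN' using (h.zero_iff _ hN).2 hN'
  · intro α
    obtain ⟨g, rfl⟩ := rep α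
    choose f hf using fun N => h.surj (g N)
    refine ⟨(f : Ul K), ?_, ?_⟩
    · rw [uv_le_one]
      exact Eventually.of_forall fun N => (hf N).1
    · rw [ures_coe]
      congr 1
      ext N
      exact (hf N).2
  · intro n hn
    have h1 : ((n : ℕ) : Ul K) = ((fun _ => (n : K) : ℕ → K) : Ul K) := by
      have := map_natCast (Germ.coeRingHom (UU : Filter ℕ) : (ℕ → K) →+* Ul K) n
      rw [← this]
      rfl
    rw [h1, uv_coe]
    change _ = ((fun _ => 1 : ℕ → Γ) : Ul Γ)
    congr 1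
    ext N
    exact h.char n hn

end

end Pool.Agent.P8H21.AKE
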